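import Mathlib

/-!
# Displacement and continuity for measure preserving bijections of `[0,1)`
-/

namespace Pool.Agent.MP9d5bb5

open MeasureTheory Set Filter Topology ENNReal

noncomputable section

/-- Lebesgue measure on `[0,1)` -/
def mu : Measure ℝ := volume.restrict (Ico (0:ℝ) 1)

instance : IsProbabilityMeasure mu :=
  ⟨by simp [mu]⟩

instance : mu.Regular := by
  unfold mu; infer_instance

/-- average displacement -/
def D (h : ℝ → ℝ) : ℝ≥0∞ := ∫⁻ x, edist (h x) x ∂mu

lemma exists_lt_of_pos {a : ℝ≥0∞} (ha : a ≠ 0) : ∃ b : ℝ≥0∞, b ≠ 0 ∧ b < a := by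
  obtain ⟨b, h1, h2⟩ := exists_between (pos_iff_ne_zero.2 ha)
  exact ⟨b, h1.ne', h2⟩

lemma half_pos' {a : ℝ≥0∞} (ha : a ≠ 0) (n : ℕ) (hn : n ≠ 0) : a / n ≠ 0 := by
  simp only [ne_eq, ENNReal.div_eq_zero_iff, not_or]
  exact ⟨ha, by simp⟩

/-- continuity of `h ↦ f ∘ h` at the identity -/
lemma comp_small {f : ℝ → ℝ} (hf : Integrable f mu) (hfm : Measurable f) {η : ℝ≥0∞} (hη : η ≠ 0) :
    ∃ κ : ℝ≥0∞, κ ≠ 0 ∧ ∀ h : ℝ → ℝ, MeasurePreserving h mu mu → D h < κ →
      ∫⁻ x, edist (f (h x)) (f x) ∂mu < η := by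
  -- make `η` finite
  wlog hfin : η ≠ ∞ generalizing η
  · obtain ⟨κ, h1, h2⟩ := this (η := 1) one_ne_zero one_ne_top
    refine ⟨κ, h1, fun h hh hD => (h2 h hh hD).trans ?_⟩
    simp only [ne_eq, not_not] at hfin
    rw [hfin]; exact one_lt_top
  obtain ⟨e, he0, he1⟩ : ∃ e : ℝ, 0 < e ∧ ENNReal.ofReal e * 5 ≤ η := by
    refine ⟨η.toReal / 5, by have := ENNReal.toReal_pos hη hfin; positivity, ?_⟩
    rw [← ENNReal.ofReal_ofNat 5, ← ENNReal.ofReal_mul (by positivity)]
    rw [div_mul_cancel₀ _ (by norm_num)]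
    exact ENNReal.ofReal_toReal_le
  have he2 : ENNReal.ofReal e ≠ 0 := by simpa using he0
  obtain ⟨g, hg1, hg2, hg3, hg4⟩ := hf.exists_hasCompactSupport_lintegral_sub_le he2
  obtain ⟨C, hC⟩ := hg1.exists_bound_of_continuous hg3
  have hC0 : 0 ≤ C := (norm_nonneg _).trans (hC 0)
  have huc := hg1.uniformContinuous_of_continuous hg3
  rw [Metric.uniformContinuous_iff] at huc
  obtain ⟨k, hk0, hk⟩ := huc e he0
  have hmod : ∀ u v : ℝ, edist (g u) (g v) ≤ ENNReal.ofReal e + ENNReal.ofReal (2 * C / k) * edist u v := by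
    intro u v
    rcases lt_or_ge (dist u v) k with h | h
    · calc edist (g u) (g v) = ENNReal.ofReal (dist (g u) (g v)) := edist_dist _ _
        _ ≤ ENNReal.ofReal e := ENNReal.ofReal_le_ofReal (hk h).le
        _ ≤ _ := le_self_add
    · calc edist (g u) (g v) = ENNReal.ofReal (dist (g u) (g v)) := edist_dist _ _
        _ ≤ ENNReal.ofReal (2 * C / k * dist u v) := by
            apply ENNReal.ofReal_le_ofReal
            have h1 : dist (g u) (g v) ≤ 2 * C := by
              rw [dist_eq_norm]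
              have := norm_sub_le (g u) (g v)
              have := hC u
              have := hC v
              linarith
            have h2 : 2 * C ≤ 2 * C / k * dist u v := by
              rw [div_mul_eq_mul_div, le_div_iff₀ hk0]
              exact mul_le_mul_of_nonneg_left h (by positivity)
            linarith
        _ = ENNReal.ofReal (2 * C / k) * edist u v := by
            rw [ENNReal.ofReal_mul (by positivity), edist_dist]
        _ ≤ _ := le_add_self
  -- choose κ
  obtain ⟨κ, hκ0, hκ1⟩ : ∃ κ : ℝ≥0∞, κ ≠ 0 ∧ ENNReal.ofReal (2 * C / k) * κ ≤ ENNReal.ofReal e := by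
    refine ⟨ENNReal.ofReal (e / (2 * C / k + 1)), ?_, ?_⟩
    · have : 0 < e / (2 * C / k + 1) := by positivity
      simpa using this
    · rw [← ENNReal.ofReal_mul (by positivity)]
      apply ENNReal.ofReal_le_ofReal
      rw [mul_div_assoc', div_le_iff₀ (by positivity)]
      have : 0 ≤ 2 * C / k := by positivity
      nlinarith
  refine ⟨κ, hκ0, fun h hh hD => ?_⟩
  have hgm : Measurable g := hg3.measurable
  have hfg : Measurable (fun x => edist (f x) (g x)) := hfm.edist hgm
  have e1 : ∫⁻ x, edist (f (h x)) (g (h x)) ∂mu = ∫⁻ x, edist (f x) (g x) ∂mu :=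
    hh.lintegral_comp hfg
  have e2 : ∫⁻ x, edist (f x) (g x) ∂mu ≤ ENNReal.ofReal e := by
    refine le_trans (le_of_eq ?_) hg2
    apply lintegral_congr
    intro x
    rw [edist_eq_enorm_sub]
  have hhm : Measurable h := hh.measurable
  have e3 : ∫⁻ x, edist (g (h x)) (g x) ∂mu ≤ ENNReal.ofReal e + ENNReal.ofReal e := by
    calc ∫⁻ x, edist (g (h x)) (g x) ∂mu
        ≤ ∫⁻ x, (ENNReal.ofReal e + ENNReal.ofReal (2 * C / k) * edist (h x) x) ∂mu :=
          lintegral_mono fun x => hmod _ _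
      _ = ENNReal.ofReal e + ENNReal.ofReal (2 * C / k) * D h := by
          have hm1 : Measurable (fun x => edist (h x) x) := hhm.edist measurable_id
          rw [lintegral_add_left measurable_const, lintegral_const,
            lintegral_const_mul _ hm1]
          simp [D]
      _ ≤ ENNReal.ofReal e + ENNReal.ofReal (2 * C / k) * κ := by gcongr
      _ ≤ _ := by gcongr
  calc ∫⁻ x, edist (f (h x)) (f x) ∂mu
      ≤ ∫⁻ x, (edist (f (h x)) (g (h x)) + (edist (g (h x)) (g x) + edist (f x) (g x))) ∂mu := by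
        apply lintegral_mono
        intro x
        calc edist (f (h x)) (f x) ≤ edist (f (h x)) (g (h x)) + edist (g (h x)) (f x) :=
              edist_triangle _ _ _
          _ ≤ _ := by
              apply add_le_add le_rfl
              calc edist (g (h x)) (f x) ≤ edist (g (h x)) (g x) + edist (g x) (f x) :=
                    edist_triangle _ _ _
                _ = _ := by rw [edist_comm (g x) (f x)]
    _ = ∫⁻ x, edist (f (h x)) (g (h x)) ∂mu + (∫⁻ x, edist (g (h x)) (g x) ∂mu +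
          ∫⁻ x, edist (f x) (g x) ∂mu) := by
        have hm1 : Measurable (fun x => edist (f (h x)) (g (h x))) :=
          (hfm.comp hhm).edist (hgm.comp hhm)
        have hm2 : Measurable (fun x => edist (g (h x)) (g x)) := (hgm.comp hhm).edist hgm
        rw [lintegral_add_left hm1, lintegral_add_left hm2]
    _ ≤ ENNReal.ofReal e + ((ENNReal.ofReal e + ENNReal.ofReal e) + ENNReal.ofReal e) := by
        rw [e1]
        gcongr
    _ < ENNReal.ofReal e * 5 := by
        have : ENNReal.ofReal e * 5 = ENNReal.ofReal e + ((ENNReal.ofReal e + ENNReal.ofReal e) + ENNReal.ofReal e) + ENNReal.ofReal e := by ring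
        rw [this]
        exact ENNReal.lt_add_right (by simp) he2
    _ ≤ η := he1

/-- continuity of `h ↦ h ⁻¹' B` at the identity -/
lemma set_small {B : Set ℝ} (hB : MeasurableSet B) {η : ℝ≥0∞} (hη : η ≠ 0) :
    ∃ κ : ℝ≥0∞, κ ≠ 0 ∧ ∀ h : ℝ → ℝ, MeasurePreserving h mu mu → D h < κ →
      mu (symmDiff (h ⁻¹' B) B) < η := by
  obtain ⟨κ, h1, h2⟩ := comp_small (f := B.indicator (fun _ => (1:ℝ)))
    ((integrable_const (1:ℝ)).indicator hB) (measurable_const.indicator hB) hη
  refine ⟨κ, h1, fun h hh hD => lt_of_le_of_lt ?_ (h2 h hh hD)⟩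
  have hm : MeasurableSet (symmDiff (h ⁻¹' B) B) := (hh.measurable hB).symmDiff hB
  rw [← lintegral_indicator_one hm]
  apply lintegral_mono
  intro x
  by_cases hx : x ∈ symmDiff (h ⁻¹' B) B
  · rw [indicator_of_mem hx]
    rcases (mem_symmDiff.1 hx) with ⟨h3, h4⟩ | ⟨h3, h4⟩
    · rw [mem_preimage] at h3
      simp [indicator_of_mem h3, indicator_of_notMem h4]
    · rw [mem_preimage] at h4
      simp [indicator_of_mem h3, indicator_of_notMem h4]
  · rw [indicator_of_notMem hx]
    exact bot_le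

/-- converse: convergence on sets implies small displacement -/
lemma D_le_of_sets (m : ℕ) (hm : m ≠ 0) {h : ℝ → ℝ} (hh : MeasurePreserving h mu mu)
    (hmap : ∀ x ∈ Ico (0:ℝ) 1, h x ∈ Ico (0:ℝ) 1) :
    D h ≤ ENNReal.ofReal (1 / m) + ∑ j ∈ Finset.range m,
      mu (symmDiff (h ⁻¹' (Ico ((j:ℝ) / m) ((j + 1 : ℝ) / m))) (Ico ((j:ℝ) / m) ((j + 1 : ℝ) / m))) := by
  have hmr : (0:ℝ) < m := by positivity
  set S : Set ℝ := ⋃ j ∈ Finset.range m,
    symmDiff (h ⁻¹' (Ico ((j:ℝ) / m) ((j + 1 : ℝ) / m))) (Ico ((j:ℝ) / m) ((j + 1 : ℝ) / m)) with hS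
  have hSm : MeasurableSet S := by
    apply Finset.measurableSet_biUnion
    intro j _
    exact (hh.measurable measurableSet_Ico).symmDiff measurableSet_Ico
  have hpt : ∀ x ∈ Ico (0:ℝ) 1, edist (h x) x ≤ ENNReal.ofReal (1 / m) + S.indicator 1 x := by
    intro x hx
    by_cases hxS : x ∈ S
    · rw [indicator_of_mem hxS]
      have h1 := hmap x hx
      have : edist (h x) x ≤ 1 := by
        rw [edist_dist]
        have : dist (h x) x ≤ 1 := by
          rw [Real.dist_eq, abs_le]
          constructor <;> linarith [h1.1, h1.2, hx.1, hx.2]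
        calc ENNReal.ofReal (dist (h x) x) ≤ ENNReal.ofReal 1 := ENNReal.ofReal_le_ofReal this
          _ = 1 := by simp
      exact this.trans le_add_self
    · rw [indicator_of_notMem hxS, add_zero]
      -- x lies in the interval number j
      obtain ⟨j, hj, hj1, hj2⟩ : ∃ j : ℕ, j < m ∧ (j:ℝ) / m ≤ x ∧ x < (j + 1 : ℝ) / m := by
        refine ⟨⌊x * m⌋₊, ?_, ?_, ?_⟩
        · rw [Nat.floor_lt (by have := hx.1; positivity)]
          have := hx.2
          nlinarith
        · rw [div_le_iff₀ hmr]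
          exact Nat.floor_le (by have := hx.1; positivity)
        · rw [lt_div_iff₀ hmr]
          exact Nat.lt_floor_add_one _
      have hxI : x ∈ Ico ((j:ℝ) / m) ((j + 1 : ℝ) / m) := ⟨hj1, hj2⟩
      have hhI : h x ∈ Ico ((j:ℝ) / m) ((j + 1 : ℝ) / m) := by
        by_contra hcon
        apply hxS
        rw [hS, mem_iUnion₂]
        refine ⟨j, Finset.mem_range.2 hj, ?_⟩
        rw [mem_symmDiff]
        exact Or.inr ⟨hxI, hcon⟩
      rw [edist_dist]
      apply ENNReal.ofReal_le_ofReal
      rw [Real.dist_eq, abs_le]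
      have e1 : (j + 1 : ℝ) / m = (j:ℝ) / m + 1 / m := by ring
      rw [e1] at hxI hhI
      constructor <;> linarith [hxI.1, hxI.2, hhI.1, hhI.2]
  calc D h = ∫⁻ x in Ico (0:ℝ) 1, edist (h x) x := rfl
    _ ≤ ∫⁻ x in Ico (0:ℝ) 1, (ENNReal.ofReal (1 / m) + S.indicator 1 x) :=
        setLIntegral_mono' measurableSet_Ico hpt
    _ = ∫⁻ x, (ENNReal.ofReal (1 / m) + S.indicator 1 x) ∂mu := rfl
    _ = ENNReal.ofReal (1 / m) + mu S := by
        rw [lintegral_add_left measurable_const, lintegral_const, lintegral_indicator_one hSm]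
        simp
    _ ≤ _ := by
        gcongr
        exact measure_biUnion_finset_le _ _

end

end Pool.Agent.MP9d5bb5
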