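import Pool.Agent.Lib.MP9d5bb5.Core

/-!
# From a free part to the Følner condition
-/

namespace Pool.Agent.MP9d5bb5

open MeasureTheory Set Filter Topology ENNReal

noncomputable section

variable {H : Subgroup (Equiv.Perm ℝ)}

lemma countable_closure {G : Type*} [Group G] (S : Set G) (hS : S.Countable) :
    Countable (Subgroup.closure S) := by
  rw [FreeGroup.closure_eq_range]
  haveI : Countable S := hS
  haveI : Countable (FreeGroup S) := by unfold FreeGroup; infer_instance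
  have := Set.countable_range (FreeGroup.lift ((↑) : S → G))
  exact this.to_subtype

/-- `t` is a multiple of `2 ^ (-n)` -/
def rel (n : ℕ) (t : ℝ) : Prop := ∃ k : ℤ, t = (k : ℝ) / (2 : ℝ) ^ n

lemma rel.add {n : ℕ} {s t : ℝ} (hs : rel n s) (ht : rel n t) : rel n (s + t) := by
  obtain ⟨k, rfl⟩ := hs
  obtain ⟨l, rfl⟩ := ht
  exact ⟨k + l, by push_cast; ring⟩

lemma rel.neg {n : ℕ} {s : ℝ} (hs : rel n s) : rel n (-s) := by
  obtain ⟨k, rfl⟩ := hs
  exact ⟨-k, by push_cast; ring⟩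

lemma rel_zero (n : ℕ) : rel n 0 := ⟨0, by simp⟩

lemma rel.sub {n : ℕ} {s t : ℝ} (hs : rel n s) (ht : rel n t) : rel n (s - t) := by
  rw [sub_eq_add_neg]; exact hs.add ht.neg

lemma rel.mono {m n : ℕ} (h : m ≤ n) {t : ℝ} (ht : rel m t) : rel n t := by
  obtain ⟨k, rfl⟩ := ht
  refine ⟨k * 2 ^ (n - m), ?_⟩
  push_cast
  rw [div_eq_div_iff (by positivity) (by positivity), mul_assoc, ← pow_add]
  congr 2
  omega

lemma measurableSet_rel (n : ℕ) : MeasurableSet {t : ℝ | rel n t} := by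
  have : {t : ℝ | rel n t} = range (fun k : ℤ => (k : ℝ) / (2 : ℝ) ^ n) := by
    ext t; simp only [rel, mem_setOf_eq, mem_range, eq_comm]
  rw [this]
  exact (countable_range _).measurableSet

lemma finite_rel (n : ℕ) {x : ℝ} (hx : x ∈ Ico (0:ℝ) 1) :
    {y : ℝ | y ∈ Ico (0:ℝ) 1 ∧ rel n (y - x)}.Finite := by
  refine ((Set.finite_Icc (-(2:ℤ) ^ n) (2 ^ n)).image (fun k : ℤ => x + (k : ℝ) / (2:ℝ) ^ n)).subset ?_
  rintro y ⟨hy, k, hk⟩
  have h2 : (0:ℝ) < 2 ^ n := by positivity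
  have hk' : (k:ℝ) = (y - x) * 2 ^ n := by rw [hk]; field_simp
  refine ⟨k, ⟨?_, ?_⟩, ?_⟩
  · have : (-(2:ℝ) ^ n) ≤ k := by
      rw [hk']; nlinarith [hy.1, hy.2, hx.1, hx.2]
    exact_mod_cast this
  · have : (k:ℝ) ≤ 2 ^ n := by
      rw [hk']; nlinarith [hy.1, hy.2, hx.1, hx.2]
    exact_mod_cast this
  · show x + (k : ℝ) / (2:ℝ) ^ n = y
    rw [← hk]; ring

/-- points moved by `s` by something not a multiple of `2 ^ (-n)` -/
def bad (s : Equiv.Perm ℝ) (n : ℕ) : Set ℝ := {x | x ∈ Ico (0:ℝ) 1 ∧ ¬ rel n (s x - x)}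

lemma measurableSet_relset (hF : InFull H) {g : Equiv.Perm ℝ} (hg : g ∈ H) (n : ℕ) :
    MeasurableSet {x : ℝ | rel n (g x - x)} :=
  ((hF.mp hg).measurable.sub measurable_id) (measurableSet_rel n)

lemma measurableSet_bad (hF : InFull H) {g : Equiv.Perm ℝ} (hg : g ∈ H) (n : ℕ) :
    MeasurableSet (bad g n) :=
  measurableSet_Ico.inter (measurableSet_relset hF hg n).compl

lemma tendsto_bad (hF : InFull H) {s : Equiv.Perm ℝ} (hs : s ∈ H) :
    Tendsto (fun n => mu (bad s n)) atTop (𝓝 0) := by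
  have h1 : Tendsto (fun n => mu (bad s n)) atTop (𝓝 (mu (⋂ n, bad s n))) := by
    apply tendsto_measure_iInter_atTop
    · intro n; exact (measurableSet_bad hF hs n).nullMeasurableSet
    · intro m n hmn x hx
      exact ⟨hx.1, fun h => hx.2 (h.mono hmn)⟩
    · exact ⟨0, measure_ne_top _ _⟩
  have h2 : (⋂ n, bad s n) = ∅ := by
    ext x
    simp only [mem_iInter, mem_empty_iff_false, iff_false, not_forall]
    by_cases hx : x ∈ Ico (0:ℝ) 1
    · obtain ⟨k, n, hk⟩ := (hF s hs).2.1 x hx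
      exact ⟨n, fun h => h.2 ⟨k, by rw [hk]; ring⟩⟩
    · exact ⟨0, fun h => hx h.1⟩
  rwa [h2, measure_empty] at h1

/-- the points of `[0,1)` with trivial stabiliser in `Γ` -/
def freePts (Γ : Subgroup (Equiv.Perm ℝ)) : Set ℝ :=
  {x | x ∈ Ico (0:ℝ) 1 ∧ ∀ g ∈ Γ, g x = x → g = 1}

lemma measurableSet_freePts (hF : InFull H) {Γ : Subgroup (Equiv.Perm ℝ)} (hΓ : Γ ≤ H)
    [Countable Γ] : MeasurableSet (freePts Γ) := by
  have : freePts Γ = Ico (0:ℝ) 1 ∩ ⋂ g : Γ, {x | (g : Equiv.Perm ℝ) x = x → (g : Equiv.Perm ℝ) = 1} := by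
    ext x
    simp only [freePts, mem_setOf_eq, mem_inter_iff, mem_iInter, Subtype.forall]
  rw [this]
  refine measurableSet_Ico.inter (MeasurableSet.iInter fun g => ?_)
  by_cases hg : (g : Equiv.Perm ℝ) = 1
  · simp [hg]
  · have : {x | (g : Equiv.Perm ℝ) x = x → (g : Equiv.Perm ℝ) = 1} = (Fx g)ᶜ := by
      ext x; simp [hg, Fx]
    rw [this]
    exact (measurableSet_Fx hF (hΓ g.2)).compl

lemma mem_freePts_smul (hF : InFull H) {Γ : Subgroup (Equiv.Perm ℝ)} (hΓ : Γ ≤ H)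
    {g : Equiv.Perm ℝ} (hg : g ∈ Γ) {x : ℝ} (hx : x ∈ freePts Γ) : g x ∈ freePts Γ := by
  refine ⟨hF.maps (hΓ hg) hx.1, fun k hk h => ?_⟩
  have h1 : (g⁻¹ * k * g) x = x := by
    show g⁻¹ (k (g x)) = x
    rw [h]; simp
  have h2 := hx.2 _ (Γ.mul_mem (Γ.mul_mem (Γ.inv_mem hg) hk) hg) h1
  have : k = g * (g⁻¹ * k * g) * g⁻¹ := by group
  rw [this, h2]; group

lemma mem_freePts_iff (hF : InFull H) {Γ : Subgroup (Equiv.Perm ℝ)} (hΓ : Γ ≤ H)
    {g : Equiv.Perm ℝ} (hg : g ∈ Γ) {x : ℝ} : g x ∈ freePts Γ ↔ x ∈ freePts Γ := by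
  refine ⟨fun h => ?_, mem_freePts_smul hF hΓ hg⟩
  have := mem_freePts_smul hF hΓ (Γ.inv_mem hg) h
  simpa using this

/-- the finite piece of the orbit -/
def piece (Γ : Subgroup (Equiv.Perm ℝ)) (n : ℕ) (g : Equiv.Perm ℝ) : Set ℝ :=
  {x | x ∈ freePts Γ ∧ rel n (g x - x)}

lemma measurableSet_piece (hF : InFull H) {Γ : Subgroup (Equiv.Perm ℝ)} (hΓ : Γ ≤ H)
    [Countable Γ] (n : ℕ) (g : Γ) : MeasurableSet (piece Γ n g) :=
  (measurableSet_freePts hF hΓ).inter (measurableSet_relset hF (hΓ g.2) n)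

/-- number of `g ∈ Γ` with `g x ~ x` -/
def cnt (Γ : Subgroup (Equiv.Perm ℝ)) (n : ℕ) (x : ℝ) : ℝ≥0∞ :=
  ∑' g : Γ, (piece Γ n g).indicator 1 x

lemma finite_orbit (hF : InFull H) {Γ : Subgroup (Equiv.Perm ℝ)} (hΓ : Γ ≤ H) (n : ℕ) {x : ℝ}
    (hx : x ∈ freePts Γ) : {g : Equiv.Perm ℝ | g ∈ Γ ∧ rel n (g x - x)}.Finite := by
  refine Set.Finite.of_finite_image (f := fun g : Equiv.Perm ℝ => g x) ?_ ?_
  · refine (finite_rel n hx.1).subset ?_
    rintro _ ⟨g, ⟨hg, hr⟩, rfl⟩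
    exact ⟨hF.maps (hΓ hg) hx.1, hr⟩
  · rintro g ⟨hg, -⟩ k ⟨hk, -⟩ hgk
    have hgk' : g x = k x := hgk
    have h1 : (k⁻¹ * g) x = x := by
      show k⁻¹ (g x) = x
      rw [hgk']; simp
    have h2 := hx.2 _ (Γ.mul_mem (Γ.inv_mem hk) hg) h1
    have : g = k * (k⁻¹ * g) := by group
    rw [this, h2, mul_one]

lemma tsum_piece (hF : InFull H) {Γ : Subgroup (Equiv.Perm ℝ)} (hΓ : Γ ≤ H) (n : ℕ) {x : ℝ}
    (hx : x ∈ freePts Γ) (W : Equiv.Perm ℝ → ℝ≥0∞) :
    ∑' g : Γ, (piece Γ n g).indicator (fun _ => W g) x =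
      ∑ g ∈ (finite_orbit hF hΓ n hx).toFinset, W g := by
  classical
  set F := (finite_orbit hF hΓ n hx).toFinset with hFdef
  have hmem : ∀ g ∈ F, g ∈ Γ := by
    intro g hg
    rw [hFdef, Set.Finite.mem_toFinset] at hg
    exact hg.1
  rw [← Finset.sum_subtype_of_mem W hmem]
  rw [tsum_eq_sum (s := F.subtype (· ∈ Γ))]
  · apply Finset.sum_congr rfl
    intro g hg
    rw [Finset.mem_subtype, hFdef, Set.Finite.mem_toFinset] at hg
    rw [indicator_of_mem]
    exact ⟨hx, hg.2⟩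
  · intro g hg
    rw [indicator_of_notMem]
    intro h
    apply hg
    rw [Finset.mem_subtype, hFdef, Set.Finite.mem_toFinset]
    exact ⟨g.2, h.2⟩

lemma cnt_eq_card (hF : InFull H) {Γ : Subgroup (Equiv.Perm ℝ)} (hΓ : Γ ≤ H) (n : ℕ) {x : ℝ}
    (hx : x ∈ freePts Γ) : cnt Γ n x = (finite_orbit hF hΓ n hx).toFinset.card := by
  have := tsum_piece hF hΓ n hx (fun _ => 1)
  simp only [Finset.sum_const, nsmul_eq_mul, mul_one] at this
  rw [← this]
  rfl

lemma cnt_ne_zero (hF : InFull H) {Γ : Subgroup (Equiv.Perm ℝ)} (hΓ : Γ ≤ H) (n : ℕ) {x : ℝ}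
    (hx : x ∈ freePts Γ) : cnt Γ n x ≠ 0 := by
  rw [cnt_eq_card hF hΓ n hx]
  simp only [ne_eq, Nat.cast_eq_zero, Finset.card_eq_zero]
  intro h
  have : (1 : Equiv.Perm ℝ) ∈ (finite_orbit hF hΓ n hx).toFinset := by
    rw [Set.Finite.mem_toFinset]
    exact ⟨Γ.one_mem, by simpa using rel_zero n⟩
  rw [h] at this
  simp at this

lemma cnt_ne_top (hF : InFull H) {Γ : Subgroup (Equiv.Perm ℝ)} (hΓ : Γ ≤ H) (n : ℕ) {x : ℝ}
    (hx : x ∈ freePts Γ) : cnt Γ n x ≠ ∞ := by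
  rw [cnt_eq_card hF hΓ n hx]
  exact ENNReal.natCast_ne_top _

lemma measurable_cnt (hF : InFull H) {Γ : Subgroup (Equiv.Perm ℝ)} (hΓ : Γ ≤ H)
    [Countable Γ] (n : ℕ) : Measurable (cnt Γ n) := by
  unfold cnt
  exact Measurable.ennreal_tsum fun g => measurable_one.indicator (measurableSet_piece hF hΓ n g)

lemma piece_inv (hF : InFull H) {Γ : Subgroup (Equiv.Perm ℝ)} (hΓ : Γ ≤ H) (n : ℕ)
    {g : Equiv.Perm ℝ} (hg : g ∈ Γ) (x : ℝ) : g x ∈ piece Γ n g⁻¹ ↔ x ∈ piece Γ n g := by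
  unfold piece
  simp only [mem_setOf_eq]
  rw [mem_freePts_iff hF hΓ hg]
  have e1 : (g⁻¹ : Equiv.Perm ℝ) (g x) - g x = -(g x - x) := by simp
  rw [e1]
  constructor
  · rintro ⟨h1, h2⟩
    exact ⟨h1, by simpa using h2.neg⟩
  · rintro ⟨h1, h2⟩
    exact ⟨h1, h2.neg⟩

lemma cnt_smul (hF : InFull H) {Γ : Subgroup (Equiv.Perm ℝ)} (hΓ : Γ ≤ H) (n : ℕ)
    {g : Equiv.Perm ℝ} (hg : g ∈ Γ) {x : ℝ} (hx : x ∈ piece Γ n g) : cnt Γ n (g x) = cnt Γ n x := by
  unfold cnt
  rw [← (Equiv.mulRight (⟨g, hg⟩ : Γ)).tsum_eq (fun k : Γ => (piece Γ n k).indicator 1 x)]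
  apply tsum_congr
  intro k
  have : g x ∈ piece Γ n k ↔ x ∈ piece Γ n ((k * ⟨g, hg⟩ : Γ) : Equiv.Perm ℝ) := by
    unfold piece
    simp only [mem_setOf_eq]
    rw [mem_freePts_iff hF hΓ hg]
    have e1 : ((k * ⟨g, hg⟩ : Γ) : Equiv.Perm ℝ) x = (k : Equiv.Perm ℝ) (g x) := rfl
    rw [e1]
    constructor
    · rintro ⟨h1, h2⟩
      refine ⟨h1, ?_⟩
      have := h2.add hx.2
      simpa using this
    · rintro ⟨h1, h2⟩
      refine ⟨h1, ?_⟩
      have := h2.sub hx.2
      simpa using this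
  show (piece Γ n k).indicator 1 (g x) = (piece Γ n ((k * ⟨g, hg⟩ : Γ) : Equiv.Perm ℝ)).indicator 1 x
  by_cases h : g x ∈ piece Γ n k
  · rw [indicator_of_mem h, indicator_of_mem (this.1 h)]; rfl
  · rw [indicator_of_notMem h, indicator_of_notMem (fun h' => h (this.2 h'))]

/-- mass transport -/
lemma transport (hF : InFull H) {Γ : Subgroup (Equiv.Perm ℝ)} (hΓ : Γ ≤ H)
    [Countable Γ] (n : ℕ) {W : ℝ → ℝ≥0∞} (hW : Measurable W) :
    ∫⁻ x, ∑' g : Γ, (piece Γ n g).indicator (fun x => W ((g : Equiv.Perm ℝ) x) / cnt Γ n x) x ∂mu =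
      ∫⁻ x in freePts Γ, W x ∂mu := by
  have hcm := measurable_cnt hF hΓ n
  have hm1 : ∀ g : Γ, Measurable ((piece Γ n g).indicator
      (fun x => W ((g : Equiv.Perm ℝ) x) / cnt Γ n x)) := fun g =>
    ((hW.comp (hF.mp (hΓ g.2)).measurable).div hcm).indicator (measurableSet_piece hF hΓ n g)
  have hm2 : ∀ g : Γ, Measurable ((piece Γ n g).indicator (fun x => W x / cnt Γ n x)) := fun g =>
    (hW.div hcm).indicator (measurableSet_piece hF hΓ n g)
  rw [lintegral_tsum fun g => (hm1 g).aemeasurable]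
  have e1 : ∀ g : Γ, ∫⁻ x, (piece Γ n g).indicator
      (fun x => W ((g : Equiv.Perm ℝ) x) / cnt Γ n x) x ∂mu =
      ∫⁻ x, (piece Γ n ((g⁻¹ : Γ) : Equiv.Perm ℝ)).indicator (fun x => W x / cnt Γ n x) x ∂mu := by
    intro g
    rw [← (hF.mp (hΓ g.2)).lintegral_comp (hm2 g⁻¹)]
    apply lintegral_congr
    intro x
    have h1 := piece_inv hF hΓ n g.2 x
    by_cases h : x ∈ piece Γ n g
    · rw [indicator_of_mem h, indicator_of_mem (show ((g : Equiv.Perm ℝ) x) ∈ piece Γ n ((g⁻¹ : Γ) : Equiv.Perm ℝ) from h1.2 h),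
        cnt_smul hF hΓ n g.2 h]
    · rw [indicator_of_notMem h, indicator_of_notMem]
      exact fun h' => h (h1.1 h')
  rw [tsum_congr e1]
  refine ((Equiv.inv Γ).tsum_eq (fun g : Γ => ∫⁻ x, (piece Γ n (g : Equiv.Perm ℝ)).indicator
    (fun x => W x / cnt Γ n x) x ∂mu)).trans ?_
  rw [← lintegral_tsum fun g => (hm2 g).aemeasurable]
  rw [← lintegral_indicator (measurableSet_freePts hF hΓ)]
  apply lintegral_congr
  intro x
  by_cases hx : x ∈ freePts Γ
  · rw [indicator_of_mem hx]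
    have h1 : ∀ g : Γ, (piece Γ n g).indicator (fun x => W x / cnt Γ n x) x =
        (piece Γ n g).indicator 1 x * (W x / cnt Γ n x) := by
      intro g
      by_cases h : x ∈ piece Γ n g
      · rw [indicator_of_mem h, indicator_of_mem h]; simp
      · rw [indicator_of_notMem h, indicator_of_notMem h]; simp
    rw [tsum_congr h1, ENNReal.tsum_mul_right]
    show cnt Γ n x * (W x / cnt Γ n x) = W x
    exact ENNReal.mul_div_cancel (cnt_ne_zero hF hΓ n hx) (cnt_ne_top hF hΓ n hx)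
  · rw [indicator_of_notMem hx]
    simp only [ENNReal.tsum_eq_zero]
    intro g
    rw [indicator_of_notMem]
    exact fun h => hx h.1

lemma freePts_pos (hF : InFull H) {Γ : Subgroup (Equiv.Perm ℝ)} (hΓ : Γ ≤ H)
    [Countable Γ] {B : Set ℝ} (hB1 : mu B < 1)
    (hB2 : ∀ w ∈ H, w ≠ 1 → mu (Fx w \ B) = 0) : mu (freePts Γ) ≠ 0 := by
  intro h0
  have h1 : mu (⋃ g : Γ, {x | x ∈ Fx (g : Equiv.Perm ℝ) \ B ∧ (g : Equiv.Perm ℝ) ≠ 1}) = 0 := by
    rw [measure_iUnion_null_iff]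
    intro g
    by_cases hg : (g : Equiv.Perm ℝ) = 1
    · simp [hg]
    · refine measure_mono_null ?_ (hB2 g (hΓ g.2) hg)
      intro x hx; exact hx.1
  have h2 : mu (Ico (0:ℝ) 1)ᶜ = 0 := by
    unfold mu
    rw [Measure.restrict_apply measurableSet_Ico.compl]; simp
  have h3 : (univ : Set ℝ) ⊆ B ∪ freePts Γ ∪ (Ico (0:ℝ) 1)ᶜ ∪
      ⋃ g : Γ, {x | x ∈ Fx (g : Equiv.Perm ℝ) \ B ∧ (g : Equiv.Perm ℝ) ≠ 1} := by
    intro x _
    by_cases hxB : x ∈ B
    · exact Or.inl (Or.inl (Or.inl hxB))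
    by_cases hxI : x ∈ Ico (0:ℝ) 1
    · by_cases hxf : x ∈ freePts Γ
      · exact Or.inl (Or.inl (Or.inr hxf))
      · right
        simp only [freePts, mem_setOf_eq, not_and, not_forall] at hxf
        obtain ⟨g, hg, h4, h5⟩ := hxf hxI
        exact mem_iUnion.2 ⟨⟨g, hg⟩, ⟨h4, hxB⟩, h5⟩
    · exact Or.inl (Or.inr hxI)
  have h4 : (1 : ℝ≥0∞) ≤ mu B := by
    calc (1 : ℝ≥0∞) = mu univ := by simp
      _ ≤ _ := measure_mono h3
      _ ≤ mu (B ∪ freePts Γ ∪ (Ico (0:ℝ) 1)ᶜ) + 0 := by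
          rw [← h1]; exact measure_union_le _ _
      _ ≤ (mu (B ∪ freePts Γ) + 0) + 0 := by
          gcongr
          rw [← h2]; exact measure_union_le _ _
      _ ≤ ((mu B + 0) + 0) + 0 := by
          gcongr
          rw [← h0]; exact measure_union_le _ _
      _ = mu B := by simp
  exact absurd hB1 (not_lt.2 h4)

theorem folner_of_free (hF : InFull H) {B : Set ℝ} (hB1 : mu B < 1)
    (hB2 : ∀ w ∈ H, w ≠ 1 → mu (Fx w \ B) = 0) : FolnerCondition H := by
  classical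
  intro S hS δ hδ
  set Γ : Subgroup (Equiv.Perm ℝ) := Subgroup.closure (S : Set (Equiv.Perm ℝ)) with hΓdef
  have hΓ : Γ ≤ H := (Subgroup.closure_le _).2 hS
  haveI : Countable Γ := countable_closure _ S.countable_toSet
  have hSΓ : ∀ s ∈ S, s ∈ Γ := fun s hs => Subgroup.subset_closure hs
  have hpos := freePts_pos hF hΓ hB1 hB2
  -- choose n
  have ht : Tendsto (fun n => ∑ s ∈ S, mu (bad s n)) atTop (𝓝 0) := by
    have : (0 : ℝ≥0∞) = ∑ s ∈ S, (0 : ℝ≥0∞) := by simp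
    rw [this]
    exact tendsto_finsetSum _ fun s hs => tendsto_bad hF (hS hs)
  have hδ' : ENNReal.ofReal (δ / 2) * mu (freePts Γ) ≠ 0 := by
    have : ENNReal.ofReal (δ / 2) ≠ 0 := by simpa using hδ
    exact mul_ne_zero this hpos
  obtain ⟨n, hn⟩ := (ht.eventually (gt_mem_nhds (pos_iff_ne_zero.2 hδ'))).exists
  set W : ℝ → ℝ≥0∞ := fun x => ∑ s ∈ S, (bad s n).indicator 1 x with hWdef
  have hW : Measurable W := by
    rw [hWdef]
    exact Finset.measurable_sum _ fun s hs =>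
      measurable_one.indicator (measurableSet_bad hF (hS hs) n)
  have hWint : ∫⁻ x, W x ∂mu = ∑ s ∈ S, mu (bad s n) := by
    rw [hWdef, lintegral_finset_sum _ fun s hs =>
      measurable_one.indicator (measurableSet_bad hF (hS hs) n)]
    apply Finset.sum_congr rfl
    intro s hs
    exact lintegral_indicator_one (measurableSet_bad hF (hS hs) n)
  set f : ℝ → ℝ≥0∞ := fun x => ∑' g : Γ, (piece Γ n g).indicator
    (fun x => W ((g : Equiv.Perm ℝ) x) / cnt Γ n x) x with hfdef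
  have hfint : ∫⁻ x, f x ∂mu < ENNReal.ofReal (δ / 2) * mu (freePts Γ) := by
    calc ∫⁻ x, f x ∂mu = ∫⁻ x in freePts Γ, W x ∂mu := transport hF hΓ n hW
      _ ≤ ∫⁻ x, W x ∂mu := setLIntegral_le_lintegral _ _
      _ = ∑ s ∈ S, mu (bad s n) := hWint
      _ < _ := hn
  obtain ⟨x, hx, hfx⟩ : ∃ x ∈ freePts Γ, f x < ENNReal.ofReal (δ / 2) := by
    by_contra hcon
    push Not at hcon
    have h1 : ENNReal.ofReal (δ / 2) * mu (freePts Γ) ≤ ∫⁻ x, f x ∂mu := by
      calc ENNReal.ofReal (δ / 2) * mu (freePts Γ)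
          = ∫⁻ _ in freePts Γ, ENNReal.ofReal (δ / 2) ∂mu := by
            rw [setLIntegral_const]
        _ ≤ ∫⁻ x in freePts Γ, f x ∂mu :=
            setLIntegral_mono' (measurableSet_freePts hF hΓ) hcon
        _ ≤ _ := setLIntegral_le_lintegral _ _
    exact absurd hfint (not_lt.2 h1)
  -- the finite set
  set F : Finset (Equiv.Perm ℝ) := (finite_orbit hF hΓ n hx).toFinset with hFdef
  have hFmem : ∀ g, g ∈ F ↔ g ∈ Γ ∧ rel n (g x - x) := by
    intro g; rw [hFdef, Set.Finite.mem_toFinset]; rfl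
  have hcard : cnt Γ n x = F.card := cnt_eq_card hF hΓ n hx
  have hne : F.card ≠ 0 := by
    have := cnt_ne_zero hF hΓ n hx
    rw [hcard] at this
    exact_mod_cast this
  have hfx2 : f x = (∑ g ∈ F, W (g x)) / F.card := by
    have h1 : f x = ∑' g : Γ, (piece Γ n g).indicator
        (fun _ => W ((g : Equiv.Perm ℝ) x) / cnt Γ n x) x := by
      rw [hfdef]
      apply tsum_congr
      intro g
      by_cases h : x ∈ piece Γ n g
      · rw [indicator_of_mem h, indicator_of_mem h]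
      · rw [indicator_of_notMem h, indicator_of_notMem h]
    rw [h1, tsum_piece hF hΓ n hx (fun g => W (g x) / cnt Γ n x), hcard, div_eq_mul_inv,
      Finset.sum_mul]
    apply Finset.sum_congr rfl
    intro g _
    rw [div_eq_mul_inv]
  have hsum : ∀ s ∈ S, ((F.filter (fun g => g x ∈ bad s n)).card : ℝ) < δ / 2 * F.card := by
    intro s hs
    have h1 : ((F.filter (fun g => g x ∈ bad s n)).card : ℝ≥0∞) ≤ ∑ g ∈ F, W (g x) := by
      calc ((F.filter (fun g => g x ∈ bad s n)).card : ℝ≥0∞)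
          = ∑ g ∈ F, (bad s n).indicator 1 (g x) := by
            rw [Finset.card_filter]
            push_cast
            apply Finset.sum_congr rfl
            intro g _
            by_cases h : g x ∈ bad s n
            · rw [if_pos h, indicator_of_mem h]; rfl
            · rw [if_neg h, indicator_of_notMem h]
        _ ≤ ∑ g ∈ F, W (g x) := by
            apply Finset.sum_le_sum
            intro g _
            exact Finset.single_le_sum (f := fun s => (bad s n).indicator 1 (g x))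
              (fun _ _ => bot_le) hs
    have h2 : ∑ g ∈ F, W (g x) < ENNReal.ofReal (δ / 2) * F.card := by
      rw [hfx2] at hfx
      have hc : (F.card : ℝ≥0∞) ≠ 0 := by exact_mod_cast hne
      rw [ENNReal.div_lt_iff (Or.inl hc) (Or.inl (ENNReal.natCast_ne_top _))] at hfx
      exact hfx
    have h3 := lt_of_le_of_lt h1 h2
    have h4 : ENNReal.ofReal ((F.filter (fun g => g x ∈ bad s n)).card : ℝ) <
        ENNReal.ofReal (δ / 2 * F.card) := by
      rw [ENNReal.ofReal_natCast, ENNReal.ofReal_mul (by positivity), ENNReal.ofReal_natCast]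
      exact h3
    exact (ENNReal.ofReal_lt_ofReal_iff_of_nonneg (by positivity)).1 h4
  refine ⟨F, Finset.card_ne_zero.1 hne, ?_, ?_⟩
  · intro g hg
    exact hΓ ((hFmem g).1 hg).1
  · intro s hs
    have hsΓ := hSΓ s hs
    -- image
    have himg : (fun g => s * g) '' (↑F : Set (Equiv.Perm ℝ)) = ↑(F.image (fun g => s * g)) := by
      simp
    rw [himg, ← Finset.coe_symmDiff, Set.ncard_coe_finset]
    have hinj : Function.Injective (fun g : Equiv.Perm ℝ => s * g) := mul_right_injective s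
    have hc1 : (F.image (fun g => s * g)).card = F.card := Finset.card_image_of_injective _ hinj
    have hc2 : (F.image (fun g => s * g) \ F).card ≤ (F.filter (fun g => g x ∈ bad s n)).card := by
      have hsub : F.image (fun g => s * g) \ F ⊆
          (F.filter (fun g => g x ∈ bad s n)).image (fun g => s * g) := by
        intro k hk
        rw [Finset.mem_sdiff, Finset.mem_image] at hk
        obtain ⟨⟨g, hg, rfl⟩, hk2⟩ := hk
        rw [Finset.mem_image]
        refine ⟨g, ?_, rfl⟩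
        rw [Finset.mem_filter]
        refine ⟨hg, hF.maps (hΓ ((hFmem g).1 hg).1) hx.1, fun hr => hk2 ?_⟩
        rw [hFmem]
        refine ⟨Γ.mul_mem hsΓ ((hFmem g).1 hg).1, ?_⟩
        have := hr.add ((hFmem g).1 hg).2
        have e : (s * g) x - x = s (g x) - g x + (g x - x) := by
          show s (g x) - x = _
          ring
        rw [e]; exact this
      exact (Finset.card_le_card hsub).trans Finset.card_image_le
    have hc3 : (F \ F.image (fun g => s * g)).card = (F.image (fun g => s * g) \ F).card := by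
      rw [Finset.card_sdiff_comm]
      exact hc1.symm
    have hc4 : (symmDiff (F.image (fun g => s * g)) F).card ≤
        2 * (F.filter (fun g => g x ∈ bad s n)).card := by
      calc (symmDiff (F.image (fun g => s * g)) F).card
          ≤ (F.image (fun g => s * g) \ F).card + (F \ F.image (fun g => s * g)).card :=
            Finset.card_union_le _ _
        _ ≤ _ := by rw [hc3]; omega
    have hc5 : ((symmDiff (F.image (fun g => s * g)) F).card : ℝ) ≤
        2 * ((F.filter (fun g => g x ∈ bad s n)).card : ℝ) := by exact_mod_cast hc4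
    have := hsum s hs
    calc ((symmDiff (F.image (fun g => s * g)) F).card : ℝ)
        ≤ 2 * ((F.filter (fun g => g x ∈ bad s n)).card : ℝ) := hc5
      _ < 2 * (δ / 2 * F.card) := by linarith
      _ = δ * F.card := by ring

end

end Pool.Agent.MP9d5bb5
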