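import Pool.Agent.Lib.MP9d5bb5.Max
import Pool.Agent.Lib.MP9d5bb5.Folner

/-!
# Weakly non-discrete and precompact groups
-/

namespace Pool.Agent.MP9d5bb5

open MeasureTheory Set Filter Topology ENNReal

noncomputable section

variable {H : Subgroup (Equiv.Perm ℝ)}

theorem folner_of_weakly (hF : InFull H) (hd : UniformlyDiscrete H) (hu : IsUniformlyPrime H)
    (hw : WeaklyNondiscrete H) : FolnerCondition H := by
  obtain ⟨B, _, h2, h3⟩ := exists_free_part hF (small_of_weakly hF hw) hu hd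
  exact folner_of_free hF h2 h3

lemma folner_of_finite (hfin : (H : Set (Equiv.Perm ℝ)).Finite) : FolnerCondition H := by
  classical
  intro S hS δ hδ
  refine ⟨hfin.toFinset, ?_, ?_, ?_⟩
  · exact ⟨1, by rw [Set.Finite.mem_toFinset]; exact H.one_mem⟩
  · intro g hg
    simpa using hg
  · intro s hs
    have h1 : (fun g => s * g) '' (↑hfin.toFinset : Set (Equiv.Perm ℝ)) = ↑hfin.toFinset := by
      rw [Set.Finite.coe_toFinset]
      ext g
      simp only [mem_image, SetLike.mem_coe]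
      constructor
      · rintro ⟨k, hk, rfl⟩
        exact H.mul_mem (hS hs) hk
      · intro hg
        exact ⟨s⁻¹ * g, H.mul_mem (H.inv_mem (hS hs)) hg, by group⟩
    rw [h1]
    have h2 : 0 < hfin.toFinset.card := by
      rw [Finset.card_pos]
      exact ⟨1, by rw [Set.Finite.mem_toFinset]; exact H.one_mem⟩
    simp only [symmDiff_self, Set.bot_eq_empty, Set.ncard_empty, Nat.cast_zero]
    positivity

lemma weaklyNondiscrete_of_precompact (hF : InFull H) (hpc : WeaklyPrecompact H)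
    {Γ : Subgroup (Equiv.Perm ℝ)} (hΓ : Γ ≤ H) (hinf : (Γ : Set (Equiv.Perm ℝ)).Infinite) :
    WeaklyNondiscrete Γ := by
  obtain ⟨e⟩ : Nonempty (ℕ ↪ (Γ : Set (Equiv.Perm ℝ))) := ⟨hinf.natEmbedding _⟩
  set h : ℕ → Equiv.Perm ℝ := fun n => (e n : Equiv.Perm ℝ) with hh
  have hinj : Function.Injective h := fun m n hmn => e.injective (Subtype.ext hmn)
  have hmem : ∀ n, h n ∈ Γ := fun n => (e n).2
  obtain ⟨φ, hφ, hc⟩ := hpc h fun n => hΓ (hmem n)
  refine ⟨fun n => h (φ (n + 1)) * (h (φ n))⁻¹, fun n => ⟨Γ.mul_mem (hmem _) (Γ.inv_mem (hmem _)), ?_⟩, ?_⟩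
  · intro h1'
    have h1 : h (φ (n + 1)) * (h (φ n))⁻¹ = 1 := h1'
    have h2 : h (φ (n + 1)) = h (φ n) := by
      calc h (φ (n + 1)) = (h (φ (n + 1)) * (h (φ n))⁻¹) * h (φ n) := by group
        _ = h (φ n) := by rw [h1, one_mul]
    have h3 := hφ.injective (hinj h2)
    omega
  · intro B hB hBI
    rw [ENNReal.tendsto_atTop_zero]
    intro ε hε
    obtain ⟨N, hN⟩ := hc B hB hBI ε hε
    refine ⟨N, fun n hn => ?_⟩
    set g : Equiv.Perm ℝ := h (φ (n + 1)) with hg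
    set k : Equiv.Perm ℝ := h (φ n) with hk
    have hgH : g ∈ H := hΓ (hmem _)
    have hkH : k ∈ H := hΓ (hmem _)
    have hgk : g * k⁻¹ ∈ H := H.mul_mem hgH (H.inv_mem hkH)
    have h1 := hN (n + 1) (by omega) n hn
    -- everything happens inside `[0,1)`
    have hin : ∀ p ∈ H, ∀ x, (p : Equiv.Perm ℝ) x ∈ B → x ∈ Ico (0:ℝ) 1 := by
      intro p hp x hx
      by_contra hxI
      have := (hF p hp).2.2 x hxI
      rw [this] at hx
      exact hxI (hBI hx)
    have hvol : ∀ T : Set ℝ, MeasurableSet T → T ⊆ Ico (0:ℝ) 1 → volume T = mu T := by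
      intro T hT hTI
      unfold mu
      rw [Measure.restrict_apply hT, inter_eq_left.2 hTI]
    have hm1 : MeasurableSet (symmDiff ((g * k⁻¹ : Equiv.Perm ℝ) ⁻¹' B) B) :=
      (hB.preimage (hF.mp hgk).measurable).symmDiff hB
    have hm2 : MeasurableSet (symmDiff ((g : ℝ → ℝ) ⁻¹' B) ((k : ℝ → ℝ) ⁻¹' B)) :=
      (hB.preimage (hF.mp hgH).measurable).symmDiff (hB.preimage (hF.mp hkH).measurable)
    have hs1 : symmDiff ((g * k⁻¹ : Equiv.Perm ℝ) ⁻¹' B) B ⊆ Ico (0:ℝ) 1 := by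
      rintro x (⟨h2, _⟩ | ⟨h2, _⟩)
      · exact hin _ hgk x h2
      · exact hBI h2
    have hs2 : symmDiff ((g : ℝ → ℝ) ⁻¹' B) ((k : ℝ → ℝ) ⁻¹' B) ⊆ Ico (0:ℝ) 1 := by
      rintro x (⟨h2, _⟩ | ⟨h2, _⟩)
      · exact hin _ hgH x h2
      · exact hin _ hkH x h2
    have h3 : volume (symmDiff ((g * k⁻¹ : Equiv.Perm ℝ) ⁻¹' B) B) =
        volume (symmDiff ((g : ℝ → ℝ) ⁻¹' B) ((k : ℝ → ℝ) ⁻¹' B)) := by
      rw [hvol _ hm1 hs1, hvol _ hm2 hs2, ← (hF.mp hkH).measure_preimage hm1.nullMeasurableSet]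
      congr 1
      ext x
      have e1 : (g * k⁻¹ : Equiv.Perm ℝ) (k x) = g x := by
        show g (k⁻¹ (k x)) = g x
        simp
      simp only [mem_preimage, mem_symmDiff, e1]
    show volume (symmDiff ((g * k⁻¹ : Equiv.Perm ℝ) ⁻¹' B) B) ≤ ε
    rw [h3]
    exact h1.le

theorem folner_of_precompact (hF : InFull H) (hd : UniformlyDiscrete H) (hpc : WeaklyPrecompact H)
    {Γ : Subgroup (Equiv.Perm ℝ)} (hΓ : Γ ≤ H) (hu : IsUniformlyPrime Γ) : FolnerCondition Γ := by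
  rcases Set.finite_or_infinite (Γ : Set (Equiv.Perm ℝ)) with hfin | hinf
  · exact folner_of_finite hfin
  · have hFΓ : InFull Γ := fun h hh => hF h (hΓ hh)
    have hdΓ : UniformlyDiscrete Γ := by
      obtain ⟨ε, h1, h2⟩ := hd
      exact ⟨ε, h1, fun h hh h3 => h2 h (hΓ hh) h3⟩
    exact folner_of_weakly hFΓ hdΓ hu (weaklyNondiscrete_of_precompact hF hpc hΓ hinf)

end

end Pool.Agent.MP9d5bb5
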