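import Pool.Agent.Lib.MP9d5bb5.Defs

/-!
# The maximal asymptotically fixed set
-/

namespace Pool.Agent.MP9d5bb5

open MeasureTheory Set Filter Topology ENNReal

noncomputable section

variable {H : Subgroup (Equiv.Perm ℝ)}

/-- fixed points -/
def Fx (g : Equiv.Perm ℝ) : Set ℝ := {x | g x = x}

section basic
variable (hF : InFull H)
include hF

lemma InFull.mp {h : Equiv.Perm ℝ} (hh : h ∈ H) : MeasurePreserving (h : ℝ → ℝ) mu mu := (hF h hh).1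

lemma InFull.maps {h : Equiv.Perm ℝ} (hh : h ∈ H) {x : ℝ} (hx : x ∈ Ico (0:ℝ) 1) :
    h x ∈ Ico (0:ℝ) 1 := by
  by_contra hcon
  have h1 := (hF h hh).2.2 (h x) hcon
  have h2 : h x = x := h.injective h1
  rw [h2] at hcon
  exact hcon hx

lemma measurableSet_Fx {h : Equiv.Perm ℝ} (hh : h ∈ H) : MeasurableSet (Fx h) :=
  measurableSet_eq_fun (hF.mp hh).measurable measurable_id

lemma measurable_edist {h : Equiv.Perm ℝ} (hh : h ∈ H) : Measurable (fun x => edist (h x) x) :=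
  (hF.mp hh).measurable.edist measurable_id

lemma D_mul_le {g h : Equiv.Perm ℝ} (hg : g ∈ H) (hh : h ∈ H) : D (g * h : Equiv.Perm ℝ) ≤ D g + D h := by
  unfold D
  have e1 : ∫⁻ x, edist (g (h x)) (h x) ∂mu = ∫⁻ x, edist (g x) x ∂mu :=
    (hF.mp hh).lintegral_comp (measurable_edist hF hg)
  have hm : Measurable (fun x => edist (g (h x)) (h x)) :=
    (measurable_edist hF hg).comp (hF.mp hh).measurable
  calc ∫⁻ x, edist ((g * h : Equiv.Perm ℝ) x) x ∂mu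
      ≤ ∫⁻ x, (edist (g (h x)) (h x) + edist (h x) x) ∂mu := by
        apply lintegral_mono
        intro x
        exact edist_triangle _ _ _
    _ = _ := by rw [lintegral_add_left hm, e1]

lemma D_inv {g : Equiv.Perm ℝ} (hg : g ∈ H) : D (g⁻¹ : Equiv.Perm ℝ) = D g := by
  unfold D
  have h1 := (hF.mp hg).lintegral_comp (measurable_edist hF (H.inv_mem hg))
  rw [← h1]
  apply lintegral_congr
  intro x
  simp [edist_comm]

lemma integrable_of_mem {y : Equiv.Perm ℝ} (hy : y ∈ H) : Integrable (y : ℝ → ℝ) mu := by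
  refine Integrable.of_bound (C := 1) (hF.mp hy).measurable.aestronglyMeasurable ?_
  have : ∀ᵐ x ∂mu, x ∈ Ico (0:ℝ) 1 := ae_restrict_mem measurableSet_Ico
  filter_upwards [this] with x hx
  have h1 := hF.maps hy hx
  rw [Real.norm_eq_abs, abs_le]
  constructor <;> linarith [h1.1, h1.2]

lemma conj_small {y : Equiv.Perm ℝ} (hy : y ∈ H) {η : ℝ≥0∞} (hη : η ≠ 0) :
    ∃ κ : ℝ≥0∞, κ ≠ 0 ∧ ∀ h ∈ H, D h < κ → D (y * h * y⁻¹ : Equiv.Perm ℝ) < η := by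
  obtain ⟨κ, h1, h2⟩ := comp_small (integrable_of_mem hF hy) (hF.mp hy).measurable hη
  refine ⟨κ, h1, fun h hh hD => ?_⟩
  refine lt_of_le_of_lt (le_of_eq ?_) (h2 h (hF.mp hh) hD)
  unfold D
  have hyh : y * h * y⁻¹ ∈ H := H.mul_mem (H.mul_mem hy hh) (H.inv_mem hy)
  rw [← (hF.mp hy).lintegral_comp (measurable_edist hF hyh)]
  apply lintegral_congr
  intro x
  simp

/-- the preimage form of `set_small` for elements of `H` -/
lemma set_small' {B : Set ℝ} (hB : MeasurableSet B) {η : ℝ≥0∞} (hη : η ≠ 0) :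
    ∃ κ : ℝ≥0∞, κ ≠ 0 ∧ ∀ h ∈ H, D h < κ → mu (B \ ((h : Equiv.Perm ℝ) : ℝ → ℝ) ⁻¹' B) < η := by
  obtain ⟨κ, h1, h2⟩ := set_small hB hη
  refine ⟨κ, h1, fun h hh hD => lt_of_le_of_lt (measure_mono ?_) (h2 h (hF.mp hh) hD)⟩
  intro x hx
  exact Or.inr hx

/-- if `c` almost fixes `B` then `B` is almost contained in the translate `g⁻¹ (Fx c)` -/
lemma diff_preimage {B C : Set ℝ} (hB : MeasurableSet B) (hC : MeasurableSet C)
    {g : Equiv.Perm ℝ} (hg : g ∈ H) :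
    mu (B \ (g : ℝ → ℝ) ⁻¹' C) ≤ mu (B \ (g : ℝ → ℝ) ⁻¹' B) + mu (B \ C) := by
  have h1 : mu ((g : ℝ → ℝ) ⁻¹' (B \ C)) = mu (B \ C) :=
    (hF.mp hg).measure_preimage (hB.diff hC).nullMeasurableSet
  rw [← h1]
  refine le_trans (measure_mono ?_) (measure_union_le _ _)
  intro x hx
  by_cases h2 : x ∈ (g : ℝ → ℝ) ⁻¹' B
  · exact Or.inr ⟨h2, hx.2⟩
  · exact Or.inl ⟨hx.1, h2⟩

end basic

lemma fx_comm {a b : Equiv.Perm ℝ} {x : ℝ} (h1 : x ∈ Fx a) (h2 : b⁻¹ x ∈ Fx a) :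
    x ∈ Fx (a * b * a⁻¹ * b⁻¹) := by
  have h3 : a⁻¹ (b⁻¹ x) = b⁻¹ x := by
    rw [Equiv.Perm.inv_eq_iff_eq]; exact h2.symm
  show a (b (a⁻¹ (b⁻¹ x))) = x
  rw [h3]
  have : b (b⁻¹ x) = x := by simp
  rw [this]
  exact h1

lemma fx_comm' {a b : Equiv.Perm ℝ} {x : ℝ} (h1 : x ∈ Fx b) (h2 : a⁻¹ x ∈ Fx b) :
    x ∈ Fx (a * b * a⁻¹ * b⁻¹) := by
  have h3 : b⁻¹ x = x := by
    rw [Equiv.Perm.inv_eq_iff_eq]; exact h1.symm
  show a (b (a⁻¹ (b⁻¹ x))) = x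
  rw [h3]
  have : b (a⁻¹ x) = a⁻¹ x := h2
  rw [this]
  simp

lemma comm_ne_one {G : Type*} [Group G] {a b : G} (h : ¬ Commute a b) : a * b * a⁻¹ * b⁻¹ ≠ 1 := by
  intro h1
  apply h
  have : a * b = b * a := by
    calc a * b = (a * b * a⁻¹ * b⁻¹) * (b * a) := by group
      _ = b * a := by rw [h1, one_mul]
  exact this

/-- the set `B` is asymptotically fixed by small nontrivial elements -/
def Good (H : Subgroup (Equiv.Perm ℝ)) (B : Set ℝ) : Prop :=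
  MeasurableSet B ∧ ∀ η : ℝ≥0∞, η ≠ 0 → ∃ c ∈ H, c ≠ 1 ∧ D c < η ∧ mu (B \ Fx c) < η

/-- arbitrarily small displacement -/
def Small (H : Subgroup (Equiv.Perm ℝ)) : Prop :=
  ∀ η : ℝ≥0∞, η ≠ 0 → ∃ c ∈ H, c ≠ 1 ∧ D c < η

lemma small_of_weakly (hF : InFull H) (hw : WeaklyNondiscrete H) : Small H := by
  obtain ⟨h, h1, h2⟩ := hw
  intro η hη
  wlog hfin : η ≠ ∞ generalizing η
  · obtain ⟨c, hc, h3, h4⟩ := this 1 one_ne_zero one_ne_top
    simp only [ne_eq, not_not] at hfin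
    refine ⟨c, hc, h3, h4.trans ?_⟩
    rw [hfin]; exact one_lt_top
  obtain ⟨m, hm0, hm⟩ : ∃ m : ℕ, m ≠ 0 ∧ ENNReal.ofReal (1 / m) < η / 2 := by
    have h3 : 0 < (η / 2).toReal := ENNReal.toReal_pos (by simpa using hη)
      (ENNReal.div_ne_top hfin (by norm_num))
    obtain ⟨n, hn⟩ := exists_nat_one_div_lt h3
    refine ⟨n + 1, by omega, ?_⟩
    rw [ENNReal.ofReal_lt_iff_lt_toReal (by positivity) (ENNReal.div_ne_top hfin (by norm_num))]
    push_cast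
    exact hn
  have hI : ∀ j ∈ Finset.range m, Ico ((j:ℝ) / m) ((j + 1 : ℝ) / m) ⊆ Ico (0:ℝ) 1 := by
    intro j hj x hx
    have hj' : j + 1 ≤ m := Finset.mem_range.1 hj
    have hmr : (0:ℝ) < m := by positivity
    refine ⟨le_trans (by positivity) hx.1, lt_of_lt_of_le hx.2 ?_⟩
    rw [div_le_one hmr]
    exact_mod_cast hj'
  have ht : Tendsto (fun n => ∑ j ∈ Finset.range m, mu (symmDiff ((h n : ℝ → ℝ) ⁻¹'
      (Ico ((j:ℝ) / m) ((j + 1 : ℝ) / m))) (Ico ((j:ℝ) / m) ((j + 1 : ℝ) / m)))) atTop (𝓝 0) := by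
    have : (0 : ℝ≥0∞) = ∑ j ∈ Finset.range m, (0 : ℝ≥0∞) := by simp
    rw [this]
    apply tendsto_finsetSum
    intro j hj
    refine tendsto_of_tendsto_of_tendsto_of_le_of_le tendsto_const_nhds
      (h2 _ measurableSet_Ico (hI j hj)) (fun n => bot_le) (fun n => ?_)
    exact Measure.restrict_apply_le _ _
  have hev := ht.eventually (gt_mem_nhds (pos_iff_ne_zero.2 (show η / 2 ≠ 0 by simpa using hη)))
  obtain ⟨n, hn⟩ := hev.exists
  refine ⟨h n, (h1 n).1, (h1 n).2, ?_⟩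
  refine lt_of_le_of_lt (D_le_of_sets m hm0 (hF.mp (h1 n).1) (fun x hx => hF.maps (h1 n).1 hx)) ?_
  calc _ < η / 2 + η / 2 := ENNReal.add_lt_add hm hn
    _ = η := ENNReal.add_halves η

lemma Good.iUnion {B : ℕ → Set ℝ} (hmono : Monotone B) (hB : ∀ i, Good H (B i)) :
    Good H (⋃ i, B i) := by
  have hm : MeasurableSet (⋃ i, B i) := MeasurableSet.iUnion fun i => (hB i).1
  refine ⟨hm, fun η hη => ?_⟩
  have h1 : Tendsto (fun i => mu ((⋃ i, B i) \ B i)) atTop (𝓝 (mu (⋂ i, ((⋃ i, B i) \ B i)))) := by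
    apply tendsto_measure_iInter_atTop
    · intro i; exact (hm.diff (hB i).1).nullMeasurableSet
    · intro i j hij
      exact sdiff_subset_sdiff_right (hmono hij)
    · exact ⟨0, measure_ne_top _ _⟩
  have h2 : (⋂ i, ((⋃ i, B i) \ B i)) = ∅ := by
    ext x
    simp only [mem_iInter, Set.mem_sdiff, mem_iUnion, mem_empty_iff_false, iff_false, not_forall]
    by_cases hx : ∃ i, x ∈ B i
    · obtain ⟨i, hi⟩ := hx
      exact ⟨i, fun h => h.2 hi⟩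
    · exact ⟨0, fun h => hx h.1⟩
  rw [h2, measure_empty] at h1
  have hhalf : η / 2 ≠ 0 := by simpa using hη
  obtain ⟨i, hi⟩ := (h1.eventually (gt_mem_nhds (pos_iff_ne_zero.2 hhalf))).exists
  obtain ⟨c, hc, hc1, hc2, hc3⟩ := (hB i).2 _ hhalf
  refine ⟨c, hc, hc1, lt_of_lt_of_le hc2 ENNReal.half_le_self, ?_⟩
  calc mu ((⋃ i, B i) \ Fx c) ≤ mu (((⋃ i, B i) \ B i) ∪ (B i \ Fx c)) := by
        apply measure_mono
        intro x hx
        by_cases h3 : x ∈ B i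
        · exact Or.inr ⟨h3, hx.2⟩
        · exact Or.inl ⟨hx.1, h3⟩
    _ ≤ mu ((⋃ i, B i) \ B i) + mu (B i \ Fx c) := measure_union_le _ _
    _ < η / 2 + η / 2 := ENNReal.add_lt_add hi hc3
    _ = η := ENNReal.add_halves η

/-- uniform version of `conj_small` over a finite set and products -/
lemma prod_small (hF : InFull H) (Y : Finset (Equiv.Perm ℝ)) (hY : (Y : Set (Equiv.Perm ℝ)) ⊆ H)
    (k : ℕ) {η : ℝ≥0∞} (hη : η ≠ 0) :
    ∃ κ : ℝ≥0∞, κ ≠ 0 ∧ ∀ h ∈ H, D h < κ → ∀ L : List (Equiv.Perm ℝ), L.length ≤ k →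
      (∀ x ∈ L, ∃ y ∈ Y, x = y * h * y⁻¹ ∨ x = y * h⁻¹ * y⁻¹) →
      L.prod ∈ H ∧ D (L.prod : Equiv.Perm ℝ) < η := by
  classical
  have hk : η / ((k + 1 : ℕ) : ℝ≥0∞) ≠ 0 := half_pos' hη _ (by omega)
  have hex : ∀ y ∈ Y, ∃ κ : ℝ≥0∞, κ ≠ 0 ∧ ∀ h ∈ H, D h < κ →
      D (y * h * y⁻¹ : Equiv.Perm ℝ) < η / ((k + 1 : ℕ) : ℝ≥0∞) :=
    fun y hy => conj_small hF (hY hy) hk
  choose! κ hκ0 hκ1 using hex
  obtain ⟨κ', hκ'0, hκ'1⟩ : ∃ κ' : ℝ≥0∞, κ' ≠ 0 ∧ ∀ y ∈ Y, κ' ≤ κ y := by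
    rcases Y.eq_empty_or_nonempty with rfl | hne
    · exact ⟨1, one_ne_zero, by simp⟩
    · refine ⟨Y.inf' hne κ, ?_, fun y hy => Finset.inf'_le _ hy⟩
      obtain ⟨y, hy, hy2⟩ := Finset.exists_mem_eq_inf' hne κ
      rw [hy2]; exact hκ0 y hy
  refine ⟨κ', hκ'0, fun h hh hD L hL hL2 => ?_⟩
  have hmem : ∀ x ∈ L, x ∈ H ∧ D (x : Equiv.Perm ℝ) ≤ η / ((k + 1 : ℕ) : ℝ≥0∞) := by
    intro x hx
    obtain ⟨y, hy, rfl | rfl⟩ := hL2 x hx
    · exact ⟨H.mul_mem (H.mul_mem (hY hy) hh) (H.inv_mem (hY hy)),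
        (hκ1 y hy h hh (lt_of_lt_of_le hD (hκ'1 y hy))).le⟩
    · refine ⟨H.mul_mem (H.mul_mem (hY hy) (H.inv_mem hh)) (H.inv_mem (hY hy)),
        (hκ1 y hy h⁻¹ (H.inv_mem hh) (lt_of_lt_of_le ?_ (hκ'1 y hy))).le⟩
      rw [D_inv hF hh]; exact hD
  have hind : ∀ L : List (Equiv.Perm ℝ), (∀ x ∈ L, x ∈ H ∧ D (x : Equiv.Perm ℝ) ≤ η / ((k + 1 : ℕ) : ℝ≥0∞)) →
      L.prod ∈ H ∧ D (L.prod : Equiv.Perm ℝ) ≤ L.length * (η / ((k + 1 : ℕ) : ℝ≥0∞)) := by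
    intro L
    induction L with
    | nil =>
      intro _
      refine ⟨by simp [H.one_mem], ?_⟩
      simp [D]
    | cons a L ih =>
      intro h3
      obtain ⟨h4, h5⟩ := ih (fun x hx => h3 x (List.mem_cons_of_mem _ hx))
      obtain ⟨h6, h7⟩ := h3 a (List.mem_cons_self ..)
      rw [List.prod_cons]
      refine ⟨H.mul_mem h6 h4, ?_⟩
      calc D (a * L.prod : Equiv.Perm ℝ) ≤ D a + D (L.prod : Equiv.Perm ℝ) := D_mul_le hF h6 h4
        _ ≤ η / ((k + 1 : ℕ) : ℝ≥0∞) + L.length * (η / ((k + 1 : ℕ) : ℝ≥0∞)) := add_le_add h7 h5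
        _ = _ := by rw [List.length_cons]; push_cast; ring
  obtain ⟨h4, h5⟩ := hind L hmem
  refine ⟨h4, ?_⟩
  rcases eq_or_ne η ∞ with rfl | hfin
  · -- the displacement is at most one
    refine lt_of_le_of_lt (b := (1 : ℝ≥0∞)) ?_ one_lt_top
    unfold D
    calc ∫⁻ x, edist ((L.prod : Equiv.Perm ℝ) x) x ∂mu ≤ ∫⁻ x, 1 ∂mu := by
          apply lintegral_mono_ae
          have : ∀ᵐ x ∂mu, x ∈ Ico (0:ℝ) 1 := ae_restrict_mem measurableSet_Ico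
          filter_upwards [this] with x hx
          have h1 := hF.maps h4 hx
          rw [edist_dist]
          calc ENNReal.ofReal (dist (L.prod x) x) ≤ ENNReal.ofReal 1 := by
                apply ENNReal.ofReal_le_ofReal
                rw [Real.dist_eq, abs_le]
                constructor <;> linarith [h1.1, h1.2, hx.1, hx.2]
            _ = 1 := by simp
      _ = 1 := by simp
  · refine lt_of_le_of_lt h5 ?_
    calc (L.length : ℝ≥0∞) * (η / ((k + 1 : ℕ) : ℝ≥0∞)) ≤ (k : ℝ≥0∞) * (η / ((k + 1 : ℕ) : ℝ≥0∞)) := by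
          gcongr
      _ < ((k + 1 : ℕ) : ℝ≥0∞) * (η / ((k + 1 : ℕ) : ℝ≥0∞)) := by
          apply ENNReal.mul_lt_mul_left hk
          · exact ENNReal.div_ne_top hfin (by simp)
          · push_cast
            exact ENNReal.lt_add_right (by simp) one_ne_zero
      _ = η := by
          rw [mul_comm]
          exact ENNReal.div_mul_cancel (by simp) (by simp)

end

end Pool.Agent.MP9d5bb5
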