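import Pool.Agent.Lib.MP9d5bb5.Basic

/-!
# Definitions: subgroups of the full group of the dyadic relation on `[0,1)`
-/

namespace Pool.Agent.MP9d5bb5

open MeasureTheory Set Filter Topology ENNReal

/-- `H` is a group of Lebesgue measure preserving bijections of `[0,1)` (extended by the identity
to `ℝ`), each moving every point by a dyadic rational -/
def InFull (H : Subgroup (Equiv.Perm ℝ)) : Prop :=
  ∀ h ∈ H,
    MeasurePreserving (h : ℝ → ℝ) (volume.restrict (Set.Ico (0:ℝ) 1))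
      (volume.restrict (Set.Ico (0:ℝ) 1)) ∧
    (∀ x : ℝ, x ∈ Set.Ico (0:ℝ) 1 → ∃ k : ℤ, ∃ n : ℕ,
      (h : ℝ → ℝ) x = x + (k : ℝ) / (2 : ℝ) ^ n) ∧
    (∀ x : ℝ, x ∉ Set.Ico (0:ℝ) 1 → (h : ℝ → ℝ) x = x)

/-- every nontrivial element moves a set of measure at least `ε` -/
def MovesAtLeast (H : Subgroup (Equiv.Perm ℝ)) (ε : ℝ) : Prop :=
  ∀ h ∈ H, h ≠ 1 →
    ENNReal.ofReal ε ≤ volume {x : ℝ | x ∈ Set.Ico (0:ℝ) 1 ∧ (h : ℝ → ℝ) x ≠ x}

/-- discreteness in the uniform metric `d` -/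
def UniformlyDiscrete (H : Subgroup (Equiv.Perm ℝ)) : Prop :=
  ∃ ε : ℝ, 0 < ε ∧ MovesAtLeast H ε

/-- `H` is not discrete in the weak topology: there are nontrivial `h n` in `H` such that the
measure of the symmetric difference of `B` and its preimage under `h n` tends to `0` for every
measurable `B` -/
def WeaklyNondiscrete (H : Subgroup (Equiv.Perm ℝ)) : Prop :=
  ∃ h : ℕ → Equiv.Perm ℝ, (∀ n, h n ∈ H ∧ h n ≠ 1) ∧
    ∀ B : Set ℝ, MeasurableSet B → B ⊆ Set.Ico (0:ℝ) 1 →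
      Tendsto (fun n => volume (symmDiff ((h n : ℝ → ℝ) ⁻¹' B) B)) atTop (𝓝 0)

/-- `H` is precompact in the weak topology: every sequence in `H` has a subsequence that is Cauchy
in the weak topology -/
def WeaklyPrecompact (H : Subgroup (Equiv.Perm ℝ)) : Prop :=
  ∀ h : ℕ → Equiv.Perm ℝ, (∀ n, h n ∈ H) → ∃ φ : ℕ → ℕ, StrictMono φ ∧
    ∀ B : Set ℝ, MeasurableSet B → B ⊆ Set.Ico (0:ℝ) 1 → ∀ ε : ℝ≥0∞, 0 < ε →
      ∃ N : ℕ, ∀ m ≥ N, ∀ n ≥ N,
        volume (symmDiff ((h (φ m) : ℝ → ℝ) ⁻¹' B) ((h (φ n) : ℝ → ℝ) ⁻¹' B)) < ε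

/-- the action of `H` on `[0,1)` is ergodic -/
def IsErgodic (H : Subgroup (Equiv.Perm ℝ)) : Prop :=
  ∀ B : Set ℝ, MeasurableSet B → B ⊆ Set.Ico (0:ℝ) 1 →
    (∀ h ∈ H, volume (symmDiff ((h : ℝ → ℝ) ⁻¹' B) B) = 0) → volume B = 0 ∨ volume B = 1

/-- the Følner condition for `H` as an abstract group -/
def FolnerCondition (H : Subgroup (Equiv.Perm ℝ)) : Prop :=
  ∀ S : Finset (Equiv.Perm ℝ),
    (↑S : Set (Equiv.Perm ℝ)) ⊆ (H : Set (Equiv.Perm ℝ)) →
    ∀ δ : ℝ, 0 < δ →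
      ∃ F : Finset (Equiv.Perm ℝ), F.Nonempty ∧
        (↑F : Set (Equiv.Perm ℝ)) ⊆ (H : Set (Equiv.Perm ℝ)) ∧
        ∀ s ∈ S,
          ((symmDiff ((fun g => s * g) '' (↑F : Set (Equiv.Perm ℝ)))
              (↑F : Set (Equiv.Perm ℝ))).ncard : ℝ)
            < δ * (F.card : ℝ)

/-- a group in which two commuting nontrivial elements `a`, `b` and a conjugate `g b g⁻¹` commuting
with `a` force `g` to commute with `a` (CSA: maximal abelian subgroups are malnormal) -/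
def IsCSA {G : Type*} [Group G] (H : Subgroup G) : Prop :=
  ∀ a ∈ H, ∀ b ∈ H, ∀ g ∈ H, a ≠ 1 → b ≠ 1 → Commute a b → Commute a (g * b * g⁻¹) → Commute a g

/-- a uniform form of the condition that nontrivial normal subgroups have trivial centraliser: there are a finite
set `Y` and a number `k` such that for all nontrivial `a`, `b`, `h` some product `x` of at most `k`
elements `y h y⁻¹`, `y h⁻¹ y⁻¹`, `y ∈ Y`, makes `x b x⁻¹` not commute with `a` -/
def IsUniformlyPrime {G : Type*} [Group G] (H : Subgroup G) : Prop :=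
  ∃ (Y : Finset G) (k : ℕ), (Y : Set G) ⊆ H ∧
    ∀ a ∈ H, ∀ b ∈ H, ∀ h ∈ H, a ≠ 1 → b ≠ 1 → h ≠ 1 →
      ∃ L : List G, L.length ≤ k ∧
        (∀ x ∈ L, ∃ y ∈ Y, x = y * h * y⁻¹ ∨ x = y * h⁻¹ * y⁻¹) ∧
        ¬ Commute a (L.prod * b * L.prod⁻¹)

/-- a nonabelian CSA group is uniformly prime -/
theorem IsCSA.isUniformlyPrime {G : Type*} [Group G] {H : Subgroup G} (hH : IsCSA H)
    (hna : ∃ a ∈ H, ∃ b ∈ H, ¬ Commute a b) : IsUniformlyPrime H := by
  classical
  obtain ⟨y1, hy1, y2, hy2, h12⟩ := hna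
  have hy1' : y1 ≠ 1 := by rintro rfl; exact h12 (Commute.one_left _)
  refine ⟨{1, y1, y2}, 1, ?_, ?_⟩
  · intro y hy
    simp only [Finset.coe_insert, Finset.coe_singleton, mem_insert_iff, mem_singleton_iff] at hy
    rcases hy with rfl | rfl | rfl
    · exact H.one_mem
    · exact hy1
    · exact hy2
  · intro a ha b hb h hh ha1 hb1 hh1
    by_contra hcon
    push Not at hcon
    have hab : Commute a b := by
      have := hcon [] (by simp) (by simp)
      simpa using this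
    have key : ∀ y ∈ ({1, y1, y2} : Finset G), y ∈ H → Commute a (y * h * y⁻¹) := by
      intro y hy hyH
      have h1 := hcon [y * h * y⁻¹] (by simp) (by
        intro x hx
        simp only [List.mem_singleton] at hx
        exact ⟨y, hy, Or.inl hx⟩)
      rw [List.prod_singleton] at h1
      exact hH a ha b hb _ (H.mul_mem (H.mul_mem hyH hh) (H.inv_mem hyH)) ha1 hb1 hab h1
    have e0 : Commute a h := by
      have := key 1 (by simp) H.one_mem
      simpa using this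
    have e1 : Commute a y1 := hH a ha h hh y1 hy1 ha1 hh1 e0 (key y1 (by simp) hy1)
    have e2 : Commute a y2 := hH a ha h hh y2 hy2 ha1 hh1 e0 (key y2 (by simp) hy2)
    apply h12
    refine hH y1 hy1 a ha y2 hy2 hy1' ha1 e1.symm ?_
    have : y2 * a * y2⁻¹ = a := by
      rw [← e2.eq]; group
    rw [this]
    exact e1.symm

end Pool.Agent.MP9d5bb5
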