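import Pool.Agent.Lib.MP9d5bb5.Core

/-!
# The gap: an ergodic discrete CSA subgroup moves at least one third
-/

namespace Pool.Agent.MP9d5bb5

open MeasureTheory Set Filter Topology ENNReal

noncomputable section

variable {H : Subgroup (Equiv.Perm ℝ)}

lemma mu_apply {s : Set ℝ} (hs : MeasurableSet s) : mu s = volume (s ∩ Ico (0:ℝ) 1) :=
  Measure.restrict_apply hs

/-- in an ergodic action translates of a set become almost independent (one inequality) -/
theorem exists_small_inter (hF : InFull H) (herg : IsErgodic H) {A : Set ℝ} (hA : MeasurableSet A)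
    {η : ℝ} (hη : 0 < η) :
    ∃ g ∈ H, mu.real (A ∩ (g : Equiv.Perm ℝ) ⁻¹' A) < mu.real A ^ 2 + η := by
  by_contra hcon
  push Not at hcon
  set E := Lp ℝ 2 mu
  have hpre : ∀ g : H, MeasurableSet ((g : Equiv.Perm ℝ) ⁻¹' A) := fun g =>
    hA.preimage (hF.mp g.2).measurable
  set e : H → E := fun g => indicatorConstLp 2 (hpre g) (measure_ne_top mu _) (1:ℝ) with he
  set e1 : E := indicatorConstLp 2 hA (measure_ne_top mu _) (1:ℝ) with he1
  set one : E := indicatorConstLp 2 (MeasurableSet.univ) (measure_ne_top mu _) (1:ℝ) with hone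
  set K : Set E := closure (convexHull ℝ (range e)) with hK
  have hKne : K.Nonempty := ⟨e 1, subset_closure (subset_convexHull _ _ (mem_range_self 1))⟩
  have hKconv : Convex ℝ K := (convex_convexHull ℝ _).closure
  have hKcomp : IsComplete K := isClosed_closure.isComplete
  -- linear constraints
  have hphi : ∀ f ∈ K, mu.real A ^ 2 + η ≤ inner ℝ e1 f := by
    intro f hf
    have hcl : IsClosed {f : E | mu.real A ^ 2 + η ≤ inner ℝ e1 f} :=
      isClosed_le continuous_const (by fun_prop)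
    have hcv : Convex ℝ {f : E | mu.real A ^ 2 + η ≤ inner ℝ e1 f} := by
      intro x hx y hy a b ha hb hab
      simp only [mem_setOf_eq] at hx hy ⊢
      rw [inner_add_right, inner_smul_right, inner_smul_right]
      have : mu.real A ^ 2 + η = a * (mu.real A ^ 2 + η) + b * (mu.real A ^ 2 + η) := by
        rw [← add_mul, hab, one_mul]
      rw [this]
      exact add_le_add (mul_le_mul_of_nonneg_left hx ha) (mul_le_mul_of_nonneg_left hy hb)
    refine closure_minimal (convexHull_min ?_ hcv) hcl hf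
    rintro _ ⟨g, rfl⟩
    simp only [mem_setOf_eq, he, he1]
    rw [L2.real_inner_indicatorConstLp_one_indicatorConstLp_one]
    exact hcon g g.2
  have hpsi : ∀ f ∈ K, inner ℝ one f = mu.real A := by
    intro f hf
    have hcl : IsClosed {f : E | inner ℝ one f = mu.real A} :=
      isClosed_eq (by fun_prop) continuous_const
    have hcv : Convex ℝ {f : E | inner ℝ one f = mu.real A} := by
      intro x hx y hy a b ha hb hab
      simp only [mem_setOf_eq] at hx hy ⊢
      rw [inner_add_right, inner_smul_right, inner_smul_right, hx, hy, ← add_mul, hab, one_mul]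
    refine closure_minimal (convexHull_min ?_ hcv) hcl hf
    rintro _ ⟨g, rfl⟩
    simp only [mem_setOf_eq, he, hone]
    rw [L2.real_inner_indicatorConstLp_one_indicatorConstLp_one, univ_inter]
    unfold Measure.real
    rw [(hF.mp g.2).measure_preimage hA.nullMeasurableSet]
  -- minimal norm vector
  obtain ⟨v, hvK, hv⟩ := exists_norm_eq_iInf_of_complete_convex hKne hKcomp hKconv 0
  have hv2 := (norm_eq_iInf_iff_real_inner_le_zero hKconv hvK).1 hv
  have hv3 : ∀ w ∈ K, ‖v‖ ^ 2 ≤ inner ℝ v w := by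
    intro w hw
    have := hv2 w hw
    rw [zero_sub, inner_neg_left, inner_sub_right, real_inner_self_eq_norm_sq] at this
    linarith
  -- invariance
  have hinv : ∀ g : H, (v : ℝ → ℝ) ∘ ((g : Equiv.Perm ℝ) : ℝ → ℝ) =ᵐ[mu] v := by
    intro g
    set U : E →ₗᵢ[ℝ] E := Lp.compMeasurePreservingₗᵢ ℝ ((g : Equiv.Perm ℝ) : ℝ → ℝ) (hF.mp g.2) with hU
    have hUe : ∀ k : H, U (e k) = e (k * g) := by
      intro k
      rfl
    have hUK : U v ∈ K := by
      have h1 : U '' (convexHull ℝ (range e)) ⊆ convexHull ℝ (range e) := by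
        have : U '' (convexHull ℝ (range e)) = convexHull ℝ (U '' (range e)) :=
          (U.toLinearMap.image_convexHull (range e))
        rw [this]
        apply convexHull_mono
        rintro _ ⟨_, ⟨k, rfl⟩, rfl⟩
        exact ⟨k * g, (hUe k).symm⟩
      have h2 : U '' K ⊆ K := by
        calc U '' K ⊆ closure (U '' (convexHull ℝ (range e))) :=
              image_closure_subset_closure_image U.continuous
          _ ⊆ K := closure_mono h1
      exact h2 (mem_image_of_mem U hvK)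
    have hUv : U v = v := by
      have h1 := hv3 _ hUK
      have h2 : ‖v - U v‖ ^ 2 ≤ 0 := by
        rw [norm_sub_sq_real, U.norm_map]
        linarith
      have h3 : ‖v - U v‖ = 0 := by
        have := norm_nonneg (v - U v)
        nlinarith
      exact (sub_eq_zero.1 (norm_eq_zero.1 h3)).symm
    have h4 : (U v : ℝ → ℝ) =ᵐ[mu] (v : ℝ → ℝ) ∘ ((g : Equiv.Perm ℝ) : ℝ → ℝ) :=
      Lp.coeFn_compMeasurePreserving v (hF.mp g.2)
    rw [hUv] at h4
    exact h4.symm
  -- `v` is almost everywhere equal to `μ A`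
  have hvm : Measurable (v : ℝ → ℝ) := (Lp.stronglyMeasurable v).measurable
  have hvint : ∫ x, v x ∂mu = mu.real A := by
    have := hpsi v hvK
    rw [hone, L2.inner_indicatorConstLp_one, setIntegral_univ] at this
    exact this
  have hvi : Integrable (v : ℝ → ℝ) mu := (Lp.memLp v).integrable (by norm_num)
  have hlevel : ∀ c : ℝ, mu {x | c < v x} = 0 ∨ mu {x | c < v x} = 1 := by
    intro c
    have hm : MeasurableSet {x | c < v x} := measurableSet_lt measurable_const hvm
    have h1 := herg (Ico (0:ℝ) 1 ∩ {x | c < v x}) (measurableSet_Ico.inter hm) inter_subset_left ?_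
    · rw [mu_apply hm, inter_comm]
      exact h1
    · intro h hh
      have h2 : mu (symmDiff (((h : Equiv.Perm ℝ) : ℝ → ℝ) ⁻¹' {x | c < v x}) {x | c < v x}) = 0 := by
        have h3 := hinv ⟨h, hh⟩
        refine measure_mono_null ?_ h3
        intro x hx
        simp only [mem_compl_iff, mem_setOf_eq]
        intro hcon2
        have hcon3 : v (h x) = v x := hcon2
        rcases hx with ⟨h4, h5⟩ | ⟨h4, h5⟩
        · apply h5
          simp only [mem_preimage, mem_setOf_eq] at h4 ⊢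
          rwa [← hcon3]
        · apply h5
          simp only [mem_preimage, mem_setOf_eq] at h4 ⊢
          rwa [hcon3]
      have h3 : symmDiff (((h : Equiv.Perm ℝ) : ℝ → ℝ) ⁻¹' (Ico (0:ℝ) 1 ∩ {x | c < v x}))
          (Ico (0:ℝ) 1 ∩ {x | c < v x}) ⊆
          (symmDiff (((h : Equiv.Perm ℝ) : ℝ → ℝ) ⁻¹' {x | c < v x}) {x | c < v x}) ∩ Ico (0:ℝ) 1 := by
        intro x hx
        rcases hx with ⟨h4, h5⟩ | ⟨h4, h5⟩
        · have hxI : x ∈ Ico (0:ℝ) 1 := by
            by_contra hxI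
            have := (hF h hh).2.2 x hxI
            have h6 : h x ∈ Ico (0:ℝ) 1 := h4.1
            rw [this] at h6
            exact hxI h6
          exact ⟨Or.inl ⟨h4.2, fun h6 => h5 ⟨hxI, h6⟩⟩, hxI⟩
        · exact ⟨Or.inr ⟨h4.2, fun h6 => h5 ⟨hF.maps hh h4.1, h6⟩⟩, h4.1⟩
      refine measure_mono_null h3 ?_
      have h7 := h2
      rw [mu_apply ((hm.preimage (hF.mp hh).measurable).symmDiff hm)] at h7
      exact h7
  have hle : ∀ δ : ℝ, 0 < δ → mu {x | mu.real A + δ < v x} = 0 := by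
    intro δ hδ
    rcases hlevel (mu.real A + δ) with h | h
    · exact h
    · exfalso
      have h1 : ∀ᵐ x ∂mu, mu.real A + δ ≤ v x := by
        have hm : MeasurableSet {x | mu.real A + δ < v x} := measurableSet_lt measurable_const hvm
        have h2 : mu {x | mu.real A + δ < v x}ᶜ = 0 := by
          rw [prob_compl_eq_zero_iff hm]; exact h
        filter_upwards [measure_eq_zero_iff_ae_notMem.1 h2] with x hx
        simp only [mem_compl_iff, mem_setOf_eq, not_not] at hx
        exact hx.le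
      have h2 : mu.real A + δ ≤ ∫ x, v x ∂mu := by
        calc mu.real A + δ = ∫ _, (mu.real A + δ) ∂mu := by simp
          _ ≤ _ := integral_mono_ae (integrable_const _) hvi h1
      rw [hvint] at h2
      linarith
  have hge : ∀ δ : ℝ, 0 < δ → mu {x | mu.real A - δ < v x} = 1 := by
    intro δ hδ
    rcases hlevel (mu.real A - δ) with h | h
    · exfalso
      have h1 : ∀ᵐ x ∂mu, v x ≤ mu.real A - δ := by
        filter_upwards [measure_eq_zero_iff_ae_notMem.1 h] with x hx
        simp only [mem_setOf_eq, not_lt] at hx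
        exact hx
      have h2 : ∫ x, v x ∂mu ≤ mu.real A - δ := by
        calc ∫ x, v x ∂mu ≤ ∫ _, (mu.real A - δ) ∂mu := integral_mono_ae hvi (integrable_const _) h1
          _ = _ := by simp
      rw [hvint] at h2
      linarith
    · exact h
  have hle' : ∀ᵐ x ∂mu, v x ≤ mu.real A := by
    have h1 : ∀ᵐ x ∂mu, ∀ n : ℕ, v x ≤ mu.real A + 1 / (n + 1) := by
      rw [ae_all_iff]
      intro n
      filter_upwards [measure_eq_zero_iff_ae_notMem.1 (hle (1 / (n + 1)) (by positivity))] with x hx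
      simp only [mem_setOf_eq, not_lt] at hx
      exact hx
    filter_upwards [h1] with x hx
    refine le_of_forall_pos_le_add fun δ hδ => ?_
    obtain ⟨n, hn⟩ := exists_nat_one_div_lt hδ
    linarith [hx n]
  have hge' : ∀ᵐ x ∂mu, mu.real A ≤ v x := by
    have h1 : ∀ᵐ x ∂mu, ∀ n : ℕ, mu.real A - 1 / (n + 1) ≤ v x := by
      rw [ae_all_iff]
      intro n
      have hm : MeasurableSet {x | mu.real A - 1 / ((n:ℝ) + 1) < v x} := measurableSet_lt measurable_const hvm
      have h2 : mu {x | mu.real A - 1 / ((n:ℝ) + 1) < v x}ᶜ = 0 := by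
        rw [prob_compl_eq_zero_iff hm]; exact hge _ (by positivity)
      filter_upwards [measure_eq_zero_iff_ae_notMem.1 h2] with x hx
      simp only [mem_compl_iff, mem_setOf_eq, not_not] at hx
      exact hx.le
    filter_upwards [h1] with x hx
    refine le_of_forall_pos_le_add fun δ hδ => ?_
    obtain ⟨n, hn⟩ := exists_nat_one_div_lt hδ
    linarith [hx n]
  have hconst : (v : ℝ → ℝ) =ᵐ[mu] fun _ => mu.real A := by
    filter_upwards [hle', hge'] with x h1 h2
    exact le_antisymm h1 h2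
  have hfin : inner ℝ e1 v = mu.real A ^ 2 := by
    rw [he1, L2.inner_indicatorConstLp_one]
    rw [setIntegral_congr_ae hA (g := fun _ => mu.real A)]
    · rw [setIntegral_const, smul_eq_mul, sq]
    · filter_upwards [hconst] with x hx _
      exact hx
  have := hphi v hvK
  rw [hfin] at this
  linarith

lemma moved_eq (hF : InFull H) {h : Equiv.Perm ℝ} (hh : h ∈ H) :
    volume {x : ℝ | x ∈ Set.Ico (0:ℝ) 1 ∧ (h : ℝ → ℝ) x ≠ x} = mu (Fx h)ᶜ := by
  rw [mu_apply (measurableSet_Fx hF hh).compl]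
  congr 1
  ext x
  simp only [mem_setOf_eq, mem_inter_iff, mem_compl_iff, Fx]
  tauto

/-- the support of a commutator -/
lemma comm_support (hF : InFull H) {w g : Equiv.Perm ℝ} (hw : w ∈ H) (hg : g ∈ H) :
    mu.real (Fx (w * (g⁻¹ * w * g) * w⁻¹ * (g⁻¹ * w * g)⁻¹))ᶜ ≤
      3 * mu.real ((Fx w)ᶜ ∩ (g : Equiv.Perm ℝ) ⁻¹' (Fx w)ᶜ) := by
  set A : Set ℝ := (Fx w)ᶜ with hA
  set u : Equiv.Perm ℝ := g⁻¹ * w * g with hu
  have huH : u ∈ H := H.mul_mem (H.mul_mem (H.inv_mem hg) hw) hg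
  have hAm : MeasurableSet A := (measurableSet_Fx hF hw).compl
  -- support of `u` is the preimage
  have hsu : ∀ x, x ∈ (Fx u)ᶜ ↔ g x ∈ A := by
    intro x
    rw [hA]
    simp only [mem_compl_iff, Fx, mem_setOf_eq]
    have : u x = x ↔ w (g x) = g x := by
      show g⁻¹ (w (g x)) = x ↔ w (g x) = g x
      rw [Equiv.Perm.inv_eq_iff_eq]
    rw [this]
  set I : Set ℝ := A ∩ (g : Equiv.Perm ℝ) ⁻¹' A with hI
  have hIm : MeasurableSet I := hAm.inter (hAm.preimage (hF.mp hg).measurable)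
  have hIx : ∀ x, x ∈ I ↔ x ∉ Fx w ∧ x ∉ Fx u := by
    intro x
    have := hsu x
    simp only [mem_compl_iff] at this
    rw [hI, mem_inter_iff, mem_preimage, ← this, hA, mem_compl_iff]
  have hsub : (Fx (w * u * w⁻¹ * u⁻¹))ᶜ ⊆ I ∪ ((u⁻¹ : Equiv.Perm ℝ) ⁻¹' I) ∪ ((w⁻¹ : Equiv.Perm ℝ) ⁻¹' I) := by
    intro x hx
    by_contra hcon
    simp only [mem_union, mem_preimage, not_or, hIx, not_and, not_not] at hcon
    obtain ⟨⟨h1, h2⟩, h3⟩ := hcon
    apply hx
    by_cases hxw : x ∈ Fx w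
    · by_cases hxw2 : u⁻¹ x ∈ Fx w
      · exact fx_comm hxw hxw2
      · have h4 := h2 hxw2
        -- then `u⁻¹ x` is fixed by `u`, so `x` is fixed by `u`
        have h5 : u (u⁻¹ x) = u⁻¹ x := h4
        have h6 : x = u⁻¹ x := by simpa using h5
        rw [← h6] at hxw2
        exact absurd hxw hxw2
    · have h4 := h1 hxw
      apply fx_comm' h4
      by_cases h5 : w⁻¹ x ∈ Fx w
      · have h6 : w (w⁻¹ x) = w⁻¹ x := h5
        have h7 : x = w⁻¹ x := by simpa using h6
        rw [← h7] at h5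
        exact absurd h5 hxw
      · exact h3 h5
  have m1 : mu.real ((u⁻¹ : Equiv.Perm ℝ) ⁻¹' I) = mu.real I := by
    unfold Measure.real
    rw [(hF.mp (H.inv_mem huH)).measure_preimage hIm.nullMeasurableSet]
  have m2 : mu.real ((w⁻¹ : Equiv.Perm ℝ) ⁻¹' I) = mu.real I := by
    unfold Measure.real
    rw [(hF.mp (H.inv_mem hw)).measure_preimage hIm.nullMeasurableSet]
  calc mu.real (Fx (w * u * w⁻¹ * u⁻¹))ᶜ
      ≤ mu.real (I ∪ ((u⁻¹ : Equiv.Perm ℝ) ⁻¹' I) ∪ ((w⁻¹ : Equiv.Perm ℝ) ⁻¹' I)) := measureReal_mono hsub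
    _ ≤ mu.real (I ∪ ((u⁻¹ : Equiv.Perm ℝ) ⁻¹' I)) + mu.real ((w⁻¹ : Equiv.Perm ℝ) ⁻¹' I) :=
        measureReal_union_le _ _
    _ ≤ (mu.real I + mu.real ((u⁻¹ : Equiv.Perm ℝ) ⁻¹' I)) + mu.real ((w⁻¹ : Equiv.Perm ℝ) ⁻¹' I) := by
        gcongr
        exact measureReal_union_le _ _
    _ = 3 * mu.real I := by rw [m1, m2]; ring

theorem gap (hF : InFull H) (herg : IsErgodic H) (hcsa : IsCSA H) (hd : UniformlyDiscrete H) :
    MovesAtLeast H (1 / 3) := by
  obtain ⟨ε, hε, hd⟩ := hd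
  -- in real terms
  have hd' : ∀ h ∈ H, h ≠ 1 → ε ≤ mu.real (Fx h)ᶜ := by
    intro h hh h1
    have h2 := hd h hh h1
    rw [moved_eq hF hh] at h2
    unfold Measure.real
    rwa [ENNReal.ofReal_le_iff_le_toReal (measure_ne_top _ _)] at h2
  intro w0 hw0 hw01
  rw [moved_eq hF hw0]
  rw [ENNReal.ofReal_le_iff_le_toReal (measure_ne_top _ _)]
  show (1/3 : ℝ) ≤ mu.real (Fx w0)ᶜ
  by_contra hlt
  push Not at hlt
  -- infimum
  set s : ℝ := sInf {t : ℝ | ∃ h ∈ H, h ≠ 1 ∧ t = mu.real (Fx h)ᶜ} with hs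
  have hne : {t : ℝ | ∃ h ∈ H, h ≠ 1 ∧ t = mu.real (Fx h)ᶜ}.Nonempty := ⟨_, w0, hw0, hw01, rfl⟩
  have hbdd : BddBelow {t : ℝ | ∃ h ∈ H, h ≠ 1 ∧ t = mu.real (Fx h)ᶜ} := by
    refine ⟨ε, ?_⟩
    rintro t ⟨h, hh, h1, rfl⟩
    exact hd' h hh h1
  have hsε : ε ≤ s := by
    apply le_csInf hne
    rintro t ⟨h, hh, h1, rfl⟩
    exact hd' h hh h1
  have hs3 : s < 1 / 3 := lt_of_le_of_lt (csInf_le hbdd ⟨w0, hw0, hw01, rfl⟩) hlt
  have hs0 : 0 < s := lt_of_lt_of_le hε hsε
  -- choose η
  set η : ℝ := s * (1 - 3 * s) / 12 with hη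
  have hη0 : 0 < η := by
    rw [hη]
    have : 0 < 1 - 3 * s := by linarith
    positivity
  have hη1 : η ≤ s / 12 := by
    rw [hη]
    have : s * (1 - 3 * s) ≤ s := by nlinarith
    linarith
  obtain ⟨t, ⟨w, hw, hw1, rfl⟩, ht⟩ := exists_lt_of_csInf_lt hne (lt_add_of_pos_right s hη0)
  set a : ℝ := mu.real (Fx w)ᶜ with ha
  have has : s ≤ a := csInf_le hbdd ⟨w, hw, hw1, rfl⟩
  have hkey : 3 * (a ^ 2 + η) < s := by
    have h1 : a ^ 2 < (s + η) ^ 2 := by
      have : 0 ≤ a := le_trans hs0.le has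
      nlinarith
    have h2 : (s + η) ^ 2 ≤ s ^ 2 + 2 * s * η + η * s := by nlinarith
    have h3 : 3 * (s ^ 2 + 2 * s * η + η * s + η) < s := by
      have : 12 * η = s - 3 * s ^ 2 := by rw [hη]; ring
      nlinarith
    linarith
  have ha1 : a ^ 2 + η < a := by nlinarith
  obtain ⟨g, hg, hgi⟩ := exists_small_inter hF herg (measurableSet_Fx hF hw).compl hη0
  have hgi' : mu.real ((Fx w)ᶜ ∩ (g : Equiv.Perm ℝ) ⁻¹' (Fx w)ᶜ) < a ^ 2 + η := hgi
  -- `w` and its conjugate do not commute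
  have hnc : ¬ Commute w (g⁻¹ * w * g) := by
    intro hc
    have h1 : Commute w g⁻¹ := by
      refine hcsa w hw w hw g⁻¹ (H.inv_mem hg) hw1 hw1 (Commute.refl w) ?_
      rw [inv_inv]; exact hc
    have h2 : Commute w g := by simpa using h1.inv_right
    -- then the support is invariant
    have h3 : (g : Equiv.Perm ℝ) ⁻¹' (Fx w)ᶜ = (Fx w)ᶜ := by
      ext x
      simp only [mem_preimage, mem_compl_iff, Fx, mem_setOf_eq]
      have : w (g x) = g (w x) := by
        have := congrArg (fun p : Equiv.Perm ℝ => p x) h2.eq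
        exact this
      rw [this, g.injective.eq_iff]
    rw [h3, inter_self] at hgi'
    linarith
  have hcomm := comm_ne_one hnc
  have huH : g⁻¹ * w * g ∈ H := H.mul_mem (H.mul_mem (H.inv_mem hg) hw) hg
  have hmem : w * (g⁻¹ * w * g) * w⁻¹ * (g⁻¹ * w * g)⁻¹ ∈ H :=
    H.mul_mem (H.mul_mem (H.mul_mem hw huH) (H.inv_mem hw)) (H.inv_mem huH)
  have h1 := comm_support hF hw hg
  have h2 : s ≤ mu.real (Fx (w * (g⁻¹ * w * g) * w⁻¹ * (g⁻¹ * w * g)⁻¹))ᶜ :=
    csInf_le hbdd ⟨_, hmem, hcomm, rfl⟩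
  linarith

end

end Pool.Agent.MP9d5bb5
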