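import Pool.Agent.Lib.MP9d5bb5.Core

/-!
# Essential freeness on a set of positive measure
-/

namespace Pool.Agent.MP9d5bb5

open MeasureTheory Set Filter Topology ENNReal

noncomputable section

variable {H : Subgroup (Equiv.Perm ℝ)}

lemma Good.union (hF : InFull H) (hs : Small H) (hu : IsUniformlyPrime H) {B B' : Set ℝ}
    (hB : Good H B) (hB' : Good H B') : Good H (B ∪ B') := by
  refine ⟨hB.1.union hB'.1, fun η hη => ?_⟩
  obtain ⟨Y, k, hY, hYk⟩ := hu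
  -- quarter of η
  have h8 : η / ((8 : ℕ) : ℝ≥0∞) ≠ 0 := half_pos' hη 8 (by norm_num)
  set θ : ℝ≥0∞ := η / ((8 : ℕ) : ℝ≥0∞) with hθ
  obtain ⟨κ1, hκ1, hκ1'⟩ := set_small' hF hB.1 h8
  obtain ⟨κ2, hκ2, hκ2'⟩ := set_small' hF hB'.1 h8
  -- a common small threshold
  obtain ⟨τ, hτ0, hτ1, hτ2, hτ3⟩ : ∃ τ : ℝ≥0∞, τ ≠ 0 ∧ τ ≤ θ ∧ τ ≤ κ1 ∧ τ ≤ κ2 := by
    refine ⟨min θ (min κ1 κ2), ?_, min_le_left _ _, (min_le_right _ _).trans (min_le_left _ _),
      (min_le_right _ _).trans (min_le_right _ _)⟩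
    rw [← pos_iff_ne_zero] at *
    exact lt_min h8 (lt_min hκ1 hκ2)
  have h4 : τ / ((4 : ℕ) : ℝ≥0∞) ≠ 0 := half_pos' hτ0 4 (by norm_num)
  set σ : ℝ≥0∞ := τ / ((4 : ℕ) : ℝ≥0∞) with hσ
  have hσ4 : σ + σ + σ + σ = τ := by
    have : σ + σ + σ + σ = ((4 : ℕ) : ℝ≥0∞) * σ := by push_cast; ring
    rw [this, hσ, mul_comm]
    exact ENNReal.div_mul_cancel (by simp) (by simp)
  have hθ8 : θ + θ + θ + θ + (θ + θ + θ + θ) = η := by
    have : θ + θ + θ + θ + (θ + θ + θ + θ) = ((8 : ℕ) : ℝ≥0∞) * θ := by push_cast; ring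
    rw [this, hθ, mul_comm]
    exact ENNReal.div_mul_cancel (by simp) (by simp)
  obtain ⟨c, hc, hc1, hc2, hc3⟩ := hB.2 σ h4
  obtain ⟨d, hd, hd1, hd2, hd3⟩ := hB'.2 σ h4
  obtain ⟨κ3, hκ3, hκ3'⟩ := prod_small hF Y hY k h4
  obtain ⟨h, hh, hh1, hh2⟩ := hs κ3 hκ3
  obtain ⟨L, hL1, hL2, hL3⟩ := hYk c hc d hd h hh hc1 hd1 hh1
  obtain ⟨hxH, hxD⟩ := hκ3' h hh hh2 L hL1 hL2
  set x : Equiv.Perm ℝ := L.prod with hx
  set d' : Equiv.Perm ℝ := x * d * x⁻¹ with hd'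
  have hxi : x⁻¹ ∈ H := H.inv_mem hxH
  have hd'H : d' ∈ H := H.mul_mem (H.mul_mem hxH hd) hxi
  have hd'D : D d' < σ + σ + σ := by
    calc D d' ≤ D (x * d : Equiv.Perm ℝ) + D (x⁻¹ : Equiv.Perm ℝ) :=
          D_mul_le hF (H.mul_mem hxH hd) hxi
      _ ≤ (D x + D d) + D x := by
          rw [D_inv hF hxH]
          gcongr
          exact D_mul_le hF hxH hd
      _ < σ + σ + σ := ENNReal.add_lt_add (ENNReal.add_lt_add hxD hd2) hxD
  have hd'D' : D d' < τ := by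
    refine lt_of_lt_of_le hd'D ?_
    rw [← hσ4]
    exact le_self_add
  have hcτ : D c < τ := by
    refine lt_of_lt_of_le hc2 ?_
    rw [← hσ4]
    calc σ ≤ (σ + σ + σ) + σ := le_add_self
      _ = _ := rfl
  have hcx : D ((c * x)⁻¹ : Equiv.Perm ℝ) < τ := by
    rw [D_inv hF (H.mul_mem hc hxH)]
    calc D (c * x : Equiv.Perm ℝ) ≤ D c + D x := D_mul_le hF hc hxH
      _ < σ + σ := ENNReal.add_lt_add hc2 hxD
      _ ≤ τ := by
          rw [← hσ4]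
          calc σ + σ ≤ σ + σ + (σ + σ) := le_self_add
            _ = _ := by ring
  have hσθ : σ ≤ θ := by
    refine le_trans ?_ hτ1
    rw [← hσ4]
    calc σ ≤ (σ + σ + σ) + σ := le_add_self
      _ = _ := rfl
  refine ⟨c * d' * c⁻¹ * d'⁻¹, ?_, comm_ne_one hL3, ?_, ?_⟩
  · exact H.mul_mem (H.mul_mem (H.mul_mem hc hd'H) (H.inv_mem hc)) (H.inv_mem hd'H)
  · -- displacement
    calc D (c * d' * c⁻¹ * d'⁻¹ : Equiv.Perm ℝ)
        ≤ D (c * d' * c⁻¹ : Equiv.Perm ℝ) + D (d'⁻¹ : Equiv.Perm ℝ) :=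
          D_mul_le hF (H.mul_mem (H.mul_mem hc hd'H) (H.inv_mem hc)) (H.inv_mem hd'H)
      _ ≤ (D (c * d' : Equiv.Perm ℝ) + D (c⁻¹ : Equiv.Perm ℝ)) + D d' := by
          rw [D_inv hF hd'H]
          gcongr
          exact D_mul_le hF (H.mul_mem hc hd'H) (H.inv_mem hc)
      _ ≤ ((D c + D d') + D c) + D d' := by
          rw [D_inv hF hc]
          gcongr
          exact D_mul_le hF hc hd'H
      _ < ((τ + τ) + τ) + τ := by
          exact ENNReal.add_lt_add (ENNReal.add_lt_add (ENNReal.add_lt_add hcτ hd'D') hcτ) hd'D'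
      _ ≤ ((θ + θ) + θ) + θ := by gcongr
      _ ≤ η := by rw [← hθ8]; exact le_self_add
  · -- fixed points
    have hFc := measurableSet_Fx hF hc
    have hFd := measurableSet_Fx hF hd
    have hsub : (B ∪ B') \ Fx (c * d' * c⁻¹ * d'⁻¹) ⊆
        ((B \ Fx c) ∪ (B \ (d'⁻¹ : Equiv.Perm ℝ) ⁻¹' (Fx c))) ∪
        ((B' \ (x⁻¹ : Equiv.Perm ℝ) ⁻¹' (Fx d)) ∪ (B' \ ((c * x)⁻¹ : Equiv.Perm ℝ) ⁻¹' (Fx d))) := by
      rintro z ⟨hz1, hz2⟩
      by_contra hcon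
      simp only [mem_union, Set.mem_sdiff, mem_preimage, not_or, not_and, not_not] at hcon
      obtain ⟨⟨h1, h2⟩, h3, h5⟩ := hcon
      apply hz2
      rcases hz1 with hz | hz
      · exact fx_comm (h1 hz) (h2 hz)
      · have h6 := h3 hz
        have h7 := h5 hz
        apply fx_comm'
        · show d' z = z
          have h8 : d (x⁻¹ z) = x⁻¹ z := h6
          show x (d (x⁻¹ z)) = z
          rw [h8]; simp
        · show d' (c⁻¹ z) = c⁻¹ z
          have h8 : d ((c * x)⁻¹ z) = (c * x)⁻¹ z := h7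
          rw [mul_inv_rev] at h8
          have h9 : d (x⁻¹ (c⁻¹ z)) = x⁻¹ (c⁻¹ z) := h8
          show x (d (x⁻¹ (c⁻¹ z))) = c⁻¹ z
          rw [h9]; simp
    have b1 : mu (B \ Fx c) < θ := lt_of_lt_of_le hc3 hσθ
    have b2 : mu (B \ (d'⁻¹ : Equiv.Perm ℝ) ⁻¹' (Fx c)) < θ + θ := by
      refine lt_of_le_of_lt (diff_preimage hF hB.1 hFc (H.inv_mem hd'H)) ?_
      refine ENNReal.add_lt_add (hκ1' _ (H.inv_mem hd'H) ?_) b1
      rw [D_inv hF hd'H]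
      exact lt_of_lt_of_le hd'D' hτ2
    have b3 : mu (B' \ (x⁻¹ : Equiv.Perm ℝ) ⁻¹' (Fx d)) < θ + θ := by
      refine lt_of_le_of_lt (diff_preimage hF hB'.1 hFd hxi) ?_
      refine ENNReal.add_lt_add (hκ2' _ hxi ?_) (lt_of_lt_of_le hd3 hσθ)
      rw [D_inv hF hxH]
      refine lt_of_lt_of_le hxD ?_
      refine le_trans ?_ hτ3
      rw [← hσ4]
      calc σ ≤ (σ + σ + σ) + σ := le_add_self
        _ = _ := rfl
    have b4 : mu (B' \ ((c * x)⁻¹ : Equiv.Perm ℝ) ⁻¹' (Fx d)) < θ + θ := by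
      refine lt_of_le_of_lt (diff_preimage hF hB'.1 hFd (H.inv_mem (H.mul_mem hc hxH))) ?_
      exact ENNReal.add_lt_add (hκ2' _ (H.inv_mem (H.mul_mem hc hxH)) (lt_of_lt_of_le hcx hτ3))
        (lt_of_lt_of_le hd3 hσθ)
    calc mu ((B ∪ B') \ Fx (c * d' * c⁻¹ * d'⁻¹)) ≤ _ := measure_mono hsub
      _ ≤ (mu (B \ Fx c) + mu (B \ (d'⁻¹ : Equiv.Perm ℝ) ⁻¹' (Fx c))) +
          (mu (B' \ (x⁻¹ : Equiv.Perm ℝ) ⁻¹' (Fx d)) +
            mu (B' \ ((c * x)⁻¹ : Equiv.Perm ℝ) ⁻¹' (Fx d))) :=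
          (measure_union_le _ _).trans (add_le_add (measure_union_le _ _) (measure_union_le _ _))
      _ < (θ + (θ + θ)) + ((θ + θ) + (θ + θ)) :=
          ENNReal.add_lt_add (ENNReal.add_lt_add b1 b2) (ENNReal.add_lt_add b3 b4)
      _ ≤ (θ + (θ + θ)) + ((θ + θ) + (θ + θ)) + θ := le_self_add
      _ = η := by rw [← hθ8]; ring

lemma good_fix (hF : InFull H) (hs : Small H) (hu : IsUniformlyPrime H) {w : Equiv.Perm ℝ}
    (hw : w ∈ H) (hw1 : w ≠ 1) : Good H (Fx w) := by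
  refine ⟨measurableSet_Fx hF hw, fun η hη => ?_⟩
  obtain ⟨Y, k, hY, hYk⟩ := hu
  have h2 : η / 2 ≠ 0 := by simpa using hη
  obtain ⟨κ1, hκ1, hκ1'⟩ := set_small' hF (measurableSet_Fx hF hw) hη
  obtain ⟨κ2, hκ2, hκ2'⟩ := conj_small hF hw h2
  obtain ⟨τ, hτ0, hτ1, hτ2, hτ3⟩ : ∃ τ : ℝ≥0∞, τ ≠ 0 ∧ τ ≤ η / 2 ∧ τ ≤ κ1 ∧ τ ≤ κ2 := by
    refine ⟨min (η / 2) (min κ1 κ2), ?_, min_le_left _ _, (min_le_right _ _).trans (min_le_left _ _),
      (min_le_right _ _).trans (min_le_right _ _)⟩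
    rw [← pos_iff_ne_zero] at *
    exact lt_min h2 (lt_min hκ1 hκ2)
  obtain ⟨κ3, hκ3, hκ3'⟩ := prod_small hF Y hY k hτ0
  obtain ⟨h, hh, hh1, hh2⟩ := hs κ3 hκ3
  obtain ⟨L, hL1, hL2, hL3⟩ := hYk w hw w hw h hh hw1 hw1 hh1
  obtain ⟨hxH, hxD⟩ := hκ3' h hh hh2 L hL1 hL2
  set x : Equiv.Perm ℝ := L.prod with hx
  have hxi : x⁻¹ ∈ H := H.inv_mem hxH
  have hnc : ¬ Commute w x := by
    intro hcx
    apply hL3
    have : x * w * x⁻¹ = w := by rw [← hcx.eq]; group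
    rw [this]
    exact Commute.refl w
  refine ⟨w * x * w⁻¹ * x⁻¹, H.mul_mem (H.mul_mem (H.mul_mem hw hxH) (H.inv_mem hw)) hxi,
    comm_ne_one hnc, ?_, ?_⟩
  · calc D (w * x * w⁻¹ * x⁻¹ : Equiv.Perm ℝ)
        ≤ D (w * x * w⁻¹ : Equiv.Perm ℝ) + D (x⁻¹ : Equiv.Perm ℝ) :=
          D_mul_le hF (H.mul_mem (H.mul_mem hw hxH) (H.inv_mem hw)) hxi
      _ < η / 2 + η / 2 := by
          rw [D_inv hF hxH]
          exact ENNReal.add_lt_add (hκ2' x hxH (lt_of_lt_of_le hxD hτ3)) (lt_of_lt_of_le hxD hτ1)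
      _ = η := ENNReal.add_halves η
  · refine lt_of_le_of_lt (measure_mono ?_) (hκ1' x⁻¹ hxi (by
      rw [D_inv hF hxH]; exact lt_of_lt_of_le hxD hτ2))
    rintro z ⟨hz1, hz2⟩
    refine ⟨hz1, fun hz3 => hz2 ?_⟩
    exact fx_comm hz1 hz3

lemma good_empty (hs : Small H) : Good H ∅ := by
  refine ⟨MeasurableSet.empty, fun η hη => ?_⟩
  obtain ⟨c, hc, hc1, hc2⟩ := hs η hη
  exact ⟨c, hc, hc1, hc2, by simpa using pos_iff_ne_zero.2 hη⟩

/-- measure of a good set in a discrete group -/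
lemma Good.measure_le (hF : InFull H) {ε : ℝ} (hε : 0 < ε) (hd : MovesAtLeast H ε) {B : Set ℝ}
    (hB : Good H B) : mu B < 1 := by
  have hε2 : ENNReal.ofReal ε ≠ 0 := by simpa using hε
  obtain ⟨c, hc, hc1, hc2, hc3⟩ := hB.2 _ hε2
  have h1 := hd c hc hc1
  have hFc := measurableSet_Fx hF hc
  have h2 : volume {x : ℝ | x ∈ Set.Ico (0:ℝ) 1 ∧ (c : ℝ → ℝ) x ≠ x} = mu (Fx c)ᶜ := by
    unfold mu
    rw [Measure.restrict_apply hFc.compl]
    congr 1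
    ext x
    simp only [mem_setOf_eq, mem_inter_iff, mem_compl_iff, Fx]
    tauto
  rw [h2] at h1
  have h3 : mu B ≤ mu (B \ Fx c) + mu (Fx c) := by
    refine le_trans (measure_mono ?_) (measure_union_le _ _)
    intro x hx
    by_cases h : x ∈ Fx c
    · exact Or.inr h
    · exact Or.inl ⟨hx, h⟩
  calc mu B ≤ mu (B \ Fx c) + mu (Fx c) := h3
    _ < ENNReal.ofReal ε + mu (Fx c) := by
        rw [add_comm, add_comm (ENNReal.ofReal ε)]
        exact (ENNReal.add_lt_add_iff_left (measure_ne_top _ _)).2 hc3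
    _ ≤ mu (Fx c)ᶜ + mu (Fx c) := by gcongr
    _ = 1 := by
        rw [add_comm, measure_add_measure_compl hFc]
        simp

theorem exists_free_part (hF : InFull H) (hs : Small H) (hu : IsUniformlyPrime H)
    (hd : UniformlyDiscrete H) :
    ∃ B : Set ℝ, MeasurableSet B ∧ mu B < 1 ∧ ∀ w ∈ H, w ≠ 1 → mu (Fx w \ B) = 0 := by
  obtain ⟨ε, hε, hd⟩ := hd
  -- supremum
  set s : ℝ≥0∞ := ⨆ B : {B : Set ℝ // Good H B}, mu B.1 with hs'
  haveI : Nonempty {B : Set ℝ // Good H B} := ⟨⟨∅, good_empty hs⟩⟩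
  have hs1 : s ≤ 1 := iSup_le fun B => (B.2.measure_le hF hε hd).le
  have hex : ∀ n : ℕ, ∃ B : Set ℝ, Good H B ∧ s ≤ mu B + ENNReal.ofReal (1 / (n + 1)) := by
    intro n
    have hpos : ENNReal.ofReal (1 / ((n:ℝ) + 1)) ≠ 0 := by
      have : (0:ℝ) < 1 / (n + 1) := by positivity
      simpa using this
    rcases eq_or_ne s 0 with h0 | h0
    · exact ⟨∅, good_empty hs, by rw [h0]; exact bot_le⟩
    · have hlt : s - ENNReal.ofReal (1 / (n + 1)) < s :=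
        ENNReal.sub_lt_self (ne_top_of_le_ne_top one_ne_top hs1) h0 hpos
      obtain ⟨B, hB⟩ := lt_iSup_iff.1 (hs' ▸ hlt)
      exact ⟨B.1, B.2, tsub_le_iff_right.1 hB.le⟩
  choose B hB1 hB2 using hex
  have hC : ∀ n, Good H (⋃ i ∈ Finset.range (n + 1), B i) := by
    intro n
    induction n with
    | zero => simpa using hB1 0
    | succ n ih =>
      have : (⋃ i ∈ Finset.range (n + 1 + 1), B i) = (⋃ i ∈ Finset.range (n + 1), B i) ∪ B (n + 1) := by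
        ext x
        simp only [mem_iUnion, Finset.mem_range, exists_prop, mem_union]
        constructor
        · rintro ⟨i, hi, hx⟩
          rcases Nat.lt_succ_iff_lt_or_eq.1 hi with h | rfl
          · exact Or.inl ⟨i, h, hx⟩
          · exact Or.inr hx
        · rintro (⟨i, hi, hx⟩ | hx)
          · exact ⟨i, by omega, hx⟩
          · exact ⟨n + 1, by omega, hx⟩
      rw [this]
      exact ih.union hF hs hu (hB1 _)
  have hmono : Monotone (fun n => ⋃ i ∈ Finset.range (n + 1), B i) := by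
    intro m n hmn x hx
    simp only [mem_iUnion, Finset.mem_range, exists_prop] at hx ⊢
    obtain ⟨i, hi, hx⟩ := hx
    exact ⟨i, by omega, hx⟩
  have hG := Good.iUnion hmono hC
  set Bi : Set ℝ := ⋃ n, ⋃ i ∈ Finset.range (n + 1), B i with hBinf
  have hsB : s ≤ mu Bi := by
    apply ENNReal.le_of_forall_pos_le_add
    intro δ hδ _
    obtain ⟨n, hn⟩ := exists_nat_one_div_lt (show (0:ℝ) < δ from hδ)
    calc s ≤ mu (B n) + ENNReal.ofReal (1 / (n + 1)) := hB2 n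
      _ ≤ mu Bi + δ := by
          gcongr
          · intro x hx
            rw [hBinf]
            simp only [mem_iUnion, Finset.mem_range, exists_prop]
            exact ⟨n, n, by omega, hx⟩
          · calc ENNReal.ofReal (1 / ((n:ℝ) + 1)) ≤ ENNReal.ofReal δ := ENNReal.ofReal_le_ofReal hn.le
              _ = δ := ENNReal.ofReal_coe_nnreal
  refine ⟨Bi, hG.1, hG.measure_le hF hε hd, fun w hw hw1 => ?_⟩
  have hU := hG.union hF hs hu (good_fix hF hs hu hw hw1)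
  have h1 : mu (Bi ∪ Fx w) ≤ s := le_iSup (fun B : {B : Set ℝ // Good H B} => mu B.1) ⟨_, hU⟩
  have h2 : mu (Bi ∪ Fx w) = mu Bi + mu (Fx w \ Bi) := by
    have : Bi ∪ Fx w = Bi ∪ (Fx w \ Bi) := by simp
    rw [this, measure_union disjoint_sdiff_right ((measurableSet_Fx hF hw).diff hG.1)]
  have h3 : mu Bi + mu (Fx w \ Bi) ≤ mu Bi + 0 := by
    rw [← h2, add_zero]
    exact h1.trans hsB
  have := (ENNReal.add_le_add_iff_left (measure_ne_top mu Bi)).1 h3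
  exact le_antisymm this bot_le

end

end Pool.Agent.MP9d5bb5
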