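import Mathlib

/-!
# Almost invariant sets and locally finite stabilisers

`lift_folner`: a group `G` acts on `Y`, the stabilisers are locally finite and `E` is a finite
subset of `Y` that is almost invariant under the finite set `S`; then `G` contains a finite set that
is almost invariant under `S`.

`exists_level`: almost invariant functions have almost invariant level sets.
-/

set_option autoImplicit false

namespace Pool.Agent.MP9d5bb5.TwoEnd

open Finset MeasureTheory

theorem lift_folner {G Y : Type*} [Group G] [MulAction G Y] [DecidableEq G] [DecidableEq Y] (S : Finset G)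
    (hloc : ∀ (y : Y) (L : Finset G), (∀ l ∈ L, l • y = y) →
      (Subgroup.closure (L : Set G) : Set G).Finite) {δ : ℝ} (E : Finset Y)
    (hE : (∑ s ∈ S, (({y ∈ E | s • y ∉ E} : Finset Y).card : ℝ)) < δ * (E.card : ℝ)) :
    ∃ F : Finset G, F.Nonempty ∧
      ∀ s ∈ S, (({g ∈ F | s * g ∉ F} : Finset G).card : ℝ) < δ * (F.card : ℝ) := by
  classical
  -- one orbit
  let q : Y → MulAction.orbitRel.Quotient G Y := fun y => Quotient.mk'' y
  have hq : ∀ (g : G) (y : Y), q (g • y) = q y := by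
    intro g y
    exact Quotient.sound' ⟨g, rfl⟩
  obtain ⟨ω, hω⟩ : ∃ ω : MulAction.orbitRel.Quotient G Y,
      (∑ s ∈ S, (({y ∈ E | q y = ω ∧ s • y ∉ E} : Finset Y).card : ℝ)) <
        δ * (({y ∈ E | q y = ω} : Finset Y).card : ℝ) := by
    by_contra hcon
    push Not at hcon
    have h1 : δ * (E.card : ℝ) ≤ ∑ s ∈ S, (({y ∈ E | s • y ∉ E} : Finset Y).card : ℝ) := by
      have h2 : (E.card : ℝ) = ∑ ω ∈ E.image q, (({y ∈ E | q y = ω} : Finset Y).card : ℝ) := by
        rw [← Nat.cast_sum]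
        congr 1
        exact Finset.card_eq_sum_card_image q E
      have h3 : ∀ s ∈ S, (({y ∈ E | s • y ∉ E} : Finset Y).card : ℝ) =
          ∑ ω ∈ E.image q, (({y ∈ E | q y = ω ∧ s • y ∉ E} : Finset Y).card : ℝ) := by
        intro s _
        rw [← Nat.cast_sum]
        congr 1
        rw [Finset.card_eq_sum_card_fiberwise (f := q) (t := E.image q)
          (fun y hy => Finset.mem_coe.2 (mem_image_of_mem q (mem_of_mem_filter y hy)))]
        refine sum_congr rfl fun ω _ => ?_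
        congr 1
        ext y
        simp only [mem_filter]
        tauto
      rw [h2, mul_sum, sum_congr rfl h3, sum_comm]
      exact sum_le_sum fun ω _ => hcon ω
    exact absurd hE (not_lt.2 h1)
  set E' : Finset Y := {y ∈ E | q y = ω} with hE'
  have hsum : (∑ s ∈ S, (({y ∈ E' | s • y ∉ E'} : Finset Y).card : ℝ)) < δ * (E'.card : ℝ) := by
    refine lt_of_eq_of_lt (sum_congr rfl fun s _ => ?_) hω
    congr 2
    ext y
    simp only [hE', mem_filter, hq]
    tauto
  have h0 : 0 ≤ ∑ s ∈ S, (({y ∈ E' | s • y ∉ E'} : Finset Y).card : ℝ) :=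
    sum_nonneg fun _ _ => Nat.cast_nonneg _
  have hne : E'.Nonempty := by
    rw [Finset.nonempty_iff_ne_empty]
    intro h
    rw [h, card_empty, Nat.cast_zero, mul_zero] at hsum
    rw [h] at h0
    exact absurd hsum (not_lt.2 h0)
  obtain ⟨y₀, hy₀⟩ := hne
  have hk : ∀ y ∈ E', ∃ k : G, k • y₀ = y := by
    intro y hy
    have h1 : q y = q y₀ := (mem_filter.1 hy).2.trans (mem_filter.1 hy₀).2.symm
    have h2 : MulAction.orbitRel G Y y y₀ := Quotient.exact' h1
    obtain ⟨k, hk⟩ := h2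
    exact ⟨k, hk⟩
  choose! k hk using hk
  -- the finite group
  set L : Finset G := ((S ×ˢ E').filter fun p => p.1 • p.2 ∈ E').image
    fun p => (k (p.1 • p.2))⁻¹ * p.1 * k p.2 with hL
  have hLfix : ∀ l ∈ L, l • y₀ = y₀ := by
    intro l hl
    rw [hL, mem_image] at hl
    obtain ⟨p, hp, rfl⟩ := hl
    rw [mem_filter, mem_product] at hp
    rw [mul_smul, mul_smul, hk _ hp.1.2, inv_smul_eq_iff, hk _ hp.2]
  have hfin := hloc y₀ L hLfix
  set C : Finset G := hfin.toFinset with hC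
  have hmemC : ∀ g, g ∈ C ↔ g ∈ Subgroup.closure (L : Set G) := fun g => hfin.mem_toFinset
  have hCpos : 0 < C.card := card_pos.2 ⟨1, (hmemC 1).2 (one_mem _)⟩
  have hCfix : ∀ c ∈ C, c • y₀ = y₀ := by
    intro c hc
    have h1 : Subgroup.closure (L : Set G) ≤ MulAction.stabilizer G y₀ :=
      (Subgroup.closure_le _).2 fun l hl => MulAction.mem_stabilizer_iff.2 (hLfix l hl)
    exact MulAction.mem_stabilizer_iff.1 (h1 ((hmemC c).1 hc))
  set m : Y × G → G := fun p => k p.1 * p.2 with hm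
  have hminj : Set.InjOn m (E' ×ˢ C : Finset (Y × G)) := by
    rintro ⟨y, c⟩ hp ⟨y', c'⟩ hp' he
    rw [coe_product, Set.mem_prod] at hp hp'
    have h1 : y = y' := by
      have h2 : (k y * c) • y₀ = (k y' * c') • y₀ := congrArg (· • y₀) he
      rw [mul_smul, mul_smul, hCfix c hp.2, hCfix c' hp'.2, hk y hp.1, hk y' hp'.1] at h2
      exact h2
    subst h1
    have h3 : c = c' := mul_left_cancel (a := k y) he
    rw [h3]
  set F : Finset G := (E' ×ˢ C).image m with hF
  have hFcard : (F.card : ℝ) = E'.card * C.card := by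
    rw [hF, card_image_of_injOn hminj, card_product]
    push_cast
    rfl
  refine ⟨F, ⟨m (y₀, 1), mem_image_of_mem m (mem_product.2 ⟨hy₀, (hmemC 1).2 (one_mem _)⟩)⟩,
    fun s hs => ?_⟩
  have hsub : ({g ∈ F | s * g ∉ F} : Finset G) ⊆
      (({y ∈ E' | s • y ∉ E'} : Finset Y) ×ˢ C).image m := by
    intro g hg
    rw [mem_filter] at hg
    obtain ⟨hgF, hgs⟩ := hg
    rw [hF, mem_image] at hgF
    obtain ⟨⟨y, c⟩, hp, rfl⟩ := hgF
    rw [mem_product] at hp
    refine mem_image_of_mem m (mem_product.2 ⟨mem_filter.2 ⟨hp.1, fun hsy => hgs ?_⟩, hp.2⟩)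
    have h1 : (k (s • y))⁻¹ * s * k y ∈ L := by
      rw [hL, mem_image]
      exact ⟨(s, y), mem_filter.2 ⟨mem_product.2 ⟨hs, hp.1⟩, hsy⟩, rfl⟩
    have h2 : (k (s • y))⁻¹ * s * k y * c ∈ C :=
      (hmemC _).2 (mul_mem (Subgroup.subset_closure h1) ((hmemC c).1 hp.2))
    have h3 : s * m (y, c) = m (s • y, (k (s • y))⁻¹ * s * k y * c) := by
      simp only [hm]
      group
    rw [h3, hF]
    exact mem_image_of_mem m (mem_product.2 ⟨hsy, h2⟩)
  have h1 : (({g ∈ F | s * g ∉ F} : Finset G).card : ℝ) ≤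
      (({y ∈ E' | s • y ∉ E'} : Finset Y).card : ℝ) * C.card := by
    have h2 := (card_le_card hsub).trans card_image_le
    rw [card_product] at h2
    exact_mod_cast h2
  have h2 : (({y ∈ E' | s • y ∉ E'} : Finset Y).card : ℝ) ≤
      ∑ s ∈ S, (({y ∈ E' | s • y ∉ E'} : Finset Y).card : ℝ) :=
    single_le_sum (f := fun s => (({y ∈ E' | s • y ∉ E'} : Finset Y).card : ℝ))
      (fun _ _ => Nat.cast_nonneg _) hs
  have hC' : (0 : ℝ) < C.card := by exact_mod_cast hCpos
  rw [hFcard]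
  calc (({g ∈ F | s * g ∉ F} : Finset G).card : ℝ)
      ≤ (({y ∈ E' | s • y ∉ E'} : Finset Y).card : ℝ) * C.card := h1
    _ ≤ (∑ s ∈ S, (({y ∈ E' | s • y ∉ E'} : Finset Y).card : ℝ)) * C.card :=
        mul_le_mul_of_nonneg_right h2 hC'.le
    _ < δ * E'.card * C.card := mul_lt_mul_of_pos_right hsum hC'
    _ = δ * (E'.card * C.card) := by ring

private theorem integral_ind {a b : ℝ} (hb : 0 ≤ b) (ha1 : a ≤ 1) :
    ∫ t in Set.Ico (0 : ℝ) 1, (Set.Ico b a).indicator (fun _ => (1 : ℝ)) t = max (a - b) 0 := by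
  rw [setIntegral_indicator measurableSet_Ico]
  have h1 : Set.Ico (0 : ℝ) 1 ∩ Set.Ico b a = Set.Ico b a := by
    apply Set.inter_eq_self_of_subset_right
    intro t ht
    exact ⟨hb.trans ht.1, ht.2.trans_le ha1⟩
  rw [h1, setIntegral_const, smul_eq_mul, mul_one, Real.volume_real_Ico, max_comm]

/-- level sets of almost invariant functions -/
theorem exists_level {G Y : Type*} [Group G] [MulAction G Y] [DecidableEq Y] (S : Finset G) (W : Finset Y)
    (f : Y → ℝ) (h0 : ∀ y, 0 ≤ f y) (h1 : ∀ y, f y ≤ 1) (hW : ∀ y ∉ W, f y = 0) {δ : ℝ}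
    (h : ∑ s ∈ S, ∑ y ∈ W, max (f y - f (s • y)) 0 < δ * ∑ y ∈ W, f y) :
    ∃ E : Finset Y, (∑ s ∈ S, (({y ∈ E | s • y ∉ E} : Finset Y).card : ℝ)) <
      δ * (E.card : ℝ) := by
  classical
  by_contra hcon
  push Not at hcon
  apply absurd h
  rw [not_lt]
  have e1 : ∀ y, ∫ t in Set.Ico (0 : ℝ) 1, (Set.Ico 0 (f y)).indicator (fun _ => (1 : ℝ)) t =
      f y := by
    intro y
    rw [integral_ind le_rfl (h1 y), sub_zero, max_eq_left (h0 y)]
  have e2 : ∀ (s : G) y, ∫ t in Set.Ico (0 : ℝ) 1,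
      (Set.Ico (f (s • y)) (f y)).indicator (fun _ => (1 : ℝ)) t = max (f y - f (s • y)) 0 :=
    fun s y => integral_ind (h0 _) (h1 y)
  have hint : ∀ a b : ℝ, IntegrableOn (fun t => (Set.Ico a b).indicator (fun _ => (1 : ℝ)) t)
      (Set.Ico (0 : ℝ) 1) := by
    intro a b
    exact (integrable_const (1 : ℝ)).indicator measurableSet_Ico
  have e3 : δ * ∑ y ∈ W, f y = ∫ t in Set.Ico (0 : ℝ) 1,
      δ * ∑ y ∈ W, (Set.Ico 0 (f y)).indicator (fun _ => (1 : ℝ)) t := by
    rw [integral_const_mul, integral_finsetSum _ fun y _ => hint _ _]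
    congr 1
    exact sum_congr rfl fun y _ => (e1 y).symm
  have e4 : ∑ s ∈ S, ∑ y ∈ W, max (f y - f (s • y)) 0 = ∫ t in Set.Ico (0 : ℝ) 1,
      ∑ s ∈ S, ∑ y ∈ W, (Set.Ico (f (s • y)) (f y)).indicator (fun _ => (1 : ℝ)) t := by
    rw [integral_finsetSum _ fun s _ => integrable_finsetSum _ fun y _ => hint _ _]
    refine sum_congr rfl fun s _ => ?_
    rw [integral_finsetSum _ fun y _ => hint _ _]
    exact sum_congr rfl fun y _ => (e2 s y).symm
  rw [e3, e4]
  refine setIntegral_mono_on ?_ ?_ measurableSet_Ico fun t ht => ?_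
  · exact (integrable_finsetSum _ fun y _ => hint _ _).const_mul δ
  · exact integrable_finsetSum _ fun s _ => integrable_finsetSum _ fun y _ => hint _ _
  · have h2 := hcon ({y ∈ W | t < f y})
    have h3 : (∑ y ∈ W, (Set.Ico 0 (f y)).indicator (fun _ => (1 : ℝ)) t) =
        (({y ∈ W | t < f y} : Finset Y).card : ℝ) := by
      rw [card_filter]
      push_cast
      refine sum_congr rfl fun y _ => ?_
      rw [Set.indicator_apply]
      by_cases h4 : t < f y
      · rw [if_pos h4, if_pos ⟨ht.1, h4⟩]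
      · rw [if_neg h4, if_neg fun h5 => h4 h5.2]
    have h4 : ∀ s ∈ S, (∑ y ∈ W, (Set.Ico (f (s • y)) (f y)).indicator (fun _ => (1 : ℝ)) t) =
        (({y ∈ ({y ∈ W | t < f y} : Finset Y) | s • y ∉ ({y ∈ W | t < f y} : Finset Y)} :
          Finset Y).card : ℝ) := by
      intro s _
      rw [filter_filter, card_filter]
      push_cast
      refine sum_congr rfl fun y _ => ?_
      rw [Set.indicator_apply]
      by_cases h5 : t < f y ∧ s • y ∉ ({y ∈ W | t < f y} : Finset Y)
      · rw [if_pos h5, if_pos]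
        refine ⟨?_, h5.1⟩
        by_cases h6 : s • y ∈ W
        · by_contra h7
          exact h5.2 (mem_filter.2 ⟨h6, not_le.1 h7⟩)
        · rw [hW _ h6]
          exact ht.1
      · rw [if_neg h5, if_neg]
        rintro ⟨h6, h7⟩
        exact h5 ⟨h7, fun h8 => absurd (mem_filter.1 h8).2 (not_lt.2 h6)⟩
    rw [h3, sum_congr rfl h4]
    exact h2

end Pool.Agent.MP9d5bb5.TwoEnd
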