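import Pool.Agent.Lib.MP9d5bb5.TwoEndA

/-!
# Product vectors on the sets commensurate to the half line

`Y` is the set of subsets of `ℤ` with finite symmetric difference to `{n | 0 ≤ n}`; for a function `ψ` which is
equal to `base` (`0` on the negative and `π / 2` on the nonnegative integers) off a finite set, `vec ψ A` is the
product over `n` of `sin (ψ n)` (`n ∈ A`) or `cos (ψ n)` (`n ∉ A`).
-/

set_option autoImplicit false

namespace Pool.Agent.MP9d5bb5.TwoEnd

open Finset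

noncomputable section

open Classical in
/-- the factor at one point -/
def fac (p : Prop) (t : ℝ) : ℝ := if p then Real.sin t else Real.cos t

/-- `A` is commensurate to the half line -/
def Comm (A : Set ℤ) : Prop := {n : ℤ | ¬ (n ∈ A ↔ 0 ≤ n)}.Finite

/-- the reference function -/
def base (n : ℤ) : ℝ := if 0 ≤ n then Real.pi / 2 else 0

/-- the product vector -/
def vec (ψ : ℤ → ℝ) (A : Set ℤ) : ℝ := ∏ᶠ n : ℤ, fac (n ∈ A) (ψ n)

/-- the set that differs from the half line in `E` -/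
def half (E : Finset ℤ) : Set ℤ := {n | ¬ (n ∈ E ↔ 0 ≤ n)}

theorem mem_half {E : Finset ℤ} {n : ℤ} : n ∈ half E ↔ ¬ (n ∈ E ↔ 0 ≤ n) := Iff.rfl

theorem half_injective : Function.Injective half := by
  intro E E' h
  ext n
  have h1 : n ∈ half E ↔ n ∈ half E' := by rw [h]
  rw [mem_half, mem_half] at h1
  tauto

theorem comm_half (E : Finset ℤ) : Comm (half E) := by
  refine E.finite_toSet.subset fun n hn => ?_
  rw [Set.mem_ofPred_eq, mem_half] at hn
  rw [mem_coe]
  tauto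

theorem exists_half {A : Set ℤ} {W : Finset ℤ} (hW : ∀ n ∉ W, (n ∈ A ↔ 0 ≤ n)) :
    ∃ E ⊆ W, A = half E := by
  classical
  refine ⟨W.filter fun n => ¬ (n ∈ A ↔ 0 ≤ n), filter_subset _ _, ?_⟩
  ext n
  rw [mem_half, mem_filter]
  have := hW n
  tauto

theorem fac_base_pos {n : ℤ} {p : Prop} (h : p ↔ 0 ≤ n) : fac p (base n) = 1 := by
  unfold fac base
  by_cases hn : 0 ≤ n
  · simp [h.2 hn, hn]
  · have hp : ¬ p := fun hp => hn (h.1 hp)
    simp [hp, hn]

theorem fac_base_neg {n : ℤ} {p : Prop} (h : ¬ (p ↔ 0 ≤ n)) : fac p (base n) = 0 := by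
  unfold fac base
  by_cases hn : 0 ≤ n
  · have hp : ¬ p := fun hp => h ⟨fun _ => hn, fun _ => hp⟩
    simp [hp, hn]
  · have hp : p := by
      by_contra hp
      exact h ⟨fun hp' => absurd hp' hp, fun hn' => absurd hn' hn⟩
    simp [hp, hn]

theorem vec_half {ψ : ℤ → ℝ} {W E : Finset ℤ} (hψ : ∀ n ∉ W, ψ n = base n) (hE : E ⊆ W) :
    vec ψ (half E) = ∏ n ∈ W, fac (n ∈ half E) (ψ n) := by
  unfold vec
  apply finprod_eq_prod_of_mulSupport_subset
  intro n hn
  rw [Function.mem_mulSupport] at hn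
  by_contra hnW
  apply hn
  rw [mem_coe] at hnW
  rw [hψ n hnW]
  apply fac_base_pos
  rw [mem_half]
  have : n ∉ E := fun h => hnW (hE h)
  tauto

theorem vec_eq_zero {ψ : ℤ → ℝ} {W : Finset ℤ} (hψ : ∀ n ∉ W, ψ n = base n) {A : Set ℤ}
    (hA : Comm A) {n : ℤ} (hn : n ∉ W) (hnA : ¬ (n ∈ A ↔ 0 ≤ n)) : vec ψ A = 0 := by
  unfold vec
  apply finprod_eq_zero _ n
  · rw [hψ n hn, fac_base_neg hnA]
  · refine (W.finite_toSet.union hA).subset fun m hm => ?_
    rw [Function.mem_mulSupport] at hm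
    by_contra hcon
    rw [Set.mem_union, not_or, mem_coe, Set.mem_ofPred_eq, not_not] at hcon
    apply hm
    rw [hψ m hcon.1, fac_base_pos hcon.2]

/-- the inner product of two product vectors -/
theorem sum_vec {ψ ψ' : ℤ → ℝ} {W : Finset ℤ} (hψ : ∀ n ∉ W, ψ n = base n)
    (hψ' : ∀ n ∉ W, ψ' n = base n) :
    ∑ E ∈ W.powerset, vec ψ (half E) * vec ψ' (half E) = ∏ n ∈ W, Real.cos (ψ n - ψ' n) := by
  classical
  have h1 : ∀ n ∈ W, Real.cos (ψ n - ψ' n) =
      fac (¬ (0 ≤ n)) (ψ n) * fac (¬ (0 ≤ n)) (ψ' n) + fac (0 ≤ n) (ψ n) * fac (0 ≤ n) (ψ' n) := by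
    intro n _
    rw [Real.cos_sub]
    unfold fac
    by_cases hn : 0 ≤ n
    · simp only [hn, not_true_eq_false, if_false, if_true]
    · simp only [hn, not_false_eq_true, if_false, if_true]
      ring
  rw [prod_congr rfl h1, prod_add]
  refine sum_congr rfl fun E hE => ?_
  rw [mem_powerset] at hE
  rw [vec_half hψ hE, vec_half hψ' hE, ← prod_mul_distrib, ← prod_sdiff hE, mul_comm]
  congr 1
  · refine prod_congr rfl fun n hn => ?_
    have h2 : (n ∈ half E) = ¬ (0 ≤ n) := by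
      rw [mem_half]
      simp only [hn, true_iff]
    rw [h2]
  · refine prod_congr rfl fun n hn => ?_
    have h2 : (n ∈ half E) = (0 ≤ n) := by
      rw [mem_half]
      simp only [(mem_sdiff.1 hn).2, false_iff, not_not]
    rw [h2]

theorem one_sub_sum_le {ι : Type*} (W : Finset ι) (a : ι → ℝ) (h0 : ∀ i ∈ W, 0 ≤ a i)
    (h1 : ∀ i ∈ W, a i ≤ 1) : 1 - ∑ i ∈ W, a i ≤ ∏ i ∈ W, (1 - a i) := by
  classical
  induction W using Finset.induction_on with
  | empty => simp
  | insert i W hi ih =>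
    rw [sum_insert hi, prod_insert hi]
    have h2 := ih (fun j hj => h0 j (mem_insert_of_mem hj)) fun j hj => h1 j (mem_insert_of_mem hj)
    have h3 := h0 i (mem_insert_self _ _)
    have h4 := h1 i (mem_insert_self _ _)
    have h5 : ∏ j ∈ W, (1 - a j) ≤ 1 := by
      apply prod_le_one
      · intro j hj
        linarith [h1 j (mem_insert_of_mem hj)]
      · intro j hj
        linarith [h0 j (mem_insert_of_mem hj)]
    nlinarith

/-- product vectors of functions of small distance are close -/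
theorem sum_vec_sq_sub {ψ ψ' : ℤ → ℝ} {W : Finset ℤ} (hψ : ∀ n ∉ W, ψ n = base n)
    (hψ' : ∀ n ∉ W, ψ' n = base n) (hd : ∀ n ∈ W, |ψ n - ψ' n| ≤ Real.pi / 2) :
    (∑ E ∈ W.powerset, |vec ψ (half E) ^ 2 - vec ψ' (half E) ^ 2|) ^ 2 ≤
      4 * ∑ n ∈ W, (ψ n - ψ' n) ^ 2 := by
  set P : ℝ := ∏ n ∈ W, Real.cos (ψ n - ψ' n) with hP
  have e1 : ∑ E ∈ W.powerset, vec ψ (half E) * vec ψ (half E) = 1 := by
    rw [sum_vec hψ hψ]
    simp
  have e2 : ∑ E ∈ W.powerset, vec ψ' (half E) * vec ψ' (half E) = 1 := by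
    rw [sum_vec hψ' hψ']
    simp
  have e3 : ∑ E ∈ W.powerset, vec ψ (half E) * vec ψ' (half E) = P := sum_vec hψ hψ'
  have hcos : ∀ n ∈ W, 0 ≤ Real.cos (ψ n - ψ' n) := fun n hn => by
    have := abs_le.1 (hd n hn)
    exact Real.cos_nonneg_of_neg_pi_div_two_le_of_le this.1 this.2
  have hP1 : P ≤ 1 := prod_le_one hcos fun n _ => Real.cos_le_one _
  have hP0 : 0 ≤ P := prod_nonneg hcos
  have hPl : 1 - ∑ n ∈ W, (ψ n - ψ' n) ^ 2 / 2 ≤ P := by
    have h1 : 1 - ∑ n ∈ W, (1 - Real.cos (ψ n - ψ' n)) ≤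
        ∏ n ∈ W, (1 - (1 - Real.cos (ψ n - ψ' n))) := by
      apply one_sub_sum_le
      · intro n _
        linarith [Real.cos_le_one (ψ n - ψ' n)]
      · intro n hn
        linarith [hcos n hn]
    have h2 : ∏ n ∈ W, (1 - (1 - Real.cos (ψ n - ψ' n))) = P := by
      refine prod_congr rfl fun n _ => ?_
      ring
    have h3 : ∑ n ∈ W, (1 - Real.cos (ψ n - ψ' n)) ≤ ∑ n ∈ W, (ψ n - ψ' n) ^ 2 / 2 := by
      refine sum_le_sum fun n _ => ?_
      linarith [Real.one_sub_sq_div_two_le_cos (x := ψ n - ψ' n)]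
    linarith
  have e4 : ∑ E ∈ W.powerset, |vec ψ (half E) - vec ψ' (half E)| ^ 2 = 2 - 2 * P := by
    have : ∀ E ∈ W.powerset, |vec ψ (half E) - vec ψ' (half E)| ^ 2 =
        vec ψ (half E) * vec ψ (half E) + vec ψ' (half E) * vec ψ' (half E) -
          2 * (vec ψ (half E) * vec ψ' (half E)) := by
      intro E _
      rw [sq_abs]
      ring
    rw [sum_congr rfl this, sum_sub_distrib, sum_add_distrib, ← mul_sum, e1, e2, e3]
    ring
  have e5 : ∑ E ∈ W.powerset, |vec ψ (half E) + vec ψ' (half E)| ^ 2 = 2 + 2 * P := by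
    have : ∀ E ∈ W.powerset, |vec ψ (half E) + vec ψ' (half E)| ^ 2 =
        vec ψ (half E) * vec ψ (half E) + vec ψ' (half E) * vec ψ' (half E) +
          2 * (vec ψ (half E) * vec ψ' (half E)) := by
      intro E _
      rw [sq_abs]
      ring
    rw [sum_congr rfl this, sum_add_distrib, sum_add_distrib, ← mul_sum, e1, e2, e3]
    ring
  have e6 : ∀ E ∈ W.powerset, |vec ψ (half E) ^ 2 - vec ψ' (half E) ^ 2| =
      |vec ψ (half E) - vec ψ' (half E)| * |vec ψ (half E) + vec ψ' (half E)| := by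
    intro E _
    rw [← abs_mul]
    congr 1
    ring
  rw [sum_congr rfl e6]
  refine (sum_mul_sq_le_sq_mul_sq _ _ _).trans ?_
  rw [e4, e5]
  have h4 : ∑ n ∈ W, (ψ n - ψ' n) ^ 2 / 2 = (∑ n ∈ W, (ψ n - ψ' n) ^ 2) / 2 := by
    rw [sum_div]
  rw [h4] at hPl
  nlinarith

end

end Pool.Agent.MP9d5bb5.TwoEnd
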