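import Pool.Agent.Lib.MP9d5bb5.TwoEndB

/-!
# Actions on `ℤ` that commensurate the half line and have many bounded cuts

`folner_of_cuts`: if moreover the stabilisers of the sets commensurate to the half line are locally finite, then
the group has almost invariant finite sets.
-/

set_option autoImplicit false

namespace Pool.Agent.MP9d5bb5.TwoEnd

open Finset

noncomputable section

section cuts

variable {G : Type*} [Group G] [MulAction G ℤ]

/-- the points that `s` moves across the cut at `m` -/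
def cross (s : G) (m : ℤ) : Set ℤ := {n : ℤ | ¬ (m ≤ n ↔ m ≤ s • n)}

theorem exists_psi (S : Finset G) (hcomm : ∀ g : G, (cross g 0).Finite) {C : ℕ}
    (hcut : ∀ B : ℤ, ∃ m > B, ∀ s ∈ S, (cross s m).Finite ∧ (cross s m).ncard ≤ C) {η : ℝ}
    (hη : 0 < η) : ∃ (ψ : ℤ → ℝ) (W : Finset ℤ), (∀ n ∉ W, ψ n = base n) ∧
      (∀ s ∈ S, ∀ n ∉ W, ψ (s • n) = base n) ∧ (∀ n m, |ψ n - ψ m| ≤ Real.pi / 2) ∧
      ∀ s ∈ S, ∀ W' : Finset ℤ, ∑ n ∈ W', (ψ n - ψ (s • n)) ^ 2 ≤ η := by
  classical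
  -- the sequence of cuts
  have hnext : ∀ m : ℤ, (∀ s ∈ S, (cross s m).Finite) → ∃ m' : ℤ, m < m' ∧
      (∀ s ∈ S, ∀ n ∈ cross s m, n < m' ∧ s • n < m') ∧
      ∀ s ∈ S, (cross s m').Finite ∧ (cross s m').ncard ≤ C := by
    intro m hm
    have hB : ∃ B : ℤ, m ≤ B ∧ ∀ s ∈ S, ∀ n ∈ cross s m, n ≤ B ∧ s • n ≤ B := by
      have hfin : (⋃ s ∈ S, (cross s m ∪ (fun n => s • n) '' cross s m)).Finite :=
        Set.Finite.biUnion S.finite_toSet fun s hs => (hm s hs).union ((hm s hs).image _)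
      obtain ⟨B, hB⟩ := hfin.bddAbove
      refine ⟨max m B, le_max_left _ _, fun s hs n hn => ⟨?_, ?_⟩⟩
      · exact (hB (Set.mem_biUnion hs (Or.inl hn))).trans (le_max_right _ _)
      · exact (hB (Set.mem_biUnion hs (Or.inr ⟨n, hn, rfl⟩))).trans (le_max_right _ _)
    obtain ⟨B, hmB, hB⟩ := hB
    obtain ⟨m', hm', h2⟩ := hcut B
    exact ⟨m', hmB.trans_lt hm', fun s hs n hn =>
      ⟨(hB s hs n hn).1.trans_lt hm', (hB s hs n hn).2.trans_lt hm'⟩, h2⟩
  obtain ⟨m₀, -, hm₀⟩ := hcut 0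
  let Good : Type := {m : ℤ // ∀ s ∈ S, (cross s m).Finite ∧ (cross s m).ncard ≤ C}
  have hnext' : ∀ m : Good, ∃ m' : Good, m.1 < m'.1 ∧
      ∀ s ∈ S, ∀ n ∈ cross s m.1, n < m'.1 ∧ s • n < m'.1 := by
    intro m
    obtain ⟨m', h1, h2, h3⟩ := hnext m.1 fun s hs => (m.2 s hs).1
    exact ⟨⟨m', h3⟩, h1, h2⟩
  choose nx hnx1 hnx2 using hnext'
  let mg : ℕ → Good := fun i => nx^[i] ⟨m₀, hm₀⟩
  let mm : ℕ → ℤ := fun i => (mg i).1
  have hsucc : ∀ i, mg (i + 1) = nx (mg i) := fun i => Function.iterate_succ_apply' _ _ _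
  have hmono : StrictMono mm := by
    apply strictMono_nat_of_lt_succ
    intro i
    have := hnx1 (mg i)
    rw [← hsucc] at this
    exact this
  have hsep : ∀ i j, i < j → ∀ s ∈ S, ∀ n ∈ cross s (mm i), n < mm j ∧ s • n < mm j := by
    intro i j hij s hs n hn
    have h1 := hnx2 (mg i) s hs n hn
    rw [← hsucc] at h1
    have h2 : mm (i + 1) ≤ mm j := hmono.monotone hij
    exact ⟨h1.1.trans_le h2, h1.2.trans_le h2⟩
  obtain ⟨K, hK⟩ := exists_nat_gt (Real.pi ^ 2 * C / (4 * η))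
  have hK0 : (0 : ℝ) ≤ Real.pi ^ 2 * C / (4 * η) := by positivity
  have hKpos : (0 : ℝ) < K := hK0.trans_lt hK
  have hKpos' : 0 < K := by exact_mod_cast hKpos
  let I : ℤ → Finset ℕ := fun n => (range K).filter fun i => mm i ≤ n
  let ψ : ℤ → ℝ := fun n => Real.pi / 2 / K * ((I n).card : ℝ)
  have hI : ∀ n, ((I n).card : ℝ) ≤ K := by
    intro n
    have : (I n).card ≤ K := (card_le_card (filter_subset _ _)).trans (card_range K).le
    exact_mod_cast this
  have hψ0 : ∀ n, 0 ≤ ψ n := fun n => by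
    have := Real.pi_pos
    simp only [ψ]
    positivity
  have hψ1 : ∀ n, ψ n ≤ Real.pi / 2 := by
    intro n
    simp only [ψ]
    have h1 : Real.pi / 2 / K * ((I n).card : ℝ) ≤ Real.pi / 2 / K * K :=
      mul_le_mul_of_nonneg_left (hI n) (by positivity)
    rwa [div_mul_cancel₀ _ hKpos.ne'] at h1
  -- the finite set
  have hbase : ∃ D : Finset ℤ, ∀ n ∉ D, ψ n = base n := by
    refine ⟨Icc (min (mm 0) 0) (max (mm (K - 1)) 0), fun n hn => ?_⟩
    rw [mem_Icc, not_and_or, not_le, not_le] at hn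
    rcases hn with hn | hn
    · have h1 : n < mm 0 := hn.trans_le (min_le_left _ _)
      have h2 : n < 0 := hn.trans_le (min_le_right _ _)
      have h3 : I n = ∅ := by
        rw [filter_eq_empty_iff]
        intro i _
        rw [not_le]
        exact h1.trans_le (hmono.monotone (Nat.zero_le i))
      simp only [ψ, h3, base, if_neg (not_le.2 h2), card_empty, Nat.cast_zero, mul_zero]
    · have h1 : mm (K - 1) < n := (le_max_left _ _).trans_lt hn
      have h2 : 0 < n := (le_max_right _ _).trans_lt hn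
      have h3 : I n = range K := by
        apply filter_true_of_mem
        intro i hi
        rw [mem_range] at hi
        exact (hmono.monotone (by omega : i ≤ K - 1)).trans h1.le
      simp only [ψ, h3, base, if_pos h2.le, card_range]
      rw [div_mul_cancel₀ _ hKpos.ne']
  obtain ⟨D, hD⟩ := hbase
  have hW : (↑D ∪ ⋃ s ∈ S, ((fun n => s • n) ⁻¹' (↑D : Set ℤ) ∪ cross s 0) : Set ℤ).Finite := by
    refine D.finite_toSet.union (Set.Finite.biUnion S.finite_toSet fun s _ => ?_)
    exact (D.finite_toSet.preimage (MulAction.injective s).injOn).union (hcomm s)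
  refine ⟨ψ, hW.toFinset, ?_, ?_, ?_, ?_⟩
  · intro n hn
    rw [Set.Finite.mem_toFinset] at hn
    exact hD n fun h => hn (Or.inl h)
  · intro s hs n hn
    rw [Set.Finite.mem_toFinset] at hn
    have h1 : s • n ∉ D := fun h => hn (Or.inr (Set.mem_biUnion hs (Or.inl h)))
    have h2 : n ∉ cross s 0 := fun h => hn (Or.inr (Set.mem_biUnion hs (Or.inr h)))
    rw [hD _ h1]
    have h3 : (0 ≤ n ↔ 0 ≤ s • n) := not_not.1 h2
    unfold base
    by_cases h4 : 0 ≤ n
    · rw [if_pos h4, if_pos (h3.1 h4)]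
    · rw [if_neg h4, if_neg fun h => h4 (h3.2 h)]
  · intro n m
    rw [abs_le]
    constructor <;> linarith [hψ0 n, hψ0 m, hψ1 n, hψ1 m]
  · intro s hs W'
    let X : ℤ → Finset ℕ := fun n => (range K).filter fun i => n ∈ cross s (mm i)
    have hX1 : ∀ n, (X n).card ≤ 1 := by
      intro n
      rw [card_le_one]
      intro i hi j hj
      rw [mem_filter] at hi hj
      by_contra hij
      rcases lt_or_gt_of_ne hij with h | h
      · have h1 := hsep i j h s hs n hi.2
        exact hj.2 ⟨fun h2 => absurd h2 (not_le.2 h1.1), fun h2 => absurd h2 (not_le.2 h1.2)⟩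
      · have h1 := hsep j i h s hs n hj.2
        exact hi.2 ⟨fun h2 => absurd h2 (not_le.2 h1.1), fun h2 => absurd h2 (not_le.2 h1.2)⟩
    have hX2 : ∀ n, |((I n).card : ℝ) - ((I (s • n)).card : ℝ)| ≤ ((X n).card : ℝ) := by
      intro n
      have h1 : I n ⊆ I (s • n) ∪ X n := by
        intro i hi
        rw [mem_filter] at hi
        rw [mem_union, mem_filter, mem_filter]
        by_cases h2 : mm i ≤ s • n
        · exact Or.inl ⟨hi.1, h2⟩
        · exact Or.inr ⟨hi.1, fun h3 => h2 (h3.1 hi.2)⟩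
      have h2 : I (s • n) ⊆ I n ∪ X n := by
        intro i hi
        rw [mem_filter] at hi
        rw [mem_union, mem_filter, mem_filter]
        by_cases h2 : mm i ≤ n
        · exact Or.inl ⟨hi.1, h2⟩
        · exact Or.inr ⟨hi.1, fun h3 => h2 (h3.2 hi.2)⟩
      have h3 := (card_le_card h1).trans (card_union_le _ _)
      have h4 := (card_le_card h2).trans (card_union_le _ _)
      have h3' : ((I n).card : ℝ) ≤ (I (s • n)).card + (X n).card := by exact_mod_cast h3
      have h4' : ((I (s • n)).card : ℝ) ≤ (I n).card + (X n).card := by exact_mod_cast h4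
      rw [abs_le]
      constructor <;> linarith
    have hterm : ∀ n, (ψ n - ψ (s • n)) ^ 2 ≤ (Real.pi / 2 / K) ^ 2 * ((X n).card : ℝ) := by
      intro n
      have h1 : ψ n - ψ (s • n) = Real.pi / 2 / K * (((I n).card : ℝ) - ((I (s • n)).card : ℝ)) := by
        simp only [ψ]
        ring
      rw [h1, mul_pow]
      refine mul_le_mul_of_nonneg_left ?_ (sq_nonneg _)
      have h2 := hX2 n
      have h3 : ((X n).card : ℝ) ≤ 1 := by exact_mod_cast hX1 n
      have h4 : (0 : ℝ) ≤ ((X n).card : ℝ) := Nat.cast_nonneg _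
      rw [← sq_abs]
      nlinarith [abs_nonneg (((I n).card : ℝ) - ((I (s • n)).card : ℝ))]
    have hsum : ∑ n ∈ W', ((X n).card : ℝ) ≤ K * C := by
      have h1 : ∑ n ∈ W', (X n).card ≤ K * C := by
        have h2 : ∀ n, (X n).card = ∑ i ∈ range K, if n ∈ cross s (mm i) then 1 else 0 := by
          intro n
          rw [card_filter]
        rw [sum_congr rfl fun n _ => h2 n, sum_comm]
        calc ∑ i ∈ range K, ∑ n ∈ W', (if n ∈ cross s (mm i) then 1 else 0)
            ≤ ∑ _i ∈ range K, C := by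
              refine sum_le_sum fun i _ => ?_
              rw [← card_filter]
              obtain ⟨hf, hc⟩ := (mg i).2 s hs
              refine le_trans ?_ hc
              rw [Set.ncard_eq_toFinset_card _ hf]
              apply card_le_card
              intro n hn
              rw [mem_filter] at hn
              rw [Set.Finite.mem_toFinset]
              exact hn.2
          _ = K * C := by rw [sum_const, card_range, smul_eq_mul]
      exact_mod_cast h1
    calc ∑ n ∈ W', (ψ n - ψ (s • n)) ^ 2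
        ≤ ∑ n ∈ W', (Real.pi / 2 / K) ^ 2 * ((X n).card : ℝ) := sum_le_sum fun n _ => hterm n
      _ = (Real.pi / 2 / K) ^ 2 * ∑ n ∈ W', ((X n).card : ℝ) := by rw [mul_sum]
      _ ≤ (Real.pi / 2 / K) ^ 2 * (K * C) := mul_le_mul_of_nonneg_left hsum (sq_nonneg _)
      _ = Real.pi ^ 2 * C / (4 * K) := by
          field_simp
          ring
      _ ≤ η := by
          rw [div_le_iff₀ (by positivity)]
          rw [div_lt_iff₀ (by positivity)] at hK
          linarith

end cuts

/-- the sets commensurate to the half line -/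
def NSet : Type := {A : Set ℤ // Comm A}

section action

variable {G : Type*} [Group G] [MulAction G ℤ]

theorem comm_smul (hcomm : ∀ g : G, (cross g 0).Finite) (g : G) {A : Set ℤ} (hA : Comm A) :
    Comm {n | g⁻¹ • n ∈ A} := by
  refine ((hA.preimage (MulAction.injective g⁻¹).injOn).union (hcomm g⁻¹)).subset
    fun n hn => ?_
  by_contra hcon
  rw [Set.mem_union, not_or] at hcon
  obtain ⟨h1, h2⟩ := hcon
  apply hn
  have h3 : (g⁻¹ • n ∈ A ↔ 0 ≤ g⁻¹ • n) := not_not.1 h1
  have h4 : (0 ≤ n ↔ 0 ≤ g⁻¹ • n) := not_not.1 h2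
  exact h3.trans h4.symm

/-- the action on the sets commensurate to the half line -/
@[reducible] def nsetAction (hcomm : ∀ g : G, (cross g 0).Finite) : MulAction G NSet where
  smul g A := ⟨{n | g⁻¹ • n ∈ A.1}, comm_smul hcomm g A.2⟩
  one_smul A := by
    apply Subtype.ext
    ext n
    change (1 : G)⁻¹ • n ∈ A.1 ↔ n ∈ A.1
    rw [inv_one, one_smul]
  mul_smul g h A := by
    apply Subtype.ext
    ext n
    change (g * h)⁻¹ • n ∈ A.1 ↔ h⁻¹ • g⁻¹ • n ∈ A.1
    rw [mul_inv_rev, mul_smul]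

theorem vec_smul (ψ : ℤ → ℝ) (g : G) (A : Set ℤ) :
    vec ψ {n | g⁻¹ • n ∈ A} = vec (fun m => ψ (g • m)) A := by
  unfold vec
  rw [← finprod_comp_equiv (MulAction.toPerm g)]
  apply finprod_congr
  intro m
  have h1 : (MulAction.toPerm g m : ℤ) = g • m := rfl
  rw [h1]
  have h2 : (g • m ∈ {n | g⁻¹ • n ∈ A}) = (m ∈ A) := by
    rw [Set.mem_ofPred_eq, inv_smul_smul]
  rw [h2]

theorem folner_of_cuts [DecidableEq G] (S : Finset G) (hcomm : ∀ g : G, (cross g 0).Finite)
    {C : ℕ} (hcut : ∀ B : ℤ, ∃ m > B, ∀ s ∈ S, (cross s m).Finite ∧ (cross s m).ncard ≤ C)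
    (hloc : ∀ (A : Set ℤ) (L : Finset G), Comm A → (∀ l ∈ L, ∀ n : ℤ, n ∈ A ↔ l • n ∈ A) →
      (Subgroup.closure (L : Set G) : Set G).Finite) {δ : ℝ} (hδ : 0 < δ) :
    ∃ F : Finset G, F.Nonempty ∧
      ∀ s ∈ S, (({g ∈ F | s * g ∉ F} : Finset G).card : ℝ) < δ * (F.card : ℝ) := by
  classical
  let _ : MulAction G NSet := nsetAction hcomm
  -- choose the energy
  set k : ℝ := (S.card : ℝ) + 1 with hk
  have hkpos : 0 < k := by positivity
  obtain ⟨ψ, W, hW1, hW2, hW3, hW4⟩ := exists_psi S hcomm hcut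
    (η := (δ / (4 * k)) ^ 2) (by positivity)
  let hf : Finset ℤ → NSet := fun E => ⟨half E, comm_half E⟩
  have hfinj : Function.Injective hf := fun E E' h => half_injective (congrArg Subtype.val h)
  let WY : Finset NSet := W.powerset.image hf
  let f : NSet → ℝ := fun A => vec ψ A.1 ^ 2
  have hsumf : ∑ A ∈ WY, f A = 1 := by
    rw [sum_image fun a _ b _ h => hfinj h]
    have h1 := sum_vec hW1 hW1
    simp only [sub_self, Real.cos_zero, prod_const_one] at h1
    rw [← h1]
    refine sum_congr rfl fun E _ => ?_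
    change vec ψ (half E) ^ 2 = _
    ring
  have hf0 : ∀ A, 0 ≤ f A := fun A => sq_nonneg _
  have hfW : ∀ A ∉ WY, f A = 0 := by
    intro A hA
    by_cases h1 : ∀ n ∉ W, (n ∈ A.1 ↔ 0 ≤ n)
    · exfalso
      obtain ⟨E, hE, hAE⟩ := exists_half h1
      apply hA
      rw [mem_image]
      exact ⟨E, mem_powerset.2 hE, Subtype.ext hAE.symm⟩
    · obtain ⟨n, h1⟩ := not_forall.1 h1
      obtain ⟨hn, hnA⟩ := Classical.not_imp.1 h1
      have h2 : vec ψ A.1 = 0 := vec_eq_zero hW1 A.2 hn hnA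
      simp only [f, h2]
      norm_num
  have hf1 : ∀ A, f A ≤ 1 := by
    intro A
    by_cases hA : A ∈ WY
    · rw [← hsumf]
      exact single_le_sum (fun B _ => hf0 B) hA
    · rw [hfW A hA]
      exact zero_le_one
  have hs : ∀ s ∈ S, ∑ A ∈ WY, max (f A - f (s • A)) 0 ≤ δ / (2 * k) := by
    intro s hs
    have h1 : ∑ A ∈ WY, max (f A - f (s • A)) 0 ≤
        ∑ E ∈ W.powerset, |vec ψ (half E) ^ 2 - vec (fun m => ψ (s • m)) (half E) ^ 2| := by
      rw [sum_image fun a _ b _ h => hfinj h]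
      refine sum_le_sum fun E _ => ?_
      have h2 : f (s • hf E) = vec (fun m => ψ (s • m)) (half E) ^ 2 := by
        change vec ψ {n | s⁻¹ • n ∈ half E} ^ 2 = _
        rw [vec_smul]
      rw [h2]
      exact max_le (le_abs_self _) (abs_nonneg _)
    have h2 := sum_vec_sq_sub hW1 (ψ' := fun m => ψ (s • m)) (hW2 s hs)
      fun n _ => hW3 n (s • n)
    have h3 := hW4 s hs W
    have h4 : (∑ E ∈ W.powerset, |vec ψ (half E) ^ 2 -
        vec (fun m => ψ (s • m)) (half E) ^ 2|) ^ 2 ≤ (δ / (2 * k)) ^ 2 := by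
      calc _ ≤ 4 * ∑ n ∈ W, (ψ n - ψ (s • n)) ^ 2 := h2
        _ ≤ 4 * (δ / (4 * k)) ^ 2 := by linarith
        _ = (δ / (2 * k)) ^ 2 := by
          field_simp
          ring
    exact h1.trans (abs_le_of_sq_le_sq' h4 (by positivity)).2
  have htot : ∑ s ∈ S, ∑ A ∈ WY, max (f A - f (s • A)) 0 < δ * ∑ A ∈ WY, f A := by
    rw [hsumf, mul_one]
    calc ∑ s ∈ S, ∑ A ∈ WY, max (f A - f (s • A)) 0 ≤ ∑ _s ∈ S, δ / (2 * k) :=
          sum_le_sum hs
      _ = S.card * (δ / (2 * k)) := by rw [sum_const, nsmul_eq_mul]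
      _ < δ := by
          rw [mul_div_assoc', div_lt_iff₀ (by positivity)]
          nlinarith
  obtain ⟨E, hE⟩ := exists_level S WY f hf0 hf1 hfW htot
  refine lift_folner S (fun A L hL => ?_) E hE
  apply hloc A.1 L A.2
  intro l hl n
  have h1 : (l • A).1 = A.1 := congrArg Subtype.val (hL l hl)
  have h2 : (l • A).1 = {n | l⁻¹ • n ∈ A.1} := rfl
  have h3 : l • n ∈ A.1 ↔ l • n ∈ {n | l⁻¹ • n ∈ A.1} := by rw [← h2, h1]
  rw [h3, Set.mem_ofPred_eq, inv_smul_smul]

end action

end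

end Pool.Agent.MP9d5bb5.TwoEnd
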