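import Pool.Agent.Lib.MP9d5bb5.Defs
import Pool.Agent.Lib.MP9d5bb5.TwoEndC

/-!
# Uniformly discrete groups: finite orbits, recurrence

`finite_of_finite_orbits`: a finitely generated subgroup of a uniformly discrete group with almost surely finite
orbits is finite.
`ae_recurrent`: almost every orbit of an ergodic transformation visits a set of positive measure at arbitrarily large
positive and negative times.
`ae_free`: almost every orbit is infinite.
-/

set_option autoImplicit false

namespace Pool.Agent.MP9d5bb5.TwoEnd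

open MeasureTheory Filter Topology

noncomputable section

/-- a finitely generated group has finitely many homomorphisms to a finite group -/
theorem finite_hom {G K : Type*} [Group G] [Group K] [Finite K] (L : Finset G)
    (hL : Subgroup.closure (L : Set G) = ⊤) : Finite (G →* K) := by
  let Φ : (G →* K) → (L → K) := fun φ l => φ l
  refine Finite.of_injective Φ fun φ φ' h => ?_
  refine MonoidHom.eq_of_eqOn_dense hL fun l hl => ?_
  exact congrFun h ⟨l, hl⟩

/-- an infinite finitely generated group acting on `X` has a nontrivial element that fixes all points with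
orbits of at most `k` elements -/
theorem exists_fix {G X : Type*} [Group G] [MulAction G X] [Infinite G] (L : Finset G)
    (hL : Subgroup.closure (L : Set G) = ⊤) (k : ℕ) : ∃ l : G, l ≠ 1 ∧
      ∀ x : X, (MulAction.orbit G x).Finite → (MulAction.orbit G x).ncard ≤ k → l • x = x := by
  have hfin : ∀ j : ℕ, Finite (G →* Equiv.Perm (Fin j)) := fun j => finite_hom L hL
  let Θ : G → ((j : Fin (k + 1)) → (G →* Equiv.Perm (Fin j)) → Equiv.Perm (Fin j)) :=
    fun g j φ => φ g
  have h1 : ¬ Function.Injective Θ := fun h => by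
    have : Finite ((j : Fin (k + 1)) → (G →* Equiv.Perm (Fin j)) → Equiv.Perm (Fin j)) := by
      have : ∀ j : Fin (k + 1), Finite ((G →* Equiv.Perm (Fin j)) → Equiv.Perm (Fin j)) :=
        fun j => by
          have := hfin j
          infer_instance
      infer_instance
    exact not_finite_iff_infinite.2 (inferInstance : Infinite G) (Finite.of_injective Θ h)
  obtain ⟨g, g', hgg, hne⟩ : ∃ g g' : G, Θ g = Θ g' ∧ g ≠ g' := by
    unfold Function.Injective at h1
    push Not at h1
    exact h1
  refine ⟨g'⁻¹ * g, fun h => hne (inv_mul_eq_one.1 h).symm, fun x hx hxk => ?_⟩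
  have : Finite (MulAction.orbit G x) := hx
  have : Fintype (MulAction.orbit G x) := Fintype.ofFinite _
  set j : ℕ := (MulAction.orbit G x).ncard with hj
  have hcard : Nat.card (MulAction.orbit G x) = j := rfl
  let e : MulAction.orbit G x ≃ Fin j := Finite.equivFinOfCardEq hcard
  let φ : G →* Equiv.Perm (Fin j) :=
    (e.permCongrHom.toMonoidHom).comp (MulAction.toPermHom G (MulAction.orbit G x))
  have h2 : φ g = φ g' := congrFun (congrFun hgg ⟨j, Nat.lt_succ_of_le hxk⟩) φ
  have h3 : MulAction.toPermHom G (MulAction.orbit G x) g =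
      MulAction.toPermHom G (MulAction.orbit G x) g' := e.permCongrHom.injective h2
  have h4 := congrArg (fun p => (p ⟨x, MulAction.mem_orbit_self x⟩ : MulAction.orbit G x)) h3
  have h5 : g • x = g' • x := congrArg Subtype.val h4
  rw [mul_smul, h5, inv_smul_smul]

variable {H : Subgroup (Equiv.Perm ℝ)}

theorem finite_of_finite_orbits (hmp : ∀ h ∈ H, MeasurePreserving (h : ℝ → ℝ) mu mu)
    (hd : UniformlyDiscrete H) (L : Finset (Equiv.Perm ℝ)) (hLH : (L : Set (Equiv.Perm ℝ)) ⊆ H)
    (horb : ∀ᵐ x ∂mu, (MulAction.orbit (Subgroup.closure (L : Set (Equiv.Perm ℝ))) x).Finite) :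
    (Subgroup.closure (L : Set (Equiv.Perm ℝ)) : Set (Equiv.Perm ℝ)).Finite := by
  classical
  obtain ⟨ε, hε, hd⟩ := hd
  set Λ := Subgroup.closure (L : Set (Equiv.Perm ℝ)) with hΛ
  have hΛH : Λ ≤ H := (Subgroup.closure_le _).2 hLH
  by_contra hinf
  have hinf' : Infinite Λ := Set.infinite_coe_iff.2 hinf
  -- generators inside
  let L' : Finset Λ := L.attach.image fun l => ⟨l.1, Subgroup.subset_closure l.2⟩
  have hL' : Subgroup.closure (L' : Set Λ) = ⊤ := by
    have h1 : (L' : Set Λ) = ((↑) : Λ → Equiv.Perm ℝ) ⁻¹' (L : Set (Equiv.Perm ℝ)) := by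
      ext l
      simp only [L', Finset.coe_image, Set.mem_image, Finset.mem_coe, Finset.mem_attach, true_and,
        Subtype.exists, Set.mem_preimage]
      constructor
      · rintro ⟨a, ha, rfl⟩
        exact ha
      · intro h
        exact ⟨l.1, h, rfl⟩
    rw [h1]
    exact Subgroup.closure_closure_coe_preimage
  let X : ℕ → Set ℝ := fun k => {x | (MulAction.orbit Λ x).Finite ∧ (MulAction.orbit Λ x).ncard ≤ k}
  have hXm : Monotone X := fun k k' hkk x hx => ⟨hx.1, hx.2.trans hkk⟩
  have hX1 : mu (⋃ k, X k) = 1 := by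
    have h1 : ∀ᵐ x ∂mu, x ∈ ⋃ k, X k := by
      filter_upwards [horb] with x hx
      exact Set.mem_iUnion.2 ⟨_, hx, le_rfl⟩
    rw [measure_eq_measure_of_null_sdiff (Set.subset_univ _) (by
      rw [← Set.compl_eq_univ_sdiff]
      exact h1), measure_univ]
  rw [hXm.measure_iUnion] at hX1
  have h2 : 1 - ENNReal.ofReal ε < ⨆ k, mu (X k) := by
    rw [hX1]
    exact ENNReal.sub_lt_self ENNReal.one_ne_top one_ne_zero (ENNReal.ofReal_pos.2 hε).ne'
  obtain ⟨k, hk⟩ := lt_iSup_iff.1 h2
  obtain ⟨l, hl1, hl⟩ := exists_fix (X := ℝ) L' hL' k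
  have hlH : (l : Equiv.Perm ℝ) ∈ H := hΛH l.2
  have h3 := hd l hlH fun h => hl1 (Subtype.ext h)
  have hmeas : MeasurableSet {x : ℝ | (l : Equiv.Perm ℝ) x ≠ x} :=
    (measurableSet_eq_fun (hmp _ hlH).measurable measurable_id).compl
  have h4 : ENNReal.ofReal ε ≤ mu {x : ℝ | (l : Equiv.Perm ℝ) x ≠ x} := by
    refine h3.trans (le_of_eq ?_)
    rw [mu, Measure.restrict_apply hmeas, Set.inter_comm]
    rfl
  have h5 : mu (X k) ≤ mu {x : ℝ | (l : Equiv.Perm ℝ) x ≠ x}ᶜ := by
    refine measure_mono fun x hx => ?_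
    rw [Set.mem_compl_iff, Set.mem_ofPred_eq, not_not]
    exact hl x hx.1 hx.2
  rw [prob_compl_eq_one_sub hmeas] at h5
  exact absurd hk (not_lt.2 (h5.trans (tsub_le_tsub_left h4 1)))

end

end Pool.Agent.MP9d5bb5.TwoEnd
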