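import Pool.Agent.Lib.MP9d5bb5.TwoEndD

/-!
# Ergodic bijections of `[0,1)`: recurrence and freeness
-/

set_option autoImplicit false

namespace Pool.Agent.MP9d5bb5.TwoEnd

open MeasureTheory Filter Topology

theorem measurable_symm {g : Equiv.Perm ℝ} (hg : Measurable (g : ℝ → ℝ)) :
    Measurable (g⁻¹ : Equiv.Perm ℝ) := by
  intro s hs
  have h1 : (g⁻¹ : Equiv.Perm ℝ) ⁻¹' s = (g : ℝ → ℝ) '' s := (g.image_eq_preimage_symm s).symm
  rw [h1]
  exact (hg.measurableEmbedding g.injective).measurableSet_image' hs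

/-- a measurable bijection of the line as a measurable equivalence -/
def me {g : Equiv.Perm ℝ} (hg : Measurable (g : ℝ → ℝ)) : ℝ ≃ᵐ ℝ where
  toEquiv := g
  measurable_toFun := hg
  measurable_invFun := measurable_symm hg

theorem mp_inv {g : Equiv.Perm ℝ} (hg : MeasurePreserving (g : ℝ → ℝ) mu mu) :
    MeasurePreserving ((g⁻¹ : Equiv.Perm ℝ) : ℝ → ℝ) mu mu :=
  MeasurePreserving.symm (me hg.measurable) hg

theorem mp_pow {g : Equiv.Perm ℝ} (hg : MeasurePreserving (g : ℝ → ℝ) mu mu) (n : ℕ) :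
    MeasurePreserving ((g ^ n : Equiv.Perm ℝ) : ℝ → ℝ) mu mu := by
  rw [Equiv.Perm.coe_pow]
  exact hg.iterate n

theorem mp_zpow {g : Equiv.Perm ℝ} (hg : MeasurePreserving (g : ℝ → ℝ) mu mu) (n : ℤ) :
    MeasurePreserving ((g ^ n : Equiv.Perm ℝ) : ℝ → ℝ) mu mu := by
  obtain ⟨k, rfl | rfl⟩ := n.eq_nat_or_neg
  · rw [zpow_natCast]
    exact mp_pow hg k
  · rw [zpow_neg, zpow_natCast]
    exact mp_inv (mp_pow hg k)

theorem ergodic_inv {T : Equiv.Perm ℝ} (hT : Ergodic (T : ℝ → ℝ) mu) :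
    Ergodic ((T⁻¹ : Equiv.Perm ℝ) : ℝ → ℝ) mu :=
  Ergodic.symm (e := me hT.measurable) hT

theorem zpow_add_apply (T : Equiv.Perm ℝ) (m n : ℤ) (x : ℝ) :
    (T ^ (m + n)) x = (T ^ m) ((T ^ n) x) := by
  rw [zpow_add]
  rfl

theorem ae_recurrent_pos {T : Equiv.Perm ℝ} (hT : Ergodic (T : ℝ → ℝ) mu) {B : Set ℝ}
    (hB : MeasurableSet B) (hpos : mu B ≠ 0) : ∀ᵐ x ∂mu, ∀ N : ℤ, ∃ m > N, (T ^ m) x ∈ B := by
  have hmeas : MeasurableSet {x : ℝ | ∀ N : ℤ, ∃ m > N, (T ^ m) x ∈ B} := by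
    apply measurableSet_setOfPred.2
    refine Measurable.forall fun N => Measurable.exists fun m => Measurable.and measurable_const ?_
    exact measurableSet_setOfPred.1 ((mp_zpow hT.toMeasurePreserving m).measurable hB)
  have hinv : (T : ℝ → ℝ) ⁻¹' {x : ℝ | ∀ N : ℤ, ∃ m > N, (T ^ m) x ∈ B} =
      {x : ℝ | ∀ N : ℤ, ∃ m > N, (T ^ m) x ∈ B} := by
    ext x
    rw [Set.mem_preimage, Set.mem_ofPred_eq, Set.mem_ofPred_eq]
    have h1 : ∀ m : ℤ, (T ^ m) (T x) = (T ^ (m + 1)) x := by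
      intro m
      rw [zpow_add_apply, zpow_one]
    constructor
    · intro h N
      obtain ⟨m, hm, hmB⟩ := h N
      rw [h1] at hmB
      exact ⟨m + 1, by omega, hmB⟩
    · intro h N
      obtain ⟨m, hm, hmB⟩ := h (N + 1)
      refine ⟨m - 1, by omega, ?_⟩
      rw [h1, sub_add_cancel]
      exact hmB
  rcases hT.toPreErgodic.ae_mem_or_ae_notMem hmeas hinv with h | h
  · exact h
  · exfalso
    apply hpos
    have h1 := hT.toMeasurePreserving.conservative.ae_mem_imp_frequently_image_mem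
      hB.nullMeasurableSet
    have h2 : ∀ᵐ x ∂mu, x ∉ B := by
      filter_upwards [h, h1] with x hx hx1 hxB
      apply hx
      intro N
      obtain ⟨n, hn, hnB⟩ := (frequently_atTop.1 (hx1 hxB)) (N.toNat + 1)
      refine ⟨(n : ℤ), by omega, ?_⟩
      rw [zpow_natCast, Equiv.Perm.coe_pow]
      exact hnB
    exact measure_eq_zero_iff_ae_notMem.2 h2

theorem ae_recurrent {T : Equiv.Perm ℝ} (hT : Ergodic (T : ℝ → ℝ) mu) {B : Set ℝ}
    (hB : MeasurableSet B) (hpos : mu B ≠ 0) :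
    ∀ᵐ x ∂mu, ∀ N : ℤ, (∃ m > N, (T ^ m) x ∈ B) ∧ ∃ m < N, (T ^ m) x ∈ B := by
  filter_upwards [ae_recurrent_pos hT hB hpos, ae_recurrent_pos (ergodic_inv hT) hB hpos]
    with x h1 h2 N
  refine ⟨h1 N, ?_⟩
  obtain ⟨m, hm, hmB⟩ := h2 (-N)
  refine ⟨-m, by omega, ?_⟩
  rw [zpow_neg, ← inv_zpow]
  exact hmB

theorem ae_free {T : Equiv.Perm ℝ} (hT : Ergodic (T : ℝ → ℝ) mu) :
    ∀ᵐ x ∂mu, ∀ n : ℤ, (T ^ n) x = x → n = 0 := by
  have key : ∀ n : ℕ, 0 < n → ∀ᵐ x ∂mu, (T ^ (n : ℤ)) x ≠ x := by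
    intro n hn
    have hmeas : MeasurableSet {x : ℝ | (T ^ (n : ℤ)) x = x} :=
      measurableSet_eq_fun (mp_zpow hT.toMeasurePreserving n).measurable measurable_id
    have hinv : (T : ℝ → ℝ) ⁻¹' {x : ℝ | (T ^ (n : ℤ)) x = x} =
        {x : ℝ | (T ^ (n : ℤ)) x = x} := by
      ext x
      rw [Set.mem_preimage, Set.mem_ofPred_eq, Set.mem_ofPred_eq]
      have h1 : (T ^ (n : ℤ)) (T x) = T ((T ^ (n : ℤ)) x) := by
        have h2 := zpow_add_apply T n 1 x
        have h3 := zpow_add_apply T 1 n x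
        rw [zpow_one] at h2 h3
        rw [← h2, ← h3, add_comm]
      rw [h1, T.injective.eq_iff]
    rcases hT.toPreErgodic.ae_mem_or_ae_notMem hmeas hinv with h | h
    · exfalso
      set a : ℝ := 1 / ((n : ℝ) + 1) with ha
      have ha0 : 0 < a := by positivity
      have ha1 : a ≤ 1 := by
        rw [ha, div_le_one (by positivity)]
        linarith [(Nat.cast_nonneg n : (0 : ℝ) ≤ n)]
      have hB : MeasurableSet (Set.Ico (0 : ℝ) a) := measurableSet_Ico
      have hmuB : mu (Set.Ico (0 : ℝ) a) = ENNReal.ofReal a := by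
        rw [mu, Measure.restrict_apply hB, Set.inter_eq_self_of_subset_left
          (Set.Ico_subset_Ico_right ha1), Real.volume_Ico, sub_zero]
      have hpos : mu (Set.Ico (0 : ℝ) a) ≠ 0 := by
        rw [hmuB]
        exact (ENNReal.ofReal_pos.2 ha0).ne'
      have h1 := ae_recurrent_pos hT hB hpos
      have h2 : ∀ᵐ x ∂mu, x ∈ ⋃ j ∈ Finset.range n, (T ^ j : Equiv.Perm ℝ) ⁻¹' Set.Ico 0 a := by
        filter_upwards [h1, h] with x hx hx'
        obtain ⟨m, -, hm⟩ := hx 0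
        have hn' : (0 : ℤ) < n := by exact_mod_cast hn
        have h3 : (T ^ m) x = (T ^ (m % n)) x := by
          have h4 : ∀ q : ℤ, (T ^ (n * q)) x = x := by
            intro q
            have h5 : (T ^ (n : ℤ)) x = x := hx'
            rw [zpow_mul]
            have h6 : ∀ g : Equiv.Perm ℝ, g x = x → (g ^ q) x = x := by
              intro g hg
              have h7 : g ∈ MulAction.stabilizer (Equiv.Perm ℝ) x := hg
              exact (MulAction.stabilizer (Equiv.Perm ℝ) x).zpow_mem h7 q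
            exact h6 _ h5
          have h8 := zpow_add_apply T (m % n) (n * (m / n)) x
          rw [Int.emod_add_mul_ediv, h4] at h8
          exact h8
        have h5 : 0 ≤ m % (n : ℤ) := Int.emod_nonneg _ hn'.ne'
        have h6 : m % (n : ℤ) < n := Int.emod_lt_of_pos _ hn'
        obtain ⟨j, hj⟩ := Int.eq_ofNat_of_zero_le h5
        rw [Set.mem_iUnion₂]
        refine ⟨j, Finset.mem_range.2 (by omega), ?_⟩
        rw [h3, hj, zpow_natCast] at hm
        exact hm
      have h3 : mu (⋃ j ∈ Finset.range n, (T ^ j : Equiv.Perm ℝ) ⁻¹' Set.Ico 0 a) = 1 := by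
        rw [measure_eq_measure_of_null_sdiff (Set.subset_univ _) (by
          rw [← Set.compl_eq_univ_sdiff]
          exact h2), measure_univ]
      have h4 : mu (⋃ j ∈ Finset.range n, (T ^ j : Equiv.Perm ℝ) ⁻¹' Set.Ico 0 a) ≤
          ENNReal.ofReal (n * a) := by
        refine (measure_biUnion_finset_le _ _).trans ?_
        have h5 : ∀ j ∈ Finset.range n, mu ((T ^ j : Equiv.Perm ℝ) ⁻¹' Set.Ico 0 a) =
            ENNReal.ofReal a := by
          intro j _
          rw [(mp_pow hT.toMeasurePreserving j).measure_preimage hB.nullMeasurableSet, hmuB]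
        rw [Finset.sum_congr rfl h5, Finset.sum_const, Finset.card_range, nsmul_eq_mul,
          ENNReal.ofReal_mul (Nat.cast_nonneg n), ENNReal.ofReal_natCast]
      rw [h3] at h4
      have h5 : (n : ℝ) * a < 1 := by
        rw [ha, mul_one_div, div_lt_one (by positivity)]
        linarith
      have h6 : ENNReal.ofReal (n * a) < 1 := by
        rw [← ENNReal.ofReal_one]
        exact (ENNReal.ofReal_lt_ofReal_iff one_pos).2 h5
      exact absurd h4 (not_le.2 h6)
    · exact h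
  have key2 : ∀ᵐ x ∂mu, ∀ n : ℕ, 0 < n → (T ^ (n : ℤ)) x ≠ x := by
    rw [ae_all_iff]
    intro n
    by_cases hn : 0 < n
    · filter_upwards [key n hn] with x hx _
      exact hx
    · exact Eventually.of_forall fun x h => absurd h hn
  filter_upwards [key2] with x hx n hn
  by_contra hne
  obtain ⟨k, rfl | rfl⟩ := n.eq_nat_or_neg
  · exact hx k (by omega) hn
  · apply hx k (by omega)
    rw [zpow_neg] at hn
    have h1 := congrArg (T ^ (k : ℤ)) hn
    have h2 : (T ^ (k : ℤ)) ((T ^ (k : ℤ))⁻¹ x) = x := (T ^ (k : ℤ)).apply_symm_apply x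
    rw [h2] at h1
    exact h1.symm

end Pool.Agent.MP9d5bb5.TwoEnd
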