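import Pool.Agent.Lib.MP9d5bb5.TwoEndE
import Pool.Agent.Lib.MP9d5bb5.Folner

/-!
# Discrete subgroups of a full group with finite crossing are amenable

`T` is an ergodic transformation of `[0,1)`, `H` is a subgroup of its full group.
-/

set_option autoImplicit false

namespace Pool.Agent.MP9d5bb5

open MeasureTheory Filter Topology

/-- the times `n` such that `h` moves the point `T ^ n x` to the other side of the cut in front of `x` -/
def crossing (T h : Equiv.Perm ℝ) (x : ℝ) : Set ℤ :=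
  {n : ℤ | ∃ m : ℤ, h ((T ^ n) x) = (T ^ m) x ∧ ¬ (0 ≤ n ↔ 0 ≤ m)}

/-- for almost every `x` only finitely many points of the `T`-orbit of `x` are moved by `h` from one side of
the cut in front of `x` to the other one -/
def FiniteCrossing (T h : Equiv.Perm ℝ) : Prop :=
  ∀ᵐ x ∂mu, (crossing T h x).Finite

/-- `h` moves almost every `x` to `T ^ (d x) x`, where `d` is integrable -/
def IntegrableDisplacement (T h : Equiv.Perm ℝ) : Prop :=
  ∃ d : ℝ → ℤ, Integrable (fun x => (d x : ℝ)) mu ∧ ∀ᵐ x ∂mu, h x = (T ^ d x) x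

/-- the elements of `H` preserve Lebesgue measure on `[0,1)` and move almost every point inside its `T`-orbit -/
def InFullOf (T : Equiv.Perm ℝ) (H : Subgroup (Equiv.Perm ℝ)) : Prop :=
  ∀ h ∈ H, MeasurePreserving (h : ℝ → ℝ) mu mu ∧ ∀ᵐ x ∂mu, ∃ n : ℤ, h x = (T ^ n) x

namespace TwoEnd

theorem zpow_inj {T : Equiv.Perm ℝ} {x : ℝ} (hx : ∀ n : ℤ, (T ^ n) x = x → n = 0) {n m : ℤ}
    (h : (T ^ n) x = (T ^ m) x) : n = m := by
  have h1 : (T ^ (n - m)) x = x := by
    have h2 := zpow_add_apply T (-m) n x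
    rw [h, ← zpow_add_apply, neg_add_cancel, zpow_zero] at h2
    rw [sub_eq_add_neg, add_comm]
    exact h2
  have := hx _ h1
  omega

theorem ae_orbit {T : Equiv.Perm ℝ} (hT : Ergodic (T : ℝ → ℝ) mu) {p : ℝ → Prop} (h : ∀ᵐ x ∂mu, p x) :
    ∀ᵐ x ∂mu, ∀ n : ℤ, p ((T ^ n) x) := by
  rw [ae_all_iff]
  intro n
  exact (mp_zpow hT.toMeasurePreserving n).quasiMeasurePreserving.ae h

/-- integrable displacement implies finite crossing -/
theorem finiteCrossing_of_integrable {T h : Equiv.Perm ℝ} (hT : Ergodic (T : ℝ → ℝ) mu)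
    (hi : IntegrableDisplacement T h) : FiniteCrossing T h := by
  obtain ⟨d, hd, hdx⟩ := hi
  -- the sets
  let a : ℤ → Set ℝ := fun n => {y | (|n| : ℝ) ≤ |(d y : ℝ)|}
  have ha : ∀ n, NullMeasurableSet (a n) mu := fun n =>
    nullMeasurableSet_le aemeasurable_const hd.aestronglyMeasurable.aemeasurable.abs
  have hsum : ∑' n : ℤ, mu (a n) ≠ ⊤ := by
    have h1 : ∀ n : ℤ, mu (a n) = ∫⁻ y, (a n).indicator 1 y ∂mu := fun n =>
      (lintegral_indicator_one₀ (ha n)).symm
    have h2 : ∑' n : ℤ, mu (a n) = ∫⁻ y, ∑' n : ℤ, (a n).indicator 1 y ∂mu := by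
      have h3 := lintegral_tsum (f := fun (n : ℤ) => (a n).indicator (1 : ℝ → ENNReal))
        fun n => aemeasurable_one.indicator₀ (ha n)
      rw [h3]
      exact tsum_congr h1
    have h3 : ∀ y, ∑' n : ℤ, (a n).indicator (1 : ℝ → ENNReal) y ≤
        ENNReal.ofReal (2 * |(d y : ℝ)| + 1) := by
      intro y
      rw [tsum_eq_sum (s := Finset.Icc (-|d y|) |d y|) (by
        intro n hn
        rw [Set.indicator_of_notMem]
        intro hna
        apply hn
        have h4 : (|n| : ℝ) ≤ |(d y : ℝ)| := hna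
        have h5 : |n| ≤ |d y| := by exact_mod_cast h4
        rw [Finset.mem_Icc]
        exact abs_le.1 h5)]
      have h4 : ∀ n ∈ Finset.Icc (-|d y|) |d y|, (a n).indicator (1 : ℝ → ENNReal) y ≤ 1 := by
        intro n _
        exact Set.indicator_le_self' (fun _ _ => zero_le_one) y |>.trans le_rfl
      refine (Finset.sum_le_sum h4).trans ?_
      rw [Finset.sum_const, Int.card_Icc, nsmul_eq_mul, mul_one]
      have h5 : ((|d y| + 1 - -|d y|).toNat : ℝ) = 2 * |(d y : ℝ)| + 1 := by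
        have h6 : ((|d y| + 1 - -|d y|).toNat : ℤ) = 2 * |d y| + 1 := by
          rw [Int.toNat_of_nonneg (by have := abs_nonneg (d y); omega)]
          ring
        have h7 : (((|d y| + 1 - -|d y|).toNat : ℤ) : ℝ) = 2 * |(d y : ℝ)| + 1 := by
          rw [h6]
          push_cast
          ring
        exact_mod_cast h7
      rw [← h5, ENNReal.ofReal_natCast]
    rw [h2]
    refine ne_of_lt (lt_of_le_of_lt (lintegral_mono h3) ?_)
    exact Integrable.lintegral_lt_top ((hd.abs.const_mul 2).add (integrable_const 1))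
  have hfin : ∀ᵐ x ∂mu, {n : ℤ | x ∈ ((T ^ n : Equiv.Perm ℝ) : ℝ → ℝ) ⁻¹' a n}.Finite := by
    apply ae_finite_setOfPred_mem
    have h1 : ∀ n : ℤ, mu (((T ^ n : Equiv.Perm ℝ) : ℝ → ℝ) ⁻¹' a n) = mu (a n) := fun n =>
      (mp_zpow hT.toMeasurePreserving n).measure_preimage (ha n)
    rw [tsum_congr h1]
    exact hsum
  filter_upwards [hfin, ae_orbit hT hdx, ae_free hT] with x hx1 hx2 hx3
  refine hx1.subset fun n hn => ?_
  obtain ⟨m, hm, hnm⟩ := hn
  rw [hx2 n, ← zpow_add_apply] at hm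
  have h4 := zpow_inj hx3 hm
  change (|n| : ℝ) ≤ |(d ((T ^ n) x) : ℝ)|
  have h5 : |n| ≤ |d ((T ^ n) x)| := by
    rw [← h4] at hnm
    rcases abs_cases n with ⟨h6, h7⟩ | ⟨h6, h7⟩ <;>
      rcases abs_cases (d ((T ^ n) x)) with ⟨h8, h9⟩ | ⟨h8, h9⟩ <;> omega
  exact_mod_cast h5

end TwoEnd

end Pool.Agent.MP9d5bb5
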