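import Pool.Agent.Lib.MP9d5bb5.TwoEndF

/-!
# Discrete subgroups of a full group with finite crossing are amenable: the assembly
-/

set_option autoImplicit false

namespace Pool.Agent.MP9d5bb5.TwoEnd

open MeasureTheory Filter Topology

variable {T : Equiv.Perm ℝ} {H : Subgroup (Equiv.Perm ℝ)}

/-- the points in front of which the set `half E` is invariant under `L` -/
def stabSet (T : Equiv.Perm ℝ) (L : Finset (Equiv.Perm ℝ)) (E : Finset ℤ) : Set ℝ :=
  {x | ∀ l ∈ L, ∀ n m : ℤ, l ((T ^ n) x) = (T ^ m) x → (n ∈ half E ↔ m ∈ half E)}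

theorem measurableSet_eqPts (hT : Ergodic (T : ℝ → ℝ) mu) {l : Equiv.Perm ℝ}
    (hl : Measurable (l : ℝ → ℝ)) (n m : ℤ) : MeasurableSet {x | l ((T ^ n) x) = (T ^ m) x} :=
  measurableSet_eq_fun (hl.comp (mp_zpow hT.toMeasurePreserving n).measurable)
    (mp_zpow hT.toMeasurePreserving m).measurable

theorem measurableSet_stabSet (hT : Ergodic (T : ℝ → ℝ) mu) {L : Finset (Equiv.Perm ℝ)}
    (hL : ∀ l ∈ L, Measurable (l : ℝ → ℝ)) (E : Finset ℤ) : MeasurableSet (stabSet T L E) := by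
  have h1 : stabSet T L E = ⋂ l ∈ L, ⋂ n : ℤ, ⋂ m : ℤ,
      ({x | l ((T ^ n) x) = (T ^ m) x}ᶜ ∪ {_x | n ∈ half E ↔ m ∈ half E}) := by
    ext x
    simp only [stabSet, Set.mem_ofPred_eq, Set.mem_iInter, Set.mem_union, Set.mem_compl_iff]
    exact ⟨fun h l hl n m => or_iff_not_imp_left.2 fun h1 => h l hl n m (not_not.1 h1),
      fun h l hl n m h1 => (h l hl n m).resolve_left (not_not.2 h1)⟩
  rw [h1]
  refine L.measurableSet_biInter fun l hl => MeasurableSet.iInter fun n => MeasurableSet.iInter fun m =>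
    ((measurableSet_eqPts hT (hL l hl) n m).compl.union (MeasurableSet.const _))

theorem finite_orbits (hT : Ergodic (T : ℝ → ℝ) mu) (hH : InFullOf T H) (L : Finset (Equiv.Perm ℝ))
    (hLH : (L : Set (Equiv.Perm ℝ)) ⊆ H) (E : Finset ℤ) (hpos : mu (stabSet T L E) ≠ 0) :
    ∀ᵐ x ∂mu, (MulAction.orbit (Subgroup.closure (L : Set (Equiv.Perm ℝ))) x).Finite := by
  have h1 : ∀ h ∈ H, ∀ᵐ x ∂mu, ∀ n : ℤ, ∃ m : ℤ, h ((T ^ n) x) = (T ^ m) x := by
    intro h hh
    filter_upwards [ae_orbit hT (hH h hh).2] with x hx n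
    obtain ⟨m, hm⟩ := hx n
    exact ⟨m + n, by rw [hm, zpow_add_apply]⟩
  have h2 : ∀ᵐ x ∂mu, ∀ l ∈ L, ∀ n : ℤ, ∃ m : ℤ, l ((T ^ n) x) = (T ^ m) x :=
    (eventually_all_finset L).2 fun l hl => h1 l (hLH hl)
  have h3 : ∀ᵐ x ∂mu, ∀ l ∈ L, ∀ n : ℤ, ∃ m : ℤ, l⁻¹ ((T ^ n) x) = (T ^ m) x :=
    (eventually_all_finset L).2 fun l hl => h1 l⁻¹ (H.inv_mem (hLH hl))
  have hrec := ae_recurrent hT
    (measurableSet_stabSet hT (fun l hl => (hH l (hLH hl)).1.measurable) E) hpos
  obtain ⟨b₀, hb₀⟩ := (E.image fun n => |n|).exists_le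
  set b : ℤ := max b₀ 0 with hb
  have hbE : ∀ n ∈ E, |n| ≤ b := fun n hn =>
    (hb₀ _ (Finset.mem_image_of_mem _ hn)).trans (le_max_left _ _)
  have hb0 : 0 ≤ b := le_max_right _ _
  have hin : ∀ n : ℤ, b < n → n ∈ half E := by
    intro n hn
    have h4 : n ∉ E := fun h => by
      have := hbE n h
      rw [abs_of_nonneg (by omega)] at this
      omega
    rw [mem_half]
    intro h
    exact h4 (h.2 (by omega))
  have hout : ∀ n : ℤ, n < -b → n ∉ half E := by
    intro n hn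
    have h4 : n ∉ E := fun h => by
      have := hbE n h
      rw [abs_of_nonpos (by omega)] at this
      omega
    rw [mem_half, not_not]
    exact ⟨fun h => absurd h h4, fun h => by omega⟩
  filter_upwards [h2, h3, hrec] with x hx2 hx3 hxr
  obtain ⟨k₂, hk₂, hk₂B⟩ := (hxr b).1
  obtain ⟨k₁, hk₁, hk₁B⟩ := (hxr (-b)).2
  let P : Set ℝ := {z | ∃ n : ℤ, z = (T ^ n) x ∧ n - k₁ ∈ half E ∧ n - k₂ ∉ half E}
  have hPfin : P.Finite := by
    refine ((Set.finite_Icc (k₁ - b) (k₂ + b)).image fun n : ℤ => (T ^ n) x).subset ?_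
    rintro z ⟨n, rfl, hn1, hn2⟩
    refine ⟨n, ⟨?_, ?_⟩, rfl⟩
    · by_contra hcon
      exact hout _ (by omega) hn1
    · by_contra hcon
      exact hn2 (hin _ (by omega))
  have hxP : x ∈ P := ⟨0, by rw [zpow_zero]; rfl, hin _ (by omega), hout _ (by omega)⟩
  have hstab : ∀ k : ℤ, (T ^ k) x ∈ stabSet T L E → ∀ l ∈ L, ∀ n m : ℤ,
      l ((T ^ n) x) = (T ^ m) x → (n - k ∈ half E ↔ m - k ∈ half E) := by
    intro k hk l hl n m hnm
    apply hk l hl
    rw [← zpow_add_apply, ← zpow_add_apply, sub_add_cancel, sub_add_cancel]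
    exact hnm
  have hinv : ∀ l ∈ L, ∀ z ∈ P, l z ∈ P ∧ l⁻¹ z ∈ P := by
    rintro l hl z ⟨n, rfl, hn1, hn2⟩
    constructor
    · obtain ⟨m, hm⟩ := hx2 l hl n
      exact ⟨m, hm, (hstab k₁ hk₁B l hl n m hm).1 hn1, fun h => hn2 ((hstab k₂ hk₂B l hl n m hm).2 h)⟩
    · obtain ⟨m, hm⟩ := hx3 l hl n
      have hm' : l ((T ^ m) x) = (T ^ n) x := by
        rw [← hm]
        exact l.apply_symm_apply _
      exact ⟨m, hm, (hstab k₁ hk₁B l hl m n hm').2 hn1,
        fun h => hn2 ((hstab k₂ hk₂B l hl m n hm').1 h)⟩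
  have hcl : ∀ g ∈ Subgroup.closure (L : Set (Equiv.Perm ℝ)), ∀ z ∈ P, g z ∈ P ∧ g⁻¹ z ∈ P := by
    intro g hg
    induction hg using Subgroup.closure_induction with
    | mem l hl => exact hinv l hl
    | one => exact fun z hz => ⟨hz, by rw [inv_one]; exact hz⟩
    | mul a c _ _ iha ihc =>
      intro z hz
      refine ⟨(iha _ (ihc z hz).1).1, ?_⟩
      rw [mul_inv_rev]
      exact (ihc _ (iha z hz).2).2
    | inv a _ iha =>
      intro z hz
      rw [inv_inv]
      exact ⟨(iha z hz).2, (iha z hz).1⟩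
  refine hPfin.subset ?_
  rintro z ⟨g, rfl⟩
  exact (hcl g g.2 x hxP).1

theorem folner_of_finiteCrossing (hT : Ergodic (T : ℝ → ℝ) mu) (hH : InFullOf T H)
    (hd : UniformlyDiscrete H) (hc : ∀ h ∈ H, FiniteCrossing T h) : FolnerCondition H := by
  classical
  intro S hS δ hδ
  set Γ := Subgroup.closure (S : Set (Equiv.Perm ℝ)) with hΓ
  have hcount : Countable Γ := countable_closure _ S.countable_toSet
  have hΓH : Γ ≤ H := (Subgroup.closure_le _).2 hS
  have hSΓ : ∀ s ∈ S, s ∈ Γ := fun s hs => Subgroup.subset_closure hs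
  -- generic points
  have hg1 : ∀ᵐ x ∂mu, ∀ (g : Γ) (n : ℤ), ∃ m : ℤ, (g : Equiv.Perm ℝ) ((T ^ n) x) = (T ^ m) x := by
    rw [ae_all_iff]
    intro g
    filter_upwards [ae_orbit hT (hH g (hΓH g.2)).2] with x hx n
    obtain ⟨m, hm⟩ := hx n
    exact ⟨m + n, by rw [hm, zpow_add_apply]⟩
  have hg2 := ae_free hT
  have hg3 : ∀ᵐ x ∂mu, ∀ g : Γ, (crossing T g x).Finite := by
    rw [ae_all_iff]
    intro g
    exact hc g (hΓH g.2)
  have hg4 : ∀ᵐ x ∂mu, ∀ (L : Finset Γ) (E : Finset ℤ),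
      x ∈ stabSet T (L.image (fun g : Γ => (g : Equiv.Perm ℝ))) E →
      mu (stabSet T (L.image (fun g : Γ => (g : Equiv.Perm ℝ))) E) ≠ 0 := by
    rw [ae_all_iff]
    intro L
    rw [ae_all_iff]
    intro E
    by_cases h0 : mu (stabSet T (L.image (fun g : Γ => (g : Equiv.Perm ℝ))) E) = 0
    · filter_upwards [measure_eq_zero_iff_ae_notMem.1 h0] with x hx hx'
      exact absurd hx' hx
    · exact Eventually.of_forall fun x _ => h0
  -- bounded crossing
  let BC : ℕ → Set ℝ := fun C =>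
    {x | ∀ s ∈ S, ∃ F : Finset ℤ, F.card ≤ C ∧ ∀ n : ℤ, n ∉ F → n ∉ crossing T s x}
  have hcrm : ∀ s ∈ S, ∀ n : ℤ, MeasurableSet {x | n ∉ crossing T s x} := by
    intro s hs n
    have h1 : {x | n ∉ crossing T s x} = (⋃ m : ℤ, ({x | s ((T ^ n) x) = (T ^ m) x} ∩
        {_x | ¬ (0 ≤ n ↔ 0 ≤ m)}))ᶜ := by
      ext x
      simp only [crossing, Set.mem_ofPred_eq, Set.mem_compl_iff, Set.mem_iUnion, Set.mem_inter_iff]
    rw [h1]
    exact (MeasurableSet.iUnion fun m =>
      (measurableSet_eqPts hT (hH s (hS hs)).1.measurable n m).inter (MeasurableSet.const _)).compl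
  have hBCm : ∀ C, MeasurableSet (BC C) := by
    intro C
    have h1 : BC C = ⋂ s ∈ S, ⋃ F : Finset ℤ, ({_x | F.card ≤ C} ∩
        ⋂ n : ℤ, ({_x | n ∈ F} ∪ {x | n ∉ crossing T s x})) := by
      ext x
      simp only [BC, Set.mem_ofPred_eq, Set.mem_iInter, Set.mem_iUnion, Set.mem_inter_iff,
        Set.mem_union, or_iff_not_imp_left]
    rw [h1]
    refine S.measurableSet_biInter fun s hs => MeasurableSet.iUnion fun F =>
      (MeasurableSet.const _).inter (MeasurableSet.iInter fun n =>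
        (MeasurableSet.const _).union (hcrm s hs n))
  obtain ⟨C, hC⟩ : ∃ C, mu (BC C) ≠ 0 := by
    by_contra hcon
    push Not at hcon
    have h1 : mu (⋃ C, BC C) = 0 := measure_iUnion_null hcon
    have h2 : ∀ᵐ x ∂mu, x ∈ ⋃ C, BC C := by
      filter_upwards [hg3] with x hx
      rw [Set.mem_iUnion]
      have h3 : ∀ s ∈ S, (crossing T s x).Finite := fun s hs => hx ⟨s, hSΓ s hs⟩
      refine ⟨∑ s ∈ S, (crossing T s x).ncard, fun s hs => ⟨(h3 s hs).toFinset, ?_, ?_⟩⟩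
      · rw [← Set.ncard_eq_toFinset_card _ (h3 s hs)]
        exact Finset.single_le_sum (f := fun s => (crossing T s x).ncard)
          (fun _ _ => Nat.zero_le _) hs
      · intro n hn
        rwa [Set.Finite.mem_toFinset] at hn
    have h3 : ∀ᵐ x ∂mu, x ∉ ⋃ C, BC C := measure_eq_zero_iff_ae_notMem.1 h1
    obtain ⟨x, hx, hx'⟩ := (h2.and h3).exists
    exact hx' hx
  have hg5 := ae_recurrent_pos hT (hBCm C) hC
  obtain ⟨x, hx1, hx2, hx3, hx4, hx5⟩ := (hg1.and (hg2.and (hg3.and (hg4.and hg5)))).exists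
  -- the action on the integers
  choose a ha using hx1
  let _ : MulAction Γ ℤ :=
    { smul := a
      one_smul := fun n => by
        have h1 := ha 1 n
        exact (zpow_inj hx2 h1).symm
      mul_smul := fun g g' n => by
        have h1 := ha (g * g') n
        have h2 : ((g * g' : Γ) : Equiv.Perm ℝ) ((T ^ n) x) =
            (g : Equiv.Perm ℝ) ((g' : Equiv.Perm ℝ) ((T ^ n) x)) := rfl
        rw [h2, ha g' n, ha g (a g' n)] at h1
        exact (zpow_inj hx2 h1).symm }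
  have hsm : ∀ (g : Γ) (n : ℤ), (g : Equiv.Perm ℝ) ((T ^ n) x) = (T ^ (g • n)) x := ha
  have hcross : ∀ (g : Γ) (m n : ℤ), n ∈ cross g m → n - m ∈ crossing T g ((T ^ m) x) := by
    intro g m n hn
    refine ⟨g • n - m, ?_, ?_⟩
    · rw [← zpow_add_apply, ← zpow_add_apply, sub_add_cancel, sub_add_cancel]
      exact hsm g n
    · rw [sub_nonneg, sub_nonneg]
      exact hn
  let S' : Finset Γ := S.attach.image fun s => ⟨s.1, hSΓ s.1 s.2⟩
  have hcomm : ∀ g : Γ, (cross g 0).Finite := by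
    intro g
    refine (hx3 g).subset fun n hn => ?_
    have h1 := hcross g 0 n hn
    rw [sub_zero, zpow_zero] at h1
    exact h1
  have hcut : ∀ B : ℤ, ∃ m > B, ∀ s ∈ S', (cross s m).Finite ∧ (cross s m).ncard ≤ C := by
    intro B
    obtain ⟨m, hm, hmB⟩ := hx5 B
    refine ⟨m, hm, fun s hs => ?_⟩
    have hsS : (s : Equiv.Perm ℝ) ∈ S := by
      obtain ⟨t, _, rfl⟩ := Finset.mem_image.1 hs
      exact t.2
    obtain ⟨F, hF, hF2⟩ := hmB s hsS
    have h1 : cross s m ⊆ (F.image fun n => n + m : Finset ℤ) := by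
      intro n hn
      rw [Finset.mem_coe, Finset.mem_image]
      refine ⟨n - m, ?_, sub_add_cancel n m⟩
      by_contra h2
      exact hF2 _ h2 (hcross s m n hn)
    refine ⟨(Finset.finite_toSet _).subset h1, ?_⟩
    refine (Set.ncard_le_ncard h1 (Finset.finite_toSet _)).trans ?_
    rw [Set.ncard_coe_finset]
    exact Finset.card_image_le.trans hF
  have hloc : ∀ (A : Set ℤ) (L : Finset Γ), Comm A → (∀ l ∈ L, ∀ n : ℤ, n ∈ A ↔ l • n ∈ A) →
      (Subgroup.closure (L : Set Γ) : Set Γ).Finite := by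
    intro A L hA hL
    have hA' : {n : ℤ | ¬ (n ∈ A ↔ 0 ≤ n)}.Finite := hA
    obtain ⟨E, _, rfl⟩ := exists_half (A := A) (W := hA'.toFinset) (by
      intro n hn
      rw [Set.Finite.mem_toFinset, Set.mem_ofPred_eq, not_not] at hn
      exact hn)
    have h1 : x ∈ stabSet T (L.image (fun g : Γ => (g : Equiv.Perm ℝ))) E := by
      intro l hl n m hnm
      obtain ⟨g, hg, rfl⟩ := Finset.mem_image.1 hl
      rw [hsm g n] at hnm
      rw [← zpow_inj hx2 hnm]
      exact hL g hg n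
    have hLH : ((L.image (fun g : Γ => (g : Equiv.Perm ℝ)) : Finset (Equiv.Perm ℝ)) :
        Set (Equiv.Perm ℝ)) ⊆ H := by
      intro l hl
      obtain ⟨g, _, rfl⟩ := Finset.mem_image.1 (Finset.mem_coe.1 hl)
      exact hΓH g.2
    have h2 := finite_of_finite_orbits (fun h hh => (hH h hh).1) hd _ hLH
      (finite_orbits hT hH _ hLH E (hx4 L E h1))
    have h3 : (Subgroup.closure (L : Set Γ)).map Γ.subtype =
        Subgroup.closure ((L.image (fun g : Γ => (g : Equiv.Perm ℝ)) : Finset (Equiv.Perm ℝ)) :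
        Set (Equiv.Perm ℝ)) := by
      rw [MonoidHom.map_closure, Finset.coe_image]
      rfl
    rw [← h3, Subgroup.coe_map] at h2
    exact h2.of_finite_image Subtype.val_injective.injOn
  obtain ⟨F, hFne, hF⟩ := folner_of_cuts S' hcomm hcut hloc (half_pos hδ)
  refine ⟨F.image (fun g : Γ => (g : Equiv.Perm ℝ)), hFne.image _, ?_, ?_⟩
  · intro l hl
    obtain ⟨g, _, rfl⟩ := Finset.mem_image.1 (Finset.mem_coe.1 hl)
    exact hΓH g.2
  · intro s hs
    set F' : Finset (Equiv.Perm ℝ) := F.image (fun g : Γ => (g : Equiv.Perm ℝ)) with hF'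
    have hcard : F'.card = F.card := Finset.card_image_of_injective _ Subtype.val_injective
    let s' : Γ := ⟨s, hSΓ s hs⟩
    have hs' : s' ∈ S' := Finset.mem_image.2 ⟨⟨s, hs⟩, Finset.mem_attach _ _, rfl⟩
    have h1 := hF s' hs'
    set A : Finset (Equiv.Perm ℝ) := F'.image (fun g => s * g) with hA
    have hAcard : A.card = F'.card := Finset.card_image_of_injective _ (mul_right_injective s)
    have hAc : (A : Set (Equiv.Perm ℝ)) = (fun g => s * g) '' (F' : Set (Equiv.Perm ℝ)) :=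
      Finset.coe_image
    have h2 : (symmDiff ((fun g => s * g) '' (↑F' : Set (Equiv.Perm ℝ)))
        (↑F' : Set (Equiv.Perm ℝ))) = ((symmDiff A F' : Finset (Equiv.Perm ℝ)) :
        Set (Equiv.Perm ℝ)) := by
      rw [Finset.coe_symmDiff, hAc]
    have h3 : (symmDiff A F').card ≤ 2 * (A \ F').card := by
      rw [symmDiff_def, Finset.sup_eq_union]
      refine (Finset.card_union_le _ _).trans ?_
      rw [two_mul, Finset.card_sdiff_comm hAcard]
    have h4 : (A \ F').card ≤ ({g ∈ F | s' * g ∉ F} : Finset Γ).card := by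
      have h5 : A \ F' ⊆ ({g ∈ F | s' * g ∉ F} : Finset Γ).image
          (fun g : Γ => s * (g : Equiv.Perm ℝ)) := by
        intro y hy
        rw [Finset.mem_sdiff] at hy
        obtain ⟨z, hz, rfl⟩ := Finset.mem_image.1 hy.1
        obtain ⟨g, hg, rfl⟩ := Finset.mem_image.1 hz
        refine Finset.mem_image.2 ⟨g, Finset.mem_filter.2 ⟨hg, fun h => hy.2 ?_⟩, rfl⟩
        exact Finset.mem_image.2 ⟨s' * g, h, rfl⟩
      exact (Finset.card_le_card h5).trans Finset.card_image_le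
    rw [h2, Set.ncard_coe_finset, hcard]
    have h5 : ((symmDiff A F').card : ℝ) ≤ 2 * (({g ∈ F | s' * g ∉ F} : Finset Γ).card : ℝ) := by
      have h6 := h3.trans (Nat.mul_le_mul_left 2 h4)
      exact_mod_cast h6
    linarith

end Pool.Agent.MP9d5bb5.TwoEnd
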